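import Pool.Agent.EVS.Stmts
import Pool.Agent.EVR.EXT
import Pool.Agent.EVR.CHR
import Pool.Agent.EVR.CLD

/-!
# Squad EVS (MP_3e5173_lc): basic lemmas for all modules.  See also `Pool.Agent.EVR.Api`.
-/

set_option autoImplicit false

namespace EVS

open Polynomial EVR

noncomputable section

/-! ## derivations -/

theorem hEXT : Stmt_EXT := ext_proof

theorem hCHR : Stmt_CHR := chr_proof ext_proof

theorem exists_ext (D : Derivation ℤ ℂ ℂ) : ∃ E : Derivation ℤ K K, IsExt D E := by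
  obtain ⟨E, hE, -⟩ := hEXT.2 D
  exact ⟨E, hE⟩

/-- `E` on polynomials -/
theorem E_pz {D : Derivation ℤ ℂ ℂ} {E : Derivation ℤ K K} (h : IsExt D E) (p : ℂ[X]) :
    E (pz p) = pz (cd D p) := (hCHR D E h).1 p

theorem cd_coeff (D : Derivation ℤ ℂ ℂ) (p : ℂ[X]) (n : ℕ) :
    (cd D p).coeff n = D (p.coeff n) := hEXT.1 D p n

theorem cd_add (D : Derivation ℤ ℂ ℂ) (p q : ℂ[X]) : cd D (p + q) = cd D p + cd D q :=
  EXT_.cd_add D p q

theorem cd_mul (D : Derivation ℤ ℂ ℂ) (p q : ℂ[X]) : cd D (p * q) = cd D p * q + p * cd D q :=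
  EXT_.cd_mul D p q

theorem cd_one (D : Derivation ℤ ℂ ℂ) : cd D 1 = 0 := EXT_.cd_one D

theorem cd_X (D : Derivation ℤ ℂ ℂ) : cd D X = 0 := EXT_.cd_X D

theorem cd_C (D : Derivation ℤ ℂ ℂ) (c : ℂ) : cd D (C c) = C (D c) := EXT_.cd_C D c

theorem cd_neg (D : Derivation ℤ ℂ ℂ) (p : ℂ[X]) : cd D (-p) = -cd D p := by
  ext n
  rw [cd_coeff, coeff_neg, coeff_neg, cd_coeff, map_neg]

theorem cd_sub (D : Derivation ℤ ℂ ℂ) (p q : ℂ[X]) : cd D (p - q) = cd D p - cd D q := by
  ext n
  rw [cd_coeff, coeff_sub, coeff_sub, cd_coeff, cd_coeff, map_sub]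

theorem cd_pow (D : Derivation ℤ ℂ ℂ) (p : ℂ[X]) (n : ℕ) :
    cd D (p ^ n) = (n : ℂ[X]) * p ^ (n - 1) * cd D p := by
  induction n with
  | zero => rw [pow_zero, cd_one, Nat.cast_zero, zero_mul, zero_mul]
  | succ n ih =>
    rw [pow_succ, cd_mul, ih, Nat.cast_succ, Nat.add_sub_cancel]
    rcases n with _ | n
    · simp
    · rw [Nat.add_sub_cancel, pow_succ]
      ring

theorem natDegree_cd_le (D : Derivation ℤ ℂ ℂ) (p : ℂ[X]) : (cd D p).natDegree ≤ p.natDegree := by
  rw [natDegree_le_iff_coeff_eq_zero]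
  intro n hn
  rw [cd_coeff, coeff_eq_zero_of_natDegree_lt hn, map_zero]

/-- value of `D f` and `D` of the value -/
theorem D_eval (D : Derivation ℤ ℂ ℂ) (p : ℂ[X]) (c : ℂ) :
    D (p.eval c) = (cd D p).eval c + (derivative p).eval c * D c := by
  induction p using Polynomial.induction_on' with
  | add p q hp hq =>
    rw [eval_add, map_add, hp, hq, cd_add, eval_add, derivative_add, eval_add]
    ring
  | monomial n a =>
    have h1 : cd D (monomial n a) = monomial n (D a) := by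
      ext m
      rw [cd_coeff, coeff_monomial, coeff_monomial]
      split_ifs
      · rfl
      · exact map_zero D
    rw [h1, eval_monomial, eval_monomial, derivative_monomial, eval_monomial, Derivation.leibniz,
      Derivation.leibniz_pow, smul_eq_mul, smul_eq_mul, smul_eq_mul, nsmul_eq_mul]
    ring

theorem Kil.mono {k k' : Subfield ℂ} (h : k ≤ k') {D : Derivation ℤ ℂ ℂ} (hD : Kil k' D) :
    Kil k D := fun z hz => hD z (h hz)

theorem Gc.mono {k k' : Subfield ℂ} (h : k ≤ k') {f γ : ℂ[X]} (hγ : Gc k' f γ) : Gc k f γ :=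
  fun q hq => hγ q fun D hD => hq D (hD.mono h)

/-- `D` on polynomials with coefficients in `k` -/
theorem cd_map {k : Subfield ℂ} {D : Derivation ℤ ℂ ℂ} (hD : Kil k D) (p : Polynomial k) :
    cd D (p.map k.subtype) = 0 := by
  ext n
  rw [cd_coeff, coeff_map, coeff_zero]
  exact hD _ (p.coeff n).2

/-- chain rule -/
theorem cd_bev {k : Subfield ℂ} {D : Derivation ℤ ℂ ℂ} (hD : Kil k D) (f : ℂ[X])
    (A : Polynomial (Polynomial k)) : cd D (bev k f A) = bev k f (derivative A) * cd D f := by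
  obtain ⟨E, hE⟩ := exists_ext D
  exact (hCHR D E hE).2 k f A hD

theorem E_div {E : Derivation ℤ K K} (x y : K) (hy : y ≠ 0) :
    E (x / y) = (E x * y - x * E y) / y ^ 2 := by
  have h := E.leibniz (x / y) y
  rw [div_mul_cancel₀ x hy, smul_eq_mul, smul_eq_mul] at h
  rw [h, eq_div_iff (pow_ne_zero 2 hy)]
  field_simp
  ring

/-- the extension is unique -/
theorem isExt_unique {D : Derivation ℤ ℂ ℂ} {E E' : Derivation ℤ K K} (h : IsExt D E)
    (h' : IsExt D E') (y : K) : E y = E' y := by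
  have hd : pz y.denom ≠ 0 := pz_ne_zero.2 (RatFunc.denom_ne_zero y)
  rw [eq_div y, E_div _ _ hd, E_div _ _ hd, E_pz h, E_pz h, E_pz h', E_pz h']

/-- `E` kills `k(Z)` -/
theorem E_kZ {k : Subfield ℂ} {D : Derivation ℤ ℂ ℂ} {E : Derivation ℤ K K} (h : IsExt D E)
    (hD : Kil k D) {y : K} (hy : y ∈ kZ k) : E y = 0 := by
  obtain ⟨P, Q, hQ, rfl⟩ := mem_kZ_iff.1 hy
  have hd : pz (Q.map k.subtype) ≠ 0 := by
    rw [pz_ne_zero, Ne, Polynomial.map_eq_zero]
    exact hQ
  rw [E_div _ _ hd, E_pz h, E_pz h, cd_map hD, cd_map hD]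
  simp

/-! ## derivatives with respect to `f` -/

theorem DP.mono {k k' : Subfield ℂ} (h : k ≤ k') {f : ℂ[X]} {y l : K} (hy : DP k f y l) :
    DP k' f y l := fun D E hE hD => hy D E hE (hD.mono h)

theorem DP.of_kZ {k : Subfield ℂ} {f : ℂ[X]} {y : K} (hy : y ∈ kZ k) : DP k f y 0 := by
  intro D E hE hD
  rw [E_kZ hE hD hy, zero_mul]

theorem DP.self (k : Subfield ℂ) (f : ℂ[X]) : DP k f (pz f) 1 := by
  intro D E hE hD
  rw [one_mul]

theorem DP.add {k : Subfield ℂ} {f : ℂ[X]} {y z l m : K} (hy : DP k f y l) (hz : DP k f z m) :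
    DP k f (y + z) (l + m) := by
  intro D E hE hD
  rw [map_add, hy D E hE hD, hz D E hE hD]
  ring

theorem DP.neg {k : Subfield ℂ} {f : ℂ[X]} {y l : K} (hy : DP k f y l) : DP k f (-y) (-l) := by
  intro D E hE hD
  rw [map_neg, hy D E hE hD]
  ring

theorem DP.sub {k : Subfield ℂ} {f : ℂ[X]} {y z l m : K} (hy : DP k f y l) (hz : DP k f z m) :
    DP k f (y - z) (l - m) := by
  intro D E hE hD
  rw [map_sub, hy D E hE hD, hz D E hE hD]
  ring

theorem DP.mul {k : Subfield ℂ} {f : ℂ[X]} {y z l m : K} (hy : DP k f y l) (hz : DP k f z m) :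
    DP k f (y * z) (l * z + y * m) := by
  intro D E hE hD
  rw [Derivation.leibniz, smul_eq_mul, smul_eq_mul, hy D E hE hD, hz D E hE hD]
  ring

theorem DP.div {k : Subfield ℂ} {f : ℂ[X]} {y z l m : K} (hy : DP k f y l) (hz : DP k f z m)
    (h0 : z ≠ 0) : DP k f (y / z) ((l * z - y * m) / z ^ 2) := by
  intro D E hE hD
  rw [E_div _ _ h0, hy D E hE hD, hz D E hE hD]
  field_simp

/-- `G(Z, f)` has the derivative `G_x(Z, f)` -/
theorem DP.bev (k : Subfield ℂ) (f : ℂ[X]) (G : Polynomial (Polynomial k)) :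
    DP k f (pz (bev k f G)) (pz (EVR.bev k f (derivative G))) := by
  intro D E hE hD
  rw [E_pz hE, E_pz hE, cd_bev hD, map_mul]

/-! ## `k(Z)(f)` -/

theorem ad_mono_left {k k' : Subfield ℂ} (h : k ≤ k') (S : Set ℂ) : ad k S ≤ ad k' S :=
  ad_le (h.trans (le_ad k' S)) fun _ hx => mem_ad k' hx

theorem fld_mono {k k' : Subfield ℂ} (h : k ≤ k') (f : ℂ[X]) : fld k f ≤ fld k' f :=
  Subfield.closure_mono (Set.union_subset_union_left _ (kZ_mono h))

theorem pz_bev_mem (k : Subfield ℂ) (f : ℂ[X]) (G : Polynomial (Polynomial k)) :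
    pz (bev k f G) ∈ fld k f := by
  rw [bev_eq_sum, map_sum]
  refine Subfield.sum_mem _ fun i _ => ?_
  rw [map_mul, map_pow]
  exact mul_mem (kZ_le_fld k f (pz_mem_kZ (coeff_map_mem _))) (pow_mem (pz_mem_fld k f) i)

theorem bev_ne_zero {k : Subfield ℂ} {f : ℂ[X]} (h : Tr (kZ k) (pz f))
    {G : Polynomial (Polynomial k)} (hG : G ≠ 0) : bev k f G ≠ 0 := by
  intro h0
  have h1 := h (CLD_.J k G) (CLD_.Co_J k G) (by rw [CLD_.J_eval, h0, map_zero])
  exact hG ((map_eq_zero_iff _ (CLD_.J_inj k)).1 h1)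

/-- the elements of `k(Z)(f)` -/
theorem mem_fld_iff {k : Subfield ℂ} {f : ℂ[X]} {y : K} : y ∈ fld k f ↔
    ∃ P Q : Polynomial (Polynomial k), pz (bev k f Q) ≠ 0 ∧
      y = pz (bev k f P) / pz (bev k f Q) := by
  constructor
  · intro h
    obtain ⟨P, Q, hP, hQ, h0, rfl⟩ := exists_rep (kZ k) (pz f) y h
    obtain ⟨g, P1, hg, hP1⟩ := CLD_.denom k P hP
    obtain ⟨g', Q1, hg', hQ1⟩ := CLD_.denom k Q hQ
    have e1 := congrArg (Polynomial.eval (pz f)) hP1
    have e2 := congrArg (Polynomial.eval (pz f)) hQ1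
    rw [eval_mul, eval_C, CLD_.J_eval] at e1 e2
    have n1 : CLD_.io k g ≠ 0 := by
      rw [Ne, map_eq_zero_iff _ (CLD_.io_inj k)]
      exact hg
    have n2 : CLD_.io k g' ≠ 0 := by
      rw [Ne, map_eq_zero_iff _ (CLD_.io_inj k)]
      exact hg'
    have b1 : ∀ G : Polynomial k, pz (bev k f (C G)) = CLD_.io k G := fun G => by
      rw [bev_C]
      rfl
    refine ⟨C g' * P1, C g * Q1, ?_, ?_⟩
    · rw [map_mul, map_mul, b1, ← e2]
      exact mul_ne_zero n1 (mul_ne_zero n2 h0)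
    · rw [map_mul, map_mul, map_mul, map_mul, b1, b1, ← e1, ← e2]
      field_simp
  · rintro ⟨P, Q, -, rfl⟩
    exact div_mem (pz_bev_mem k f P) (pz_bev_mem k f Q)

/-! ## evaluations -/

theorem ev2_C (k : Subfield ℂ) (z1 z2 : ℂ) (P : Polynomial k) :
    ev2 k z1 z2 (C P) = P.eval₂ k.subtype z1 := by
  show (C P).eval₂ _ _ = _
  rw [eval₂_C]
  rfl

theorem ev2_X (k : Subfield ℂ) (z1 z2 : ℂ) : ev2 k z1 z2 X = z2 := by
  show (X : Polynomial (Polynomial k)).eval₂ _ _ = _
  rw [eval₂_X]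

theorem eval_bev (k : Subfield ℂ) (f : ℂ[X]) (c : ℂ) (G : Polynomial (Polynomial k)) :
    (bev k f G).eval c = ev2 k c (f.eval c) G := by
  induction G using Polynomial.induction_on' with
  | add p q hp hq => rw [map_add, eval_add, hp, hq, map_add]
  | monomial n a =>
    rw [← C_mul_X_pow_eq_monomial, map_mul, map_mul, map_pow, map_pow, bev_C, bev_X, ev2_C, ev2_X,
      eval_mul, eval_pow, eval_map]

theorem eval_ev1 (k : Subfield ℂ) (z c : ℂ) (G : Polynomial (Polynomial k)) :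
    (ev1 k z G).eval c = ev2 k z c G := by
  show (G.map (Polynomial.eval₂RingHom k.subtype z)).eval c =
    G.eval₂ (Polynomial.eval₂RingHom k.subtype z) c
  rw [eval_map]

theorem derivative_ev1 (k : Subfield ℂ) (z : ℂ) (G : Polynomial (Polynomial k)) :
    derivative (ev1 k z G) = ev1 k z (derivative G) := by
  show derivative (G.map _) = (derivative G).map _
  rw [derivative_map]

theorem ev1_coeff (k : Subfield ℂ) (z : ℂ) (G : Polynomial (Polynomial k)) (n : ℕ) :
    (ev1 k z G).coeff n = (G.coeff n).eval₂ k.subtype z := by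
  show (G.map _).coeff n = _
  rw [coeff_map]
  rfl

theorem eval₂_mem_ad {k : Subfield ℂ} (z : ℂ) (P : Polynomial k) :
    P.eval₂ k.subtype z ∈ ad k {z} := by
  rw [eval₂_eq_sum_range]
  have hz : z ∈ ad k {z} := mem_ad k (Set.mem_singleton z)
  exact Subfield.sum_mem _ fun i _ => mul_mem (le_ad k {z} (P.coeff i).2) (pow_mem hz i)

/-- nonzero polynomials over `k` have no roots outside the algebraic closure of `k` -/
theorem eval₂_ne_zero {k : Subfield ℂ} (hk : Clo k) {z : ℂ} (hz : z ∉ k) {P : Polynomial k}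
    (hP : P ≠ 0) : P.eval₂ k.subtype z ≠ 0 := fun h => hz (hk z ⟨P, hP, h⟩)

theorem ev1_inj {k : Subfield ℂ} (hk : Clo k) {z : ℂ} (hz : z ∉ k) :
    Function.Injective (ev1 k z) := by
  refine Polynomial.map_injective _ ?_
  rw [injective_iff_map_eq_zero]
  intro P hP
  by_contra h
  exact eval₂_ne_zero hk hz h hP

/-! ## extension of the base field -/

/-- `k[Z][x] → k'[Z][x]` -/
def inc {k k' : Subfield ℂ} (h : k ≤ k') : Polynomial (Polynomial k) →+*
    Polynomial (Polynomial k') :=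
  Polynomial.mapRingHom (Polynomial.mapRingHom (Subfield.inclusion h))

theorem inc_inj {k k' : Subfield ℂ} (h : k ≤ k') : Function.Injective (inc h) :=
  Polynomial.map_injective _ (Polynomial.map_injective _ (Subfield.inclusion h).injective)

theorem map_inclusion {k k' : Subfield ℂ} (h : k ≤ k') (P : Polynomial k) :
    (P.map (Subfield.inclusion h)).map k'.subtype = P.map k.subtype := by
  rw [Polynomial.map_map]
  rfl

theorem inc_C {k k' : Subfield ℂ} (h : k ≤ k') (P : Polynomial k) :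
    inc h (C P) = C (P.map (Subfield.inclusion h)) := by
  show (C P).map (Polynomial.mapRingHom (Subfield.inclusion h)) = _
  rw [Polynomial.map_C]
  rfl

theorem inc_X {k k' : Subfield ℂ} (h : k ≤ k') : inc h X = X := by
  show (X : Polynomial (Polynomial k)).map (Polynomial.mapRingHom (Subfield.inclusion h)) = _
  rw [Polynomial.map_X]

theorem bev_inc {k k' : Subfield ℂ} (h : k ≤ k') (f : ℂ[X]) (G : Polynomial (Polynomial k)) :
    bev k' f (inc h G) = bev k f G := by
  induction G using Polynomial.induction_on' with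
  | add p q hp hq => rw [map_add, map_add, hp, hq, map_add]
  | monomial n a =>
    rw [← C_mul_X_pow_eq_monomial, map_mul, map_mul, map_mul, map_pow, map_pow, map_pow, inc_C,
      inc_X, bev_C, bev_X, bev_C, bev_X, map_inclusion]

theorem ev1_C (k : Subfield ℂ) (z : ℂ) (P : Polynomial k) :
    ev1 k z (C P) = C (P.eval₂ k.subtype z) := by
  show (C P).map _ = _
  rw [Polynomial.map_C]
  rfl

theorem ev1_X (k : Subfield ℂ) (z : ℂ) : ev1 k z X = X := by
  show (X : Polynomial (Polynomial k)).map _ = _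
  rw [Polynomial.map_X]

theorem ev1_inc {k k' : Subfield ℂ} (h : k ≤ k') (z : ℂ) (G : Polynomial (Polynomial k)) :
    ev1 k' z (inc h G) = ev1 k z G := by
  induction G using Polynomial.induction_on' with
  | add p q hp hq => rw [map_add, map_add, hp, hq, map_add]
  | monomial n a =>
    rw [← C_mul_X_pow_eq_monomial, map_mul, map_mul, map_mul, map_pow, map_pow, map_pow, inc_C,
      inc_X, ev1_C, ev1_X, ev1_C, ev1_X, ← eval_map, map_inclusion, eval_map]

theorem natDegree_inc {k k' : Subfield ℂ} (h : k ≤ k') (G : Polynomial (Polynomial k)) :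
    (inc h G).natDegree = G.natDegree :=
  natDegree_map_eq_of_injective (Polynomial.map_injective _ (Subfield.inclusion h).injective) G

/-! ## parameters of polynomials in several variables -/

theorem eval_mem {F L : Subfield K} (hF : F ≤ L) {ι : Type} {P : MvPolynomial ι K}
    (hP : CoM F P) {y : ι → K} (hy : ∀ i, y i ∈ L) : MvPolynomial.eval y P ∈ L := by
  rw [MvPolynomial.eval_eq]
  exact Subfield.sum_mem _ fun m _ => mul_mem (hF (hP m))
    (Subfield.prod_mem _ fun i _ => pow_mem (hy i) _)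

/-- polynomials with common parameters come from the abstract field -/
theorem exists_lift_mv {F : Subfield K} {X : Type} [Field X] {ε1 ε2 : X →+* K}
    (h : ∀ g ∈ F, ∃ x, ε1 x = g ∧ ε2 x = g) {ι : Type} {P : MvPolynomial ι K}
    (hP : CoM F P) : ∃ P' : MvPolynomial ι X, MvPolynomial.map ε1 P' = P ∧
      MvPolynomial.map ε2 P' = P := by
  classical
  choose! φ h1 h2 using h
  refine ⟨∑ m ∈ P.support, MvPolynomial.monomial m (φ (P.coeff m)), ?_, ?_⟩
  · rw [map_sum]
    conv_rhs => rw [P.as_sum]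
    refine Finset.sum_congr rfl fun m _ => ?_
    rw [MvPolynomial.map_monomial, h1 _ (hP m)]
  · rw [map_sum]
    conv_rhs => rw [P.as_sum]
    refine Finset.sum_congr rfl fun m _ => ?_
    rw [MvPolynomial.map_monomial, h2 _ (hP m)]

theorem eval_lift_mv {X : Type} [Field X] (ε : X →+* K) {ι : Type} (P : MvPolynomial ι X)
    (y : ι → X) : MvPolynomial.eval (fun i => ε (y i)) (MvPolynomial.map ε P) =
      ε (MvPolynomial.eval y P) := by
  rw [MvPolynomial.eval_map]
  exact (MvPolynomial.eval₂_comp ε y P).symm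

theorem Par.symm {s : ℕ} {k0 : Subfield ℂ} {f : ℂ[X]} {X : Type} [Field X] {ε1 ε2 : X →+* K}
    (h : Par s k0 f ε1 ε2) : Par s k0 f ε2 ε1 := by
  obtain ⟨h1, k1, k2, a1, a2, a3, a4, a5, a6, a7, a8, a9⟩ := h
  refine ⟨fun g hg => ?_, k2, k1, a2, a1, a4, a3, a6, a5, a8, a7, fun x => (a9 x).symm⟩
  obtain ⟨x, hx, hx'⟩ := h1 g hg
  exact ⟨x, hx', hx⟩

end

end EVS
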