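import Pool.Agent.EVS.Api

set_option autoImplicit false

namespace EVS

open Polynomial EVR

noncomputable section

namespace CNZ_

theorem root_mem {k : Subfield ℂ} (hk : Clo k) {a : Polynomial k} (ha : a ≠ 0) {c : ℂ}
    (h : (X - C c : ℂ[X]) ∣ a.map k.subtype) : c ∈ k := by
  refine hk c ⟨a, ha, ?_⟩
  have h1 : (a.map k.subtype).eval c = 0 := by
    obtain ⟨q, hq⟩ := h
    rw [hq, eval_mul, eval_sub, eval_X, eval_C, sub_self, zero_mul]
  rw [eval_map] at h1
  exact h1

theorem pow_dvd {k : Subfield ℂ} {a : Polynomial k} (c : k) (n : ℕ)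
    (h : (X - C (c : ℂ) : ℂ[X]) ^ n ∣ a.map k.subtype) :
    (C (X - C c) : Polynomial (Polynomial k)) ^ n ∣ C a := by
  have h1 : (X - C (c : ℂ) : ℂ[X]) = (X - C c : Polynomial k).map k.subtype := by
    rw [Polynomial.map_sub, Polynomial.map_X, Polynomial.map_C]
    rfl
  rw [h1, ← Polynomial.map_pow, Polynomial.map_dvd_map'] at h
  rw [← C_pow]
  exact _root_.map_dvd C h

theorem key {k : Subfield ℂ} (hk : Clo k) {a b : Polynomial k} (hm : Mnl (C a) (C b))
    (hab : a ≠ 0 ∨ b ≠ 0) (c : ℂ) (j : ℕ) (h1 : (X - C c) ^ (4 * j) ∣ a.map k.subtype)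
    (h2 : (X - C c) ^ (6 * j) ∣ b.map k.subtype) : j = 0 := by
  by_contra hj
  have hj' : 1 ≤ j := Nat.one_le_iff_ne_zero.2 hj
  have h4 : (X - C c : ℂ[X]) ^ 4 ∣ a.map k.subtype := (pow_dvd_pow _ (by omega)).trans h1
  have h6 : (X - C c : ℂ[X]) ^ 6 ∣ b.map k.subtype := (pow_dvd_pow _ (by omega)).trans h2
  have hc : c ∈ k := by
    rcases hab with ha | hb
    · exact root_mem hk ha ((dvd_pow_self _ (by norm_num)).trans h4)
    · exact root_mem hk hb ((dvd_pow_self _ (by norm_num)).trans h6)
  refine hm (C (X - C (⟨c, hc⟩ : k))) ?_ ⟨?_, ?_⟩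
  · exact (Polynomial.prime_C_iff.2 (Polynomial.prime_X_sub_C _)).irreducible
  · exact pow_dvd (⟨c, hc⟩ : k) 4 h4
  · exact pow_dvd (⟨c, hc⟩ : k) 6 h6

end CNZ_

theorem cnz_proof (hMTG : Stmt_MTG) (hKER : Stmt_KER) : Stmt_CNZ := by
  intro k a b u v hk hm hd hab h
  have hab' : a ≠ 0 ∨ b ≠ 0 := by
    rcases hab with ha | hb
    · left
      rintro rfl
      simp at ha
    · right
      rintro rfl
      simp at hb
  have hinj : Function.Injective (Polynomial.map k.subtype) :=
    Polynomial.map_injective _ k.subtype.injective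
  have hmain : ∀ (D : Derivation ℤ ℂ ℂ) (E : Derivation ℤ K K), IsExt D E → Kil k D →
      E u = 0 ∧ E v = 0 := by
    intro D E hE hD
    refine hMTG E 0 (a.map k.subtype) (b.map k.subtype) 1 u v ?_ ?_ ?_ ?_ one_ne_zero ?_ ?_ h
    · intro p
      refine ⟨cd D p, E_pz hE p, fun _ => ?_⟩
      have := natDegree_cd_le D p
      omega
    · rw [E_pz hE, cd_map hD, map_zero]
    · rw [E_pz hE, cd_map hD, map_zero]
    · intro h0
      apply hd
      apply hinj
      rw [Polynomial.map_zero, Polynomial.map_add, Polynomial.map_mul, Polynomial.map_mul,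
        Polynomial.map_pow, Polynomial.map_pow]
      simpa using h0
    · intro c j h1 h2
      rw [CNZ_.key hk hm hab' c j h1 h2, pow_zero]
    · rcases hab with ha | hb
      · left
        refine ⟨?_, ?_⟩
        · rw [Ne, Polynomial.map_eq_zero]
          rintro rfl
          simp at ha
        · rw [natDegree_one, Polynomial.natDegree_map]
          simpa using ha
      · right
        refine ⟨?_, ?_⟩
        · rw [Ne, Polynomial.map_eq_zero]
          rintro rfl
          simp at hb
        · rw [natDegree_one, Polynomial.natDegree_map]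
          simpa using hb
  exact ⟨hKER k u hk fun D E hE hD => (hmain D E hE hD).1,
    hKER k v hk fun D E hE hD => (hmain D E hE hD).2⟩

end

end EVS
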