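import Pool.Agent.EVS.Api
import Pool.Agent.EVR.COL

/-!
# Squad EVS, module CO2: the parameters of a condition
-/

set_option autoImplicit false

namespace EVS

open Polynomial EVR

noncomputable section

namespace CO2_

theorem bpo_mono {F : Subfield K} {N N' : ℕ} {ι : Type} {Φ : (ι → K) → Prop}
    (h : BPO F N ι Φ) (hN : N ≤ N') : BPO F N' ι Φ := by
  induction hN with
  | refl => exact h
  | step _ ih => exact BPO.mono ih

theorem bfo_mono {F : Subfield K} {N N' : ℕ} {ι : Type} {Φ : (ι → K) → Prop}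
    (h : BFO F N ι Φ) (hN : N ≤ N') : BFO F N' ι Φ := by
  induction hN with
  | refl => exact h
  | step _ ih => exact BFO.mono ih

open Classical in
/-- the coefficients of a polynomial over a ring of multivariate polynomials -/
def gc {ι : Type} (G : Polynomial (MvPolynomial ι K)) : Finset K :=
  G.support.biUnion fun i => COL_.mc (G.coeff i)

theorem gc_mem {ι : Type} {G : Polynomial (MvPolynomial ι K)} {F : Subfield K}
    (h : (gc G : Set K) ⊆ F) (i : ℕ) : CoM F (G.coeff i) := by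
  classical
  intro m
  by_cases hi : i ∈ G.support
  · refine COL_.mc_mem (fun x hx => h ?_) m
    rw [Finset.mem_coe, gc, Finset.mem_biUnion]
    exact ⟨i, hi, hx⟩
  · rw [notMem_support_iff.1 hi, MvPolynomial.coeff_zero]
    exact zero_mem F

theorem bp {ι : Type} {Φ : (ι → K) → Prop} (h : BP ι Φ) :
    ∃ (S : Finset K) (N : ℕ), ∀ F : Subfield K, (S : Set K) ⊆ F → BPO F N ι Φ := by
  classical
  induction h with
  | qf h =>
    obtain ⟨S, hS⟩ := COL_.qf h
    exact ⟨S, 0, fun F hF => BPO.qf (hS F hF)⟩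
  | free h =>
    obtain ⟨S, hS⟩ := COL_.qf h
    exact ⟨S, 0, fun F hF => BPO.free (hS F hF)⟩
  | and _ _ ih ih' =>
    obtain ⟨S, N, hS⟩ := ih
    obtain ⟨T, M, hT⟩ := ih'
    exact ⟨S ∪ T, max N M, fun F hF => BPO.and
      (bpo_mono (hS F (COL_.union_sub hF).1) (le_max_left N M))
      (bpo_mono (hT F (COL_.union_sub hF).2) (le_max_right N M))⟩
  | or _ _ ih ih' =>
    obtain ⟨S, N, hS⟩ := ih
    obtain ⟨T, M, hT⟩ := ih'
    exact ⟨S ∪ T, max N M, fun F hF => BPO.or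
      (bpo_mono (hS F (COL_.union_sub hF).1) (le_max_left N M))
      (bpo_mono (hT F (COL_.union_sub hF).2) (le_max_right N M))⟩
  | const _ ih =>
    obtain ⟨S, N, hS⟩ := ih
    exact ⟨S, N + 1, fun F hF => BPO.const (hS F hF)⟩
  | alg G _ ih =>
    obtain ⟨S, N, hS⟩ := ih
    exact ⟨S ∪ gc G, N, fun F hF => BPO.alg G (gc_mem (COL_.union_sub hF).2)
      (hS F (COL_.union_sub hF).1)⟩
  | ell A B _ ih =>
    obtain ⟨S, N, hS⟩ := ih
    exact ⟨(S ∪ COL_.mc A) ∪ COL_.mc B, N + 2, fun F hF => BPO.ell A B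
      (COL_.mc_mem (COL_.union_sub (COL_.union_sub hF).1).2)
      (COL_.mc_mem (COL_.union_sub hF).2)
      (hS F (COL_.union_sub (COL_.union_sub hF).1).1)⟩

theorem bf {ι : Type} {Φ : (ι → K) → Prop} (h : BF ι Φ) :
    ∃ (S : Finset K) (N : ℕ), ∀ F : Subfield K, (S : Set K) ⊆ F → BFO F N ι Φ := by
  classical
  induction h with
  | qf h =>
    obtain ⟨S, hS⟩ := COL_.qf h
    exact ⟨S, 0, fun F hF => BFO.qf (hS F hF)⟩
  | free h =>
    obtain ⟨S, hS⟩ := COL_.qf h
    exact ⟨S, 0, fun F hF => BFO.free (hS F hF)⟩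
  | neg _ ih =>
    obtain ⟨S, N, hS⟩ := ih
    exact ⟨S, N, fun F hF => BFO.neg (hS F hF)⟩
  | and _ _ ih ih' =>
    obtain ⟨S, N, hS⟩ := ih
    obtain ⟨T, M, hT⟩ := ih'
    exact ⟨S ∪ T, max N M, fun F hF => BFO.and
      (bfo_mono (hS F (COL_.union_sub hF).1) (le_max_left N M))
      (bfo_mono (hT F (COL_.union_sub hF).2) (le_max_right N M))⟩
  | const _ ih =>
    obtain ⟨S, N, hS⟩ := ih
    exact ⟨S, N + 1, fun F hF => BFO.const (hS F hF)⟩
  | alg G _ ih =>
    obtain ⟨S, N, hS⟩ := ih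
    exact ⟨S ∪ gc G, N, fun F hF => BFO.alg G (gc_mem (COL_.union_sub hF).2)
      (hS F (COL_.union_sub hF).1)⟩
  | ell A B _ ih =>
    obtain ⟨S, N, hS⟩ := ih
    exact ⟨(S ∪ COL_.mc A) ∪ COL_.mc B, N + 2, fun F hF => BFO.ell A B
      (COL_.mc_mem (COL_.union_sub (COL_.union_sub hF).1).2)
      (COL_.mc_mem (COL_.union_sub hF).2)
      (hS F (COL_.union_sub (COL_.union_sub hF).1).1)⟩

end CO2_

theorem co2_proof : Stmt_CO2 := ⟨fun _ _ h => CO2_.bp h, fun _ _ h => CO2_.bf h⟩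

end

end EVS
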