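import Pool.Agent.EVS.Api

set_option autoImplicit false

namespace EVS

open Polynomial EVR

theorem cst_proof (hMTG : Stmt_MTG) (hDDZ : Stmt_DDZ) : Stmt_CST := by
  intro α β u v hne heq
  obtain ⟨E, hE, hK⟩ := hDDZ
  have hE0 : ∀ c : ℂ, E (pz (C c)) = 0 := by
    intro c
    rw [hE, derivative_C, map_zero]
  have hC : (4 : ℂ[X]) * (C α) ^ 3 + 27 * (C β) ^ 2 = C (4 * α ^ 3 + 27 * β ^ 2) := by
    simp only [map_add, map_mul, map_pow, map_ofNat]
  have key := hMTG E (-1) (C α) (C β) 1 u v ?_ (hE0 α) (hE0 β) ?_ one_ne_zero ?_ ?_ heq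
  · obtain ⟨h1, h2⟩ := key
    obtain ⟨u0, hu⟩ := hK u h1
    obtain ⟨v0, hv⟩ := hK v h2
    exact ⟨u0, v0, hu, hv⟩
  · intro p
    refine ⟨derivative p, hE p, fun hp => ?_⟩
    have h1 : p.natDegree ≠ 0 := fun h0 => hp (derivative_of_natDegree_zero h0)
    have h2 := natDegree_derivative_lt h1
    omega
  · rw [hC, Ne, C_eq_zero]
    exact hne
  · intro c j h4 h6
    by_cases hj : j = 0
    · subst hj
      rw [pow_zero]
    · exfalso
      have aux : ∀ (x : ℂ) (n : ℕ), n ≠ 0 → x ≠ 0 → ¬ (X - C c) ^ n ∣ C x := by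
        intro x n hn hx hd
        have h1 := natDegree_le_of_dvd hd (C_ne_zero.2 hx)
        rw [natDegree_C, natDegree_pow, natDegree_X_sub_C, mul_one] at h1
        omega
      by_cases hα : α = 0
      · have hβ : β ≠ 0 := by
          rintro rfl
          apply hne
          rw [hα]
          ring
        exact aux β (6 * j) (by omega) hβ h6
      · exact aux α (4 * j) (by omega) hα h4
  · by_cases hα : α = 0
    · have hβ : β ≠ 0 := by
        rintro rfl
        apply hne
        rw [hα]
        ring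
      right
      refine ⟨C_ne_zero.2 hβ, ?_⟩
      rw [natDegree_one, natDegree_C]
      norm_num
    · left
      refine ⟨C_ne_zero.2 hα, ?_⟩
      rw [natDegree_one, natDegree_C]
      norm_num

end EVS
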