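import Pool.Agent.EVS.Api

/-!
# Squad EVS, module DDZ: the derivation `d/dZ`
-/

set_option autoImplicit false

namespace EVS

open Polynomial EVR

namespace DDZ_

/-- quotient rule -/
noncomputable def F (p q : ℂ[X]) : K :=
  (pz (derivative p) * pz q - pz p * pz (derivative q)) / (pz q) ^ 2

theorem pz_ne {q : ℂ[X]} (hq : q ≠ 0) : pz q ≠ 0 := pz_ne_zero.2 hq

theorem F_congr {p q p' q' : ℂ[X]} (hq : q ≠ 0) (hq' : q' ≠ 0)
    (h : pz p / pz q = pz p' / pz q') : F p q = F p' q' := by
  have h1 := pz_ne hq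
  have h2 := pz_ne hq'
  have h3 : pz p * pz q' = pz p' * pz q := by
    rw [div_eq_div_iff h1 h2] at h
    exact h
  have h4 : p * q' = p' * q := by
    apply RatFunc.algebraMap_injective ℂ
    rw [map_mul, map_mul]
    exact h3
  have h5 := congrArg (fun r => pz (derivative r)) h4
  simp only [derivative_mul, map_add, map_mul] at h5
  unfold F
  rw [div_eq_div_iff (pow_ne_zero 2 h1) (pow_ne_zero 2 h2)]
  linear_combination (pz q * pz q') * h5 +
    (- pz (derivative q) * pz q' - pz q * pz (derivative q')) * h3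

/-- the extension -/
noncomputable def E (y : K) : K := F y.num y.denom

theorem E_eq (y : K) (p q : ℂ[X]) (hq : q ≠ 0) (h : y = pz p / pz q) :
    E y = F p q := by
  unfold E
  refine F_congr (RatFunc.denom_ne_zero y) hq ?_
  rw [← h]
  exact RatFunc.num_div_denom y

theorem rep (y : K) : ∃ p q : ℂ[X], q ≠ 0 ∧ y = pz p / pz q :=
  ⟨y.num, y.denom, RatFunc.denom_ne_zero y, (RatFunc.num_div_denom y).symm⟩

theorem E_add (x y : K) : E (x + y) = E x + E y := by
  obtain ⟨p, q, hq, hx⟩ := rep x
  obtain ⟨r, s, hs, hy⟩ := rep y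
  have h1 := pz_ne hq
  have h2 := pz_ne hs
  rw [E_eq x p q hq hx, E_eq y r s hs hy,
    E_eq (x + y) (p * s + r * q) (q * s) (mul_ne_zero hq hs) (by
      rw [hx, hy, map_add, map_mul, map_mul, map_mul]
      field_simp)]
  unfold F
  simp only [derivative_add, derivative_mul, map_add, map_mul]
  field_simp
  ring

theorem E_mul (x y : K) : E (x * y) = x • E y + y • E x := by
  obtain ⟨p, q, hq, hx⟩ := rep x
  obtain ⟨r, s, hs, hy⟩ := rep y
  have h1 := pz_ne hq
  have h2 := pz_ne hs
  rw [E_eq x p q hq hx, E_eq y r s hs hy,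
    E_eq (x * y) (p * r) (q * s) (mul_ne_zero hq hs) (by
      rw [hx, hy, map_mul, map_mul]
      field_simp), hx, hy, smul_eq_mul, smul_eq_mul]
  unfold F
  simp only [derivative_mul, map_add, map_mul]
  field_simp
  ring

/-- the derivation -/
noncomputable def Ed : Derivation ℤ K K := by
  refine Derivation.mk' (@LinearMap.mk ℤ ℤ _ _ (RingHom.id ℤ) K K _ _ Algebra.toModule
    (AddCommGroup.toIntModule K) (@AddHom.mk K K _ _ E E_add) (fun n y => ?_)) ?_
  · have h := map_zsmul (AddMonoidHom.mk' E E_add) n y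
    rw [zsmul_eq_mul, zsmul_eq_mul] at h
    have e : (@HSMul.hSMul ℤ K K (@instHSMul ℤ K Algebra.toSMul) n y : K) = (n : K) * y := by
      rw [Algebra.smul_def]
      simp
    change E (@HSMul.hSMul ℤ K K (@instHSMul ℤ K Algebra.toSMul) n y) = n • E y
    rw [e, zsmul_eq_mul]
    exact h
  · exact fun a b => E_mul a b

theorem Ed_apply (y : K) : Ed y = E y := rfl

theorem Ed_pz (p : ℂ[X]) : Ed (pz p) = pz (derivative p) := by
  rw [Ed_apply, E_eq (pz p) p 1 one_ne_zero (by rw [map_one, div_one])]
  unfold F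
  rw [derivative_one]
  simp

theorem const_of_zero (y : K) (h : Ed y = 0) : ∃ c : ℂ, y = cst c := by
  have hq : y.denom ≠ 0 := RatFunc.denom_ne_zero y
  have h1 := pz_ne hq
  rw [Ed_apply, E_eq y y.num y.denom hq (EVR.eq_div y)] at h
  unfold F at h
  rw [div_eq_zero_iff] at h
  have h2 : pz (derivative y.num) * pz y.denom - pz y.num * pz (derivative y.denom) = 0 := by
    rcases h with h | h
    · exact h
    · exact absurd h (pow_ne_zero 2 h1)
  have h3 : derivative y.num * y.denom = y.num * derivative y.denom := by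
    apply RatFunc.algebraMap_injective ℂ
    rw [map_mul, map_mul]
    exact sub_eq_zero.1 h2
  have hco : IsCoprime y.num y.denom := RatFunc.isCoprime_num_denom y
  have h4 : y.denom ∣ derivative y.denom := by
    have : y.denom ∣ y.num * derivative y.denom := ⟨derivative y.num, by rw [← h3]; ring⟩
    exact hco.symm.dvd_of_dvd_mul_left this
  have h5 : derivative y.denom = 0 := by
    by_contra hne
    have hd := natDegree_le_of_dvd h4 hne
    have hpos : y.denom.natDegree ≠ 0 := by
      intro h0
      rw [natDegree_eq_zero] at h0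
      obtain ⟨c, hc⟩ := h0
      rw [← hc, derivative_C] at hne
      exact hne rfl
    have := natDegree_derivative_lt hpos
    omega
  have h6 : derivative y.num = 0 := by
    rw [h5, mul_zero] at h3
    rcases mul_eq_zero.1 h3 with h | h
    · exact h
    · exact absurd h hq
  have c1 := Polynomial.derivative_eq_zero.1 h5
  have c2 := Polynomial.derivative_eq_zero.1 h6
  obtain ⟨a, ha⟩ := natDegree_eq_zero.1 c1
  obtain ⟨b, hb⟩ := natDegree_eq_zero.1 c2
  refine ⟨b / a, ?_⟩
  conv_lhs => rw [EVR.eq_div y]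
  rw [← ha, ← hb, pz_C, pz_C, ← map_div₀]

end DDZ_

open DDZ_ in
theorem ddz_proof : Stmt_DDZ := ⟨Ed, Ed_pz, const_of_zero⟩

end EVS
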