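import Pool.Agent.EVS.Api

/-!
# Squad EVS (MP_3e5173_lc), module DFT: the fields `k` which are algebraic closures of `k0` with
finitely many more elements
-/

set_option autoImplicit false

namespace EVS

open Polynomial EVR

noncomputable section

namespace DFT_

theorem part1 (s s' : ℕ) (k0 k : Subfield ℂ) (hs : s ≤ s') (h : Dft s k0 k) : Dft s' k0 k := by
  obtain ⟨c, hc⟩ := h
  refine ⟨fun i => if h : (i : ℕ) < s then c ⟨i, h⟩ else 0, fun z => ?_⟩
  rw [hc z]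
  have h1 : ad k0 (Set.range c) =
      ad k0 (Set.range fun i : Fin s' => if h : (i : ℕ) < s then c ⟨i, h⟩ else 0) := by
    apply le_antisymm
    · refine ad_le (le_ad _ _) ?_
      rintro _ ⟨i, rfl⟩
      refine mem_ad _ ⟨⟨i, lt_of_lt_of_le i.2 hs⟩, ?_⟩
      simp
    · refine ad_le (le_ad _ _) ?_
      rintro _ ⟨i, rfl⟩
      by_cases hi : (i : ℕ) < s
      · simp only [hi, dif_pos]
        exact mem_ad _ ⟨⟨i, hi⟩, rfl⟩
      · simp only [hi, dif_neg, not_false_eq_true]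
        exact zero_mem (ad k0 (Set.range c))
  rw [← h1]

theorem part2 (s : ℕ) (k0 k : Subfield ℂ) (h : Dft s k0 k) : Clo k ∧ k0 ≤ k := by
  obtain ⟨c, hc⟩ := h
  obtain ⟨L, hL, hclo, hiff⟩ := exists_acl (ad k0 (Set.range c))
  have hk : k = L := by
    ext z
    rw [hc z, hiff z]
  subst hk
  exact ⟨hclo, (le_ad _ _).trans hL⟩

theorem part3 (s : ℕ) (k0 k k1 : Subfield ℂ) (c : ℂ) (h : Dft s k0 k)
    (h1 : ∀ z, z ∈ k1 ↔ IsAlgebraic (ad k {c}) z) : Dft (s + 1) k0 k1 ∧ k ≤ k1 ∧ c ∈ k1 := by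
  have h2 := part2 s k0 k h
  obtain ⟨c0, hc⟩ := h
  refine ⟨⟨Fin.cons c c0, fun z => ?_⟩, fun z hz => ?_, ?_⟩
  · rw [h1 z]
    obtain ⟨L, hL, hclo, hiff⟩ := exists_acl (ad k0 (Set.range (Fin.cons c c0 : Fin (s + 1) → ℂ)))
    have hr : ∀ i, c0 i ∈ Set.range (Fin.cons c c0 : Fin (s + 1) → ℂ) := fun i =>
      ⟨i.succ, by rw [Fin.cons_succ]⟩
    constructor
    · intro hz
      rw [← hiff]
      refine hclo z (isAlgebraic_mono ?_ hz)
      refine ad_le ?_ ?_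
      · intro w hw
        rw [hiff]
        refine isAlgebraic_mono (ad_mono ?_) ((hc w).1 hw)
        rintro _ ⟨i, rfl⟩
        exact hr i
      · rintro _ rfl
        exact hL (mem_ad _ ⟨0, by rw [Fin.cons_zero]⟩)
    · refine isAlgebraic_mono (ad_le (h2.2.trans (le_ad _ _)) ?_)
      rintro _ ⟨i, rfl⟩
      refine Fin.cases ?_ (fun j => ?_) i
      · rw [Fin.cons_zero]
        exact mem_ad _ rfl
      · rw [Fin.cons_succ]
        refine le_ad k {c} ((hc _).2 (isAlgebraic_of_mem (mem_ad _ ⟨j, rfl⟩)))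
  · rw [h1]
    exact isAlgebraic_of_mem (le_ad _ _ hz)
  · rw [h1]
    exact isAlgebraic_of_mem (mem_ad _ rfl)

theorem part4 (k0 : Subfield ℂ) (h : Clo k0) : Dft 0 k0 k0 := by
  refine ⟨Fin.elim0, fun z => ⟨fun hz => ?_, fun hz => ?_⟩⟩
  · exact isAlgebraic_of_mem (le_ad _ _ hz)
  · refine h z (isAlgebraic_mono (ad_le le_rfl ?_) hz)
    rintro _ ⟨i, rfl⟩
    exact i.elim0

end DFT_

theorem dft_proof : Stmt_DFT :=
  ⟨DFT_.part1, DFT_.part2, DFT_.part3, DFT_.part4⟩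

end

end EVS
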