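import Pool.Agent.EVS.Api

/-!
# Squad EVS, module DPA: elements of `k(Z)(f)` and algebraic elements have a derivative
-/

set_option autoImplicit false

namespace EVS

open Polynomial EVR

namespace DPA_

theorem of_fld {k : Subfield ℂ} {f : ℂ[X]} {y : K} (hy : y ∈ fld k f) : ∃ m : K, DP k f y m := by
  obtain ⟨P, Q, hQ, rfl⟩ := mem_fld_iff.1 hy
  exact ⟨_, DP.div (DP.bev k f P) (DP.bev k f Q) hQ⟩

/-- a derivation on the value of a polynomial -/
theorem E_eval2 {E : Derivation ℤ K K} (P : K[X]) (t : K) (c : ℕ → K)
    (hP : ∀ n, E (P.coeff n) = c n * t) (x : K) :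
    E (P.eval x) = (∑ i ∈ Finset.range (P.natDegree + 1), c i * x ^ i) * t +
      (derivative P).eval x * E x := by
  rw [eval_eq_sum_range, map_sum, derivative_eval, sum_over_range' _ _ (P.natDegree + 1) (by omega),
    Finset.sum_mul, Finset.sum_mul, ← Finset.sum_add_distrib]
  · refine Finset.sum_congr rfl fun i _ => ?_
    rw [Derivation.leibniz, hP, Derivation.leibniz_pow]
    simp only [smul_eq_mul, nsmul_eq_mul]
    ring
  · intro n
    simp

end DPA_

theorem dpa_proof : Stmt_DPA := by
  intro k f w hw
  have hint : IsIntegral (fld k f) w := hw.isIntegral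
  set H : Polynomial (fld k f) := minpoly (fld k f) w with hH
  have hsep : H.Separable := (minpoly.irreducible hint).separable
  have hd : aeval w (derivative H) ≠ 0 := hsep.aeval_derivative_ne_zero (minpoly.aeval _ w)
  have hd' : (derivative (H.map (fld k f).subtype)).eval w ≠ 0 := by
    rw [derivative_map, eval_map]
    exact hd
  have h0 : (H.map (fld k f).subtype).eval w = 0 := by
    rw [eval_map]
    exact minpoly.aeval (fld k f) w
  have hc : ∀ n, ∃ m : K, DP k f ((H.map (fld k f).subtype).coeff n) m := fun n => by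
    rw [coeff_map]
    exact DPA_.of_fld (H.coeff n).2
  choose c hc using hc
  refine ⟨-(∑ i ∈ Finset.range ((H.map (fld k f).subtype).natDegree + 1), c i * w ^ i) /
    (derivative (H.map (fld k f).subtype)).eval w, ?_⟩
  intro D E hE hD
  have h1 := DPA_.E_eval2 (E := E) (H.map (fld k f).subtype) (E (pz f)) c
    (fun n => hc n D E hE hD) w
  rw [h0, map_zero] at h1
  rw [div_mul_eq_mul_div, eq_div_iff hd']
  linear_combination -h1

end EVS
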