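import Pool.Agent.EVS.Api

/-!
# Squad EVS (MP_3e5173_lc), module DVA: minimality at points not over `k`
-/

set_option autoImplicit false

namespace EVS

open Polynomial EVR

namespace DVA_

/-- extraction of powers -/
theorem pow_dvd {k : Subfield ℂ} {f : ℂ[X]} {c : ℂ} {π : Polynomial (Polynomial k)}
    (hP : ∀ G, (bev k f G).eval c = 0 → π ∣ G) {u : ℂ[X]} {m : ℕ}
    (hu : bev k f π = (X - C c) ^ m * u) (hu' : ¬ (X - C c) ∣ u) :
    ∀ (n N : ℕ) (G : Polynomial (Polynomial k)), m * n < N + m →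
      (X - C c) ^ N ∣ bev k f G → π ^ n ∣ G := by
  intro n
  induction n with
  | zero => intro N G _ _; rw [pow_zero]; exact one_dvd _
  | succ n ih =>
    intro N G hN hG
    have hN' : m * n < N := by
      rw [Nat.mul_succ] at hN
      omega
    have h0 : (bev k f G).eval c = 0 := by
      have h1 : (X - C c) ∣ bev k f G := (dvd_pow_self _ (by omega)).trans hG
      exact dvd_iff_isRoot.1 h1
    obtain ⟨G', rfl⟩ := hP G h0
    rw [pow_succ']
    by_cases hNm : N ≤ m
    · have hn : n = 0 := by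
        by_contra h
        have h1 : m * 1 ≤ m * n := Nat.mul_le_mul_left m (Nat.one_le_iff_ne_zero.2 h)
        omega
      rw [hn, pow_zero, mul_one]
      exact dvd_mul_right _ _
    · rw [map_mul, hu, mul_assoc] at hG
      have e : N = m + (N - m) := by omega
      rw [e, pow_add, mul_dvd_mul_iff_left (pow_ne_zero m (X_sub_C_ne_zero c))] at hG
      have h2 := (prime_X_sub_C c).pow_dvd_of_dvd_mul_left (N - m) hu' hG
      exact mul_dvd_mul_left _ (ih (N - m) G' (by omega) h2)

/-- `D` lowers the order by at most one -/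
theorem cd_dvd (D : Derivation ℤ ℂ ℂ) (c : ℂ) (m : ℕ) (u : ℂ[X]) :
    (X - C c) ^ (m - 1) ∣ cd D ((X - C c) ^ m * u) := by
  rw [cd_mul, cd_pow]
  refine dvd_add ?_ ?_
  · exact ((dvd_mul_left _ _).mul_right _).mul_right _
  · exact (pow_dvd_pow _ (Nat.sub_le m 1)).mul_right _

end DVA_

open DVA_ in
theorem dva_proof (hPRI : Stmt_PRI) : Stmt_DVA := by
  intro k f A B c j D hk hTr hM hAB hc h4 h6 hD
  rcases Nat.eq_zero_or_pos j with hj | hj
  · rw [hj, pow_zero]
    exact one_dvd _
  · have hG : ∃ G : Polynomial (Polynomial k), G ≠ 0 ∧ ev2 k c (f.eval c) G = 0 := by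
      rcases hAB with h | h
      · refine ⟨A, h, ?_⟩
        rw [← eval_bev]
        exact dvd_iff_isRoot.1 ((dvd_pow_self _ (by omega)).trans h4)
      · refine ⟨B, h, ?_⟩
        rw [← eval_bev]
        exact dvd_iff_isRoot.1 ((dvd_pow_self _ (by omega)).trans h6)
    obtain ⟨G, hG, hG0⟩ := hG
    obtain ⟨π, hπ, hπ0, hπ', hker⟩ := hPRI k c (f.eval c) G hk hc hG hG0
    have hb0 : bev k f π ≠ 0 := bev_ne_zero hTr hπ.ne_zero
    obtain ⟨u, hu, hu'⟩ := exists_eq_pow_rootMultiplicity_mul_and_not_dvd (bev k f π) hb0 c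
    set m := (bev k f π).rootMultiplicity c with hm
    have hm1 : 1 ≤ m := by
      rw [hm, Nat.one_le_iff_ne_zero, ← Nat.pos_iff_ne_zero, rootMultiplicity_pos hb0, IsRoot.def,
        eval_bev]
      exact hπ0
    have hpow := pow_dvd (m := m) (fun G h => hker G (by rw [← eval_bev]; exact h)) hu hu'
    have hjm : j ≤ m - 1 := by
      by_contra hcon
      apply hM π hπ
      exact ⟨hpow 4 (4 * j) A (by omega) h4, hpow 6 (6 * j) B (by omega) h6⟩
    have h1 : (X - C c) ^ (m - 1) ∣ bev k f (derivative π) * cd D f := by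
      rw [← cd_bev hD, hu]
      exact cd_dvd D c m u
    have h2 : ¬ (X - C c) ∣ bev k f (derivative π) := by
      rw [dvd_iff_isRoot, IsRoot.def, eval_bev]
      exact hπ'
    exact (pow_dvd_pow _ hjm).trans ((prime_X_sub_C c).pow_dvd_of_dvd_mul_left (m - 1) h2 h1)

end EVS
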