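import Pool.Agent.EVS.Api
import Pool.Agent.EVR.DVN

/-!
# Squad EVS, module DVB: points of the first kind over `k`
-/

set_option autoImplicit false

namespace EVS

open Polynomial EVR

noncomputable section

theorem dvb_proof : Stmt_DVB := by
  intro k f A B c j hk hM _ hc hfc h4 h6
  by_contra hj
  have hj1 : 1 ≤ j := Nat.one_le_iff_ne_zero.2 hj
  have hna : ¬ IsAlgebraic k (f.eval c) := fun h => hfc (hk _ h)
  have hirr : Irreducible (C (X - C (⟨c, hc⟩ : k)) : Polynomial (Polynomial k)) :=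
    (prime_C_iff.2 (prime_X_sub_C _)).irreducible
  have hpd : ∀ (n : ℕ) (G : Polynomial (Polynomial k)), (X - C c) ^ n ∣ bev k f G →
      (C (X - C (⟨c, hc⟩ : k)) : Polynomial (Polynomial k)) ^ n ∣ G := by
    refine DVN_.pow_dvd (u := 1) (DVN_.case1 hc hna) ?_ ?_
    · rw [bev_C, Polynomial.map_sub, map_X, map_C, mul_one]
      rfl
    · intro h
      exact (prime_X_sub_C c).not_isUnit (isUnit_of_dvd_one h)
  exact hM _ hirr ⟨hpd 4 A ((pow_dvd_pow _ (by omega)).trans h4),
    hpd 6 B ((pow_dvd_pow _ (by omega)).trans h6)⟩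

end

end EVS
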