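import Pool.Agent.EVS.Api
import Pool.Agent.EVR.DVN

/-!
# Squad EVS, module DVC: points of the second kind over `k`
-/

set_option autoImplicit false

namespace EVS

open Polynomial EVR

noncomputable section

namespace DVC_

/-- expansion at `c` until the first coefficient outside `k` -/
theorem expand {k : Subfield ℂ} {c : ℂ} (hc : c ∈ k) : ∀ (n : ℕ) (f : ℂ[X]), f.natDegree ≤ n →
    (¬ ∀ i, f.coeff i ∈ k) → ∃ (t : ℕ) (e : Polynomial k) (g : ℂ[X]),
      f = e.map k.subtype + (X - C c) ^ t * g ∧ g.eval c ∉ k ∧ (f.eval c ∈ k → 1 ≤ t) := by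
  intro n
  induction n with
  | zero =>
    intro f hf hn
    refine ⟨0, 0, f, by simp, ?_, ?_⟩
    · intro h
      apply hn
      intro i
      rw [eq_C_of_natDegree_le_zero hf, eval_C] at h
      rw [eq_C_of_natDegree_le_zero hf, coeff_C]
      split_ifs
      · exact h
      · exact zero_mem k
    · intro h
      exfalso
      apply hn
      intro i
      rw [eq_C_of_natDegree_le_zero hf, eval_C] at h
      rw [eq_C_of_natDegree_le_zero hf, coeff_C]
      split_ifs
      · exact h
      · exact zero_mem k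
  | succ n ih =>
    intro f hf hn
    by_cases h : f.eval c ∈ k
    · obtain ⟨f1, hf1⟩ : (X - C c) ∣ f - C (f.eval c) := by
        rw [dvd_iff_isRoot, IsRoot.def, eval_sub, eval_C, sub_self]
      have hf' : f = C (f.eval c) + (X - C c) * f1 := by rw [← hf1]; ring
      have hd : f1.natDegree ≤ n := by
        by_cases h0 : f1 = 0
        · rw [h0, natDegree_zero]; exact Nat.zero_le _
        · have h1 : ((X - C c) * f1).natDegree = 1 + f1.natDegree := by
            rw [natDegree_mul (X_sub_C_ne_zero c) h0, natDegree_X_sub_C]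
          have h2 : (f - C (f.eval c)).natDegree ≤ n + 1 :=
            (natDegree_sub_C (p := f) (a := f.eval c)).le.trans hf
          rw [hf1, h1] at h2
          omega
      have hn1 : ¬ ∀ i, f1.coeff i ∈ k := by
        intro hall
        apply hn
        obtain ⟨F, hF, -⟩ := exists_lift hall
        have e1 : f = (C (⟨f.eval c, h⟩ : k) + (X - C (⟨c, hc⟩ : k)) * F).map k.subtype := by
          rw [Polynomial.map_add, Polynomial.map_mul, Polynomial.map_sub, map_X, map_C, map_C, hF]
          exact hf'
        intro i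
        rw [e1]
        exact coeff_map_mem _ i
      obtain ⟨t, e, g, h1, h2, -⟩ := ih f1 hd hn1
      refine ⟨t + 1, C (⟨f.eval c, h⟩ : k) + (X - C (⟨c, hc⟩ : k)) * e, g, ?_, h2,
        fun _ => by omega⟩
      rw [Polynomial.map_add, Polynomial.map_mul, Polynomial.map_sub, map_X, map_C, map_C]
      show f = C (f.eval c) + (X - C c) * e.map k.subtype + (X - C c) ^ (t + 1) * g
      nth_rewrite 1 [hf']
      rw [h1]
      ring
    · exact ⟨0, 0, f, by simp, h, fun h' => absurd h' h⟩

theorem bev_comp (k : Subfield ℂ) (g : ℂ[X]) (G q : Polynomial (Polynomial k)) :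
    bev k g (G.comp q) = bev k (bev k g q) G := by
  show (G.comp q).eval₂ _ g = G.eval₂ _ (q.eval₂ _ g)
  rw [eval₂_comp]

end DVC_

open DVC_ in
theorem dvc_proof : Stmt_DVC := by
  intro k f c hk hTr hc hfc
  have hn : ¬ ∀ i, f.coeff i ∈ k := by
    intro h
    have h1 := tr_iff.1 hTr
    exact h1 (isAlgebraic_of_mem' (pz_mem_kZ h))
  obtain ⟨t, e, g, hf, hg, ht⟩ := expand hc f.natDegree f le_rfl hn
  refine ⟨t, ht hfc, ?_, ?_⟩
  · intro D hD
    have h1 : cd D ((X - C c) ^ t) = 0 := by
      have h2 : ((X - C c) ^ t : ℂ[X]) = ((X - C (⟨c, hc⟩ : k)) ^ t).map k.subtype := by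
        rw [Polynomial.map_pow, Polynomial.map_sub, map_X, map_C]
        rfl
      rw [h2]
      exact cd_map hD _
    have h3 : cd D f = (X - C c) ^ t * cd D g := by
      rw [hf, cd_add, cd_map hD, cd_mul, h1]
      ring
    rw [h3]
    exact dvd_mul_right _ _
  · intro G hG
    set a : Polynomial k := (X - C (⟨c, hc⟩ : k)) ^ t with ha
    have hamap : a.map k.subtype = (X - C c) ^ t := by
      rw [ha, Polynomial.map_pow, Polynomial.map_sub, map_X, map_C]
      rfl
    have ha0 : a ≠ 0 := pow_ne_zero _ (X_sub_C_ne_zero _)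
    set q : Polynomial (Polynomial k) := C a * X + C e with hq
    have hqd : q.natDegree = 1 := natDegree_linear ha0
    have hql : q.leadingCoeff = a := leadingCoeff_linear ha0
    have hbq : bev k g q = f := by
      rw [hq, map_add, map_mul, bev_C, bev_C, bev_X, hamap, hf]
      ring
    have hbG : bev k g (G.comp q) = bev k f G := by rw [bev_comp, hbq]
    have hna : ¬ IsAlgebraic k (g.eval c) := fun h => hg (hk _ h)
    have hpd : ∀ (n : ℕ) (G : Polynomial (Polynomial k)), (X - C c) ^ n ∣ bev k g G →
        (C (X - C (⟨c, hc⟩ : k)) : Polynomial (Polynomial k)) ^ n ∣ G := by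
      refine DVN_.pow_dvd (u := 1) (DVN_.case1 hc hna) ?_ ?_
      · rw [bev_C, Polynomial.map_sub, map_X, map_C, mul_one]
        rfl
      · intro h
        exact (prime_X_sub_C c).not_isUnit (isUnit_of_dvd_one h)
    have h1 : (X - C c) ^ ((bev k f G).rootMultiplicity c) ∣ bev k g (G.comp q) := by
      rw [hbG]
      exact pow_rootMultiplicity_dvd _ _
    have h2 := hpd _ _ h1
    rw [← C_pow, C_dvd_iff_dvd_coeff] at h2
    have h3 := h2 (G.natDegree * q.natDegree)
    rw [coeff_comp_degree_mul_degree (by rw [hqd]; exact one_ne_zero), hql] at h3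
    have h4 := Polynomial.map_dvd k.subtype h3
    have hcc : k.subtype (⟨c, hc⟩ : k) = c := rfl
    rw [Polynomial.map_pow, Polynomial.map_sub, map_X, map_C, Polynomial.map_mul,
      Polynomial.map_pow, hamap, hcc] at h4
    have hl0 : G.leadingCoeff.map k.subtype ≠ 0 := by
      rw [Ne, Polynomial.map_eq_zero]
      exact leadingCoeff_ne_zero.2 hG
    have hp0 : ((X - C c) ^ t) ^ G.natDegree ≠ (0 : ℂ[X]) :=
      pow_ne_zero _ (pow_ne_zero _ (X_sub_C_ne_zero c))
    have h5 := (le_rootMultiplicity_iff (mul_ne_zero hl0 hp0)).2 h4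
    rw [rootMultiplicity_mul (mul_ne_zero hl0 hp0), ← pow_mul,
      rootMultiplicity_X_sub_C_pow] at h5
    exact h5

end

end EVS
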