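import Pool.Agent.EVR.Api

/-!
# Squad EVS (MP_3e5173_lc), definitions: first-order conditions over `ℂ(Z)` whose quantifiers range
over constants, over solutions of algebraic equations and over points of elliptic curves
-/

set_option autoImplicit false

namespace EVS

open Polynomial EVR

noncomputable section

/-! ## The statements -/

/-- First-order conditions on families of elements of `ℂ(Z)` (with parameters from `ℂ(Z)`) whose
quantifiers range over the field `ℂ` of constants, over the solutions of an algebraic equation whose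
coefficients depend polynomially on the previous variables, or over the points, with coordinates in
`ℂ(Z)`, of an elliptic curve whose coefficients depend polynomially on the previous variables; a
quantifier over all of `ℂ(Z)` is allowed in front of quantifier-free conditions only. -/
inductive BF : (ι : Type) → ((ι → K) → Prop) → Prop
  | qf {ι : Type} {Φ : (ι → K) → Prop} (h : QF ι Φ) : BF ι Φ
  | free {ι : Type} {Φ : (Option ι → K) → Prop} (h : QF (Option ι) Φ) :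
      BF ι (fun y => ∃ t : K, Φ (ext y t))
  | neg {ι : Type} {Φ : (ι → K) → Prop} (h : BF ι Φ) : BF ι (fun y => ¬ Φ y)
  | and {ι : Type} {Φ Ψ : (ι → K) → Prop} (h : BF ι Φ) (h' : BF ι Ψ) :
      BF ι (fun y => Φ y ∧ Ψ y)
  | const {ι : Type} {Φ : (Option ι → K) → Prop} (h : BF (Option ι) Φ) :
      BF ι (fun y => ∃ c : ℂ, Φ (ext y (cst c)))
  | alg {ι : Type} (G : Polynomial (MvPolynomial ι K)) {Φ : (Option ι → K) → Prop}
      (h : BF (Option ι) Φ) :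
      BF ι (fun y => ∃ w : K, G.map (MvPolynomial.eval y) ≠ 0 ∧
        (G.map (MvPolynomial.eval y)).eval w = 0 ∧ Φ (ext y w))
  | ell {ι : Type} (A B : MvPolynomial ι K) {Φ : (Option (Option ι) → K) → Prop}
      (h : BF (Option (Option ι)) Φ) :
      BF ι (fun y => ∃ u v : K,
        4 * (MvPolynomial.eval y A) ^ 3 + 27 * (MvPolynomial.eval y B) ^ 2 ≠ 0 ∧
        v ^ 2 = u ^ 3 + MvPolynomial.eval y A * u + MvPolynomial.eval y B ∧
        Φ (ext (ext y u) v))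

/-- The existential conditions of this kind. -/
inductive BP : (ι : Type) → ((ι → K) → Prop) → Prop
  | qf {ι : Type} {Φ : (ι → K) → Prop} (h : QF ι Φ) : BP ι Φ
  | free {ι : Type} {Φ : (Option ι → K) → Prop} (h : QF (Option ι) Φ) :
      BP ι (fun y => ∃ t : K, Φ (ext y t))
  | and {ι : Type} {Φ Ψ : (ι → K) → Prop} (h : BP ι Φ) (h' : BP ι Ψ) :
      BP ι (fun y => Φ y ∧ Ψ y)
  | or {ι : Type} {Φ Ψ : (ι → K) → Prop} (h : BP ι Φ) (h' : BP ι Ψ) :
      BP ι (fun y => Φ y ∨ Ψ y)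
  | const {ι : Type} {Φ : (Option ι → K) → Prop} (h : BP (Option ι) Φ) :
      BP ι (fun y => ∃ c : ℂ, Φ (ext y (cst c)))
  | alg {ι : Type} (G : Polynomial (MvPolynomial ι K)) {Φ : (Option ι → K) → Prop}
      (h : BP (Option ι) Φ) :
      BP ι (fun y => ∃ w : K, G.map (MvPolynomial.eval y) ≠ 0 ∧
        (G.map (MvPolynomial.eval y)).eval w = 0 ∧ Φ (ext y w))
  | ell {ι : Type} (A B : MvPolynomial ι K) {Φ : (Option (Option ι) → K) → Prop}
      (h : BP (Option (Option ι)) Φ) :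
      BP ι (fun y => ∃ u v : K,
        4 * (MvPolynomial.eval y A) ^ 3 + 27 * (MvPolynomial.eval y B) ^ 2 ≠ 0 ∧
        v ^ 2 = u ^ 3 + MvPolynomial.eval y A * u + MvPolynomial.eval y B ∧
        Φ (ext (ext y u) v))

/-! ## Auxiliary definitions -/

/-- the coefficients of `P` belong to `F` -/
def CoM (F : Subfield K) {ι : Type} (P : MvPolynomial ι K) : Prop := ∀ m, P.coeff m ∈ F

/-- the conditions `BF` with parameters from `F` and budget `N` -/
inductive BFO (F : Subfield K) : ℕ → (ι : Type) → ((ι → K) → Prop) → Prop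
  | qf {N : ℕ} {ι : Type} {Φ : (ι → K) → Prop} (h : QFO F ι Φ) : BFO F N ι Φ
  | free {N : ℕ} {ι : Type} {Φ : (Option ι → K) → Prop} (h : QFO F (Option ι) Φ) :
      BFO F N ι (fun y => ∃ t : K, Φ (ext y t))
  | neg {N : ℕ} {ι : Type} {Φ : (ι → K) → Prop} (h : BFO F N ι Φ) : BFO F N ι (fun y => ¬ Φ y)
  | and {N : ℕ} {ι : Type} {Φ Ψ : (ι → K) → Prop} (h : BFO F N ι Φ) (h' : BFO F N ι Ψ) :
      BFO F N ι (fun y => Φ y ∧ Ψ y)
  | mono {N : ℕ} {ι : Type} {Φ : (ι → K) → Prop} (h : BFO F N ι Φ) : BFO F (N + 1) ι Φ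
  | const {N : ℕ} {ι : Type} {Φ : (Option ι → K) → Prop} (h : BFO F N (Option ι) Φ) :
      BFO F (N + 1) ι (fun y => ∃ c : ℂ, Φ (ext y (cst c)))
  | alg {N : ℕ} {ι : Type} (G : Polynomial (MvPolynomial ι K)) (hG : ∀ i, CoM F (G.coeff i))
      {Φ : (Option ι → K) → Prop} (h : BFO F N (Option ι) Φ) :
      BFO F N ι (fun y => ∃ w : K, G.map (MvPolynomial.eval y) ≠ 0 ∧
        (G.map (MvPolynomial.eval y)).eval w = 0 ∧ Φ (ext y w))
  | ell {N : ℕ} {ι : Type} (A B : MvPolynomial ι K) (hA : CoM F A) (hB : CoM F B)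
      {Φ : (Option (Option ι) → K) → Prop} (h : BFO F N (Option (Option ι)) Φ) :
      BFO F (N + 2) ι (fun y => ∃ u v : K,
        4 * (MvPolynomial.eval y A) ^ 3 + 27 * (MvPolynomial.eval y B) ^ 2 ≠ 0 ∧
        v ^ 2 = u ^ 3 + MvPolynomial.eval y A * u + MvPolynomial.eval y B ∧
        Φ (ext (ext y u) v))

/-- the conditions `BP` with parameters from `F` and budget `N` -/
inductive BPO (F : Subfield K) : ℕ → (ι : Type) → ((ι → K) → Prop) → Prop
  | qf {N : ℕ} {ι : Type} {Φ : (ι → K) → Prop} (h : QFO F ι Φ) : BPO F N ι Φ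
  | free {N : ℕ} {ι : Type} {Φ : (Option ι → K) → Prop} (h : QFO F (Option ι) Φ) :
      BPO F N ι (fun y => ∃ t : K, Φ (ext y t))
  | and {N : ℕ} {ι : Type} {Φ Ψ : (ι → K) → Prop} (h : BPO F N ι Φ) (h' : BPO F N ι Ψ) :
      BPO F N ι (fun y => Φ y ∧ Ψ y)
  | or {N : ℕ} {ι : Type} {Φ Ψ : (ι → K) → Prop} (h : BPO F N ι Φ) (h' : BPO F N ι Ψ) :
      BPO F N ι (fun y => Φ y ∨ Ψ y)
  | mono {N : ℕ} {ι : Type} {Φ : (ι → K) → Prop} (h : BPO F N ι Φ) : BPO F (N + 1) ι Φ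
  | const {N : ℕ} {ι : Type} {Φ : (Option ι → K) → Prop} (h : BPO F N (Option ι) Φ) :
      BPO F (N + 1) ι (fun y => ∃ c : ℂ, Φ (ext y (cst c)))
  | alg {N : ℕ} {ι : Type} (G : Polynomial (MvPolynomial ι K)) (hG : ∀ i, CoM F (G.coeff i))
      {Φ : (Option ι → K) → Prop} (h : BPO F N (Option ι) Φ) :
      BPO F N ι (fun y => ∃ w : K, G.map (MvPolynomial.eval y) ≠ 0 ∧
        (G.map (MvPolynomial.eval y)).eval w = 0 ∧ Φ (ext y w))
  | ell {N : ℕ} {ι : Type} (A B : MvPolynomial ι K) (hA : CoM F A) (hB : CoM F B)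
      {Φ : (Option (Option ι) → K) → Prop} (h : BPO F N (Option (Option ι)) Φ) :
      BPO F (N + 2) ι (fun y => ∃ u v : K,
        4 * (MvPolynomial.eval y A) ^ 3 + 27 * (MvPolynomial.eval y B) ^ 2 ≠ 0 ∧
        v ^ 2 = u ^ 3 + MvPolynomial.eval y A * u + MvPolynomial.eval y B ∧
        Φ (ext (ext y u) v))

/-- `D` vanishes on `k` -/
def Kil (k : Subfield ℂ) (D : Derivation ℤ ℂ ℂ) : Prop := ∀ z ∈ k, D z = 0

/-- `k` is the algebraic closure of `k0` with `s` more elements -/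
def Dft (s : ℕ) (k0 k : Subfield ℂ) : Prop :=
  ∃ c : Fin s → ℂ, ∀ z : ℂ, z ∈ k ↔ IsAlgebraic (ad k0 (Set.range c)) z

/-- `l` is the derivative of `y` with respect to `f`, over `k` -/
def DP (k : Subfield ℂ) (f : ℂ[X]) (y l : K) : Prop :=
  ∀ (D : Derivation ℤ ℂ ℂ) (E : Derivation ℤ K K), IsExt D E → Kil k D → E y = l * E (pz f)

/-- every polynomial which divides all `D f`, `D` a derivation over `k`, divides `γ` -/
def Gc (k : Subfield ℂ) (f γ : ℂ[X]) : Prop :=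
  ∀ q : ℂ[X], (∀ D : Derivation ℤ ℂ ℂ, Kil k D → q ∣ cd D f) → q ∣ γ

/-- `f` moves enough over `k` -/
structure Gd (k : Subfield ℂ) (f γ : ℂ[X]) (e : ℕ) : Prop where
  clo : Clo k
  ne : γ ≠ 0
  gc : Gc k f γ
  big : ∃ D : Derivation ℤ ℂ ℂ, Kil k D ∧ e ≤ (cd D f).natDegree
  lt : 2 * γ.natDegree < e

/-- the degree in `Z` of `G(Z, f)` is large, for all `G ∈ k[Z][x]` -/
def Lg (k : Subfield ℂ) (f : ℂ[X]) (e : ℕ) : Prop :=
  ∀ G : Polynomial (Polynomial k), G ≠ 0 →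
    G.leadingCoeff.natDegree + e * G.natDegree ≤ (bev k f G).natDegree

/-- the test polynomials -/
def Tst (s : ℕ) (k0 : Subfield ℂ) (f : ℂ[X]) : Prop :=
  ∀ k : Subfield ℂ, Dft s k0 k → ∃ (k' : Subfield ℂ) (γ : ℂ[X]) (d e e' : ℕ),
    k ≤ k' ∧ (∃ ζ : ℂ, ζ ∉ k') ∧ Gd k f γ e ∧ Gd k' f γ e' ∧
    (∀ D : Derivation ℤ ℂ ℂ, Kil k' D → (cd D f).natDegree ≤ d) ∧
    Lg k f e ∧ 6 * d + 7 * γ.natDegree < e

/-- the value `G(z1, z2)` -/
def ev2 (k : Subfield ℂ) (z1 z2 : ℂ) : Polynomial (Polynomial k) →+* ℂ :=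
  Polynomial.eval₂RingHom (Polynomial.eval₂RingHom k.subtype z1) z2

/-- the polynomial `G(z, X)` -/
def ev1 (k : Subfield ℂ) (z : ℂ) : Polynomial (Polynomial k) →+* ℂ[X] :=
  Polynomial.mapRingHom (Polynomial.eval₂RingHom k.subtype z)

/-- pairs of embeddings of a field into `ℂ(Z)` with images `k1(Z)(f)` and `k2(Z)(f)` -/
def Par (s : ℕ) (k0 : Subfield ℂ) (f : ℂ[X]) {X : Type} [Field X] (ε1 ε2 : X →+* K) : Prop :=
  (∀ g ∈ kZ k0, ∃ x, ε1 x = g ∧ ε2 x = g) ∧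
  ∃ k1 k2 : Subfield ℂ, Clo k1 ∧ Clo k2 ∧ k0 ≤ k1 ∧ k0 ≤ k2 ∧ Dft s k0 k1 ∧ Dft s k0 k2 ∧
    (∀ g, g ∈ fld k1 f ↔ ∃ x, ε1 x = g) ∧ (∀ g, g ∈ fld k2 f ↔ ∃ x, ε2 x = g) ∧
    ∀ x, (∃ c ∈ k1, ε1 x = cst c) ↔ ∃ c ∈ k2, ε2 x = cst c

end

end EVS
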