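import Pool.Agent.EVS.Api

/-!
# Squad EVS, module EXP: extension of pairs of embeddings
-/

set_option autoImplicit false

namespace EVS

open Polynomial EVR

noncomputable section

namespace EXP_

/-- generation of the abstract field -/
theorem gen {k1 : Subfield ℂ} {f : ℂ[X]} {X₀ : Type} [Field X₀] {ε1 : X₀ →+* K}
    (hr : ∀ g, g ∈ fld k1 f ↔ ∃ x, ε1 x = g) (S : Subfield X₀)
    (h1 : ∀ a ∈ k1, ∀ x, ε1 x = cst a → x ∈ S) (h2 : ∀ x, ε1 x = (RatFunc.X : K) → x ∈ S)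
    (h3 : ∀ x, ε1 x = pz f → x ∈ S) : ∀ x, x ∈ S := by
  have hle : fld k1 f ≤ S.map ε1 := by
    refine Subfield.closure_le.2 (Set.union_subset ?_ ?_)
    · have hk : kZ k1 ≤ S.map ε1 := by
        refine Subfield.closure_le.2 (Set.union_subset ?_ ?_)
        · rintro _ ⟨a, ha, rfl⟩
          obtain ⟨x, hx⟩ := (hr (cst a)).1 (kZ_le_fld k1 f (cst_mem_kZ ha))
          exact ⟨x, h1 a ha x hx, hx⟩
        · rintro y hy
          rw [Set.mem_singleton_iff] at hy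
          rw [hy]
          obtain ⟨x, hx⟩ := (hr (RatFunc.X : K)).1 (kZ_le_fld k1 f (X_mem_kZ k1))
          exact ⟨x, h2 x hx, hx⟩
      exact hk
    · rintro y hy
      rw [Set.mem_singleton_iff] at hy
      rw [hy]
      obtain ⟨x, hx⟩ := (hr (pz f)).1 (pz_mem_fld k1 f)
      exact ⟨x, h3 x hx, hx⟩
  intro x
  obtain ⟨y, hy, hxy⟩ := hle ((hr (ε1 x)).2 ⟨x, rfl⟩)
  rw [← ε1.injective hxy]
  exact hy

/-- lifting a ring homomorphism through an injective one -/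
theorem lift_hom {A B C₀ : Type} [Ring A] [Ring B] [Ring C₀] (u : A →+* C₀) (v : B →+* C₀)
    (hv : Function.Injective v) (h : ∀ a, ∃ b, v b = u a) : ∃ w : A →+* B, ∀ a, v (w a) = u a := by
  choose w hw using h
  exact ⟨{ toFun := w
           map_one' := hv (by rw [hw, map_one, map_one])
           map_mul' := fun x y => hv (by rw [hw, map_mul, map_mul, hw, hw])
           map_zero' := hv (by rw [hw, map_zero, map_zero])
           map_add' := fun x y => hv (by rw [hw, map_add, map_add, hw, hw]) }, hw⟩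

theorem eval_hom {k : Subfield ℂ} (σ : k →+* ℂ) (p : Polynomial k) :
    (Polynomial.eval₂RingHom (cst.comp σ) (RatFunc.X : K)) p = pz (p.map σ) := by
  have h : (Polynomial.eval₂RingHom (cst.comp σ) (RatFunc.X : K)) =
      pz.comp (Polynomial.mapRingHom σ) := by
    refine Polynomial.ringHom_ext' ?_ ?_
    · ext a
      show Polynomial.eval₂ (cst.comp σ) (RatFunc.X : K) (C a) = pz ((C a).map σ)
      rw [eval₂_C, Polynomial.map_C, pz_C]
      rfl
    · show Polynomial.eval₂ (cst.comp σ) (RatFunc.X : K) X = pz ((X : Polynomial k).map σ)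
      rw [eval₂_X, Polynomial.map_X, pz_X]
  rw [h]
  rfl

/-- test polynomials are transcendental -/
theorem tst_tr (hTR2 : Stmt_TR2) {s : ℕ} {k0 : Subfield ℂ} {f : ℂ[X]} (hT : Tst s k0 f)
    {k : Subfield ℂ} (hk : Dft s k0 k) : Tr (kZ k) (pz f) ∧ ∃ ζ : ℂ, ζ ∉ k := by
  obtain ⟨k', γ, d, e, e', hkk', ⟨ζ, hζ⟩, hG, -⟩ := hT k hk
  refine ⟨hTR2 k f ?_, ζ, fun h => hζ (hkk' h)⟩
  obtain ⟨D, hD, hDe⟩ := hG.big
  refine ⟨D, hD, ?_⟩
  intro h0
  rw [h0, natDegree_zero] at hDe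
  have := hG.lt
  omega

end EXP_

open EXP_ in
theorem exp_proof (hUNV : Stmt_UNV) (hEXS : Stmt_EXS) (hDFT : Stmt_DFT) (hTR2 : Stmt_TR2) :
    Stmt_EXP := by
  intro s s' k0 f hT hs X₀ _ ε1 ε2 hP c
  obtain ⟨hD1, hD2, hD3, hD4⟩ := hDFT
  obtain ⟨hP0, k1, k2, c1, c2, l1, l2, d1, d2, r1, r2, hcl⟩ := hP
  by_cases hc : c ∈ k1
  · refine ⟨X₀, inferInstance, RingHom.id X₀, ε1, ε2, ⟨hP0, k1, k2, c1, c2, l1, l2,
      hD1 _ _ _ _ (Nat.le_succ s') d1, hD1 _ _ _ _ (Nat.le_succ s') d2, r1, r2, hcl⟩,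
      fun _ => rfl, fun _ => rfl, ?_⟩
    exact (r1 (cst c)).1 (kZ_le_fld k1 f (cst_mem_kZ hc))
  -- the new fields
  obtain ⟨-, c', hc'⟩ := tst_tr hTR2 hT (hD1 _ _ _ _ hs.le d2)
  obtain ⟨k1', -, e1, f1⟩ := exists_acl (ad k1 {c})
  obtain ⟨k2', -, e2, f2⟩ := exists_acl (ad k2 {c'})
  obtain ⟨g1, m1, n1⟩ := hD3 s' k0 k1 k1' c d1 f1
  obtain ⟨g2, m2, n2⟩ := hD3 s' k0 k2 k2' c' d2 f2
  have t1 := (tst_tr hTR2 hT (hD1 _ _ _ _ (Nat.succ_le_of_lt hs) g1)).1
  have t2 := (tst_tr hTR2 hT (hD1 _ _ _ _ (Nat.succ_le_of_lt hs) g2)).1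
  -- the embedding of k1
  have hcst : Function.Injective (cst : ℂ →+* K) := RingHom.injective _
  obtain ⟨φ, hφ⟩ := lift_hom (cst.comp k1.subtype) ε1 ε1.injective (by
    intro a
    exact (r1 (cst (a : ℂ))).1 (kZ_le_fld k1 f (cst_mem_kZ a.2)))
  obtain ⟨σ, hσ⟩ := lift_hom (ε2.comp φ) (cst : ℂ →+* K) hcst (by
    intro a
    obtain ⟨b, -, hb⟩ := (hcl (φ a)).1 ⟨a, a.2, hφ a⟩
    exact ⟨b, hb.symm⟩)
  have hσr : ∀ z, z ∈ k2 ↔ ∃ x, σ x = z := by
    intro z
    constructor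
    · intro hz
      obtain ⟨x, hx⟩ := (r2 (cst z)).1 (kZ_le_fld k2 f (cst_mem_kZ hz))
      obtain ⟨a, ha, hxa⟩ := (hcl x).2 ⟨z, hz, hx⟩
      refine ⟨⟨a, ha⟩, hcst ?_⟩
      have h1 : φ ⟨a, ha⟩ = x := ε1.injective (by rw [hφ, hxa]; rfl)
      rw [hσ]
      show ε2 (φ ⟨a, ha⟩) = cst z
      rw [h1, hx]
    · rintro ⟨x, rfl⟩
      obtain ⟨b, hb, hb'⟩ := (hcl (φ x)).1 ⟨x, x.2, hφ x⟩
      have h1 : σ x = b := hcst (by rw [hσ]; exact hb')
      rw [h1]
      exact hb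
  obtain ⟨σ', s1, s2, s3⟩ := hEXS k1 k1' k2 σ c c' c1 hσr hc hc' f1
  have s4 : ∀ z, (∃ x, σ' x = z) ↔ z ∈ k2' := fun z => by rw [s3, f2]
  obtain ⟨xf, hxf⟩ := (r1 (pz f)).1 (pz_mem_fld k1 f)
  obtain ⟨xZ, hxZ, hxZ'⟩ := hP0 _ (X_mem_kZ k0)
  obtain ⟨g, hg⟩ : ∃ g, g = ε2 xf := ⟨_, rfl⟩
  -- g is transcendental
  have hcond : ∀ G : Polynomial (Polynomial k1'), G ≠ 0 →
      G.eval₂ (Polynomial.eval₂RingHom (cst.comp σ') (RatFunc.X : K)) g ≠ 0 := by
    intro G hG h0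
    have halg : IsAlgebraic (kZ k2') g := by
      rw [isAlgebraic_iff']
      refine ⟨G.map (Polynomial.eval₂RingHom (cst.comp σ') (RatFunc.X : K)), ?_, ?_, ?_⟩
      · intro n
        rw [coeff_map, eval_hom]
        refine pz_mem_kZ fun m => ?_
        rw [coeff_map]
        exact (s4 _).1 ⟨_, rfl⟩
      · have hinj : Function.Injective
            (Polynomial.eval₂RingHom (cst.comp σ') (RatFunc.X : K)) := by
          rw [injective_iff_map_eq_zero]
          intro p hp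
          rw [eval_hom] at hp
          have h1 : p.map σ' = 0 := by
            rw [← pz_inj, hp, map_zero]
          exact (Polynomial.map_eq_zero _).1 h1
        rw [Ne, Polynomial.map_eq_zero_iff hinj]
        exact hG
      · rw [eval_map]
        exact h0
    have hall : ∀ x : X₀, x ∈ ((algebraicClosure (kZ k2') K).toSubfield.comap ε2) := by
      refine gen r1 _ ?_ ?_ ?_
      · intro a ha x hx
        obtain ⟨b, hb, hb'⟩ := (hcl x).1 ⟨a, ha, hx⟩
        show ε2 x ∈ algebraicClosure (kZ k2') K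
        rw [mem_algebraicClosure_iff, hb']
        exact isAlgebraic_of_mem' (cst_mem_kZ (m2 hb))
      · intro x hx
        have h1 : x = xZ := ε1.injective (by rw [hx, hxZ])
        show ε2 x ∈ algebraicClosure (kZ k2') K
        rw [mem_algebraicClosure_iff, h1, hxZ']
        exact isAlgebraic_of_mem' (X_mem_kZ k2')
      · intro x hx
        have h1 : x = xf := ε1.injective (by rw [hx, hxf])
        show ε2 x ∈ algebraicClosure (kZ k2') K
        rw [mem_algebraicClosure_iff, h1, ← hg]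
        exact halg
    obtain ⟨x, hx⟩ := (r2 (pz f)).1 (pz_mem_fld k2 f)
    have h1 : ε2 x ∈ algebraicClosure (kZ k2') K := hall x
    rw [mem_algebraicClosure_iff, hx] at h1
    exact (tr_iff.1 t2) h1
  obtain ⟨θ, hθ⟩ := hUNV k1' f σ' (RatFunc.X : K) g t1 hcond
  -- values of θ
  have hθC : ∀ (a : ℂ) (ha : a ∈ k1') (h : cst a ∈ fld k1' f), θ ⟨cst a, h⟩ = cst (σ' ⟨a, ha⟩) := by
    intro a ha h
    have e0 : pz (bev k1' f (C (C ⟨a, ha⟩))) = cst a := by
      rw [bev_C, Polynomial.map_C, pz_C]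
      rfl
    have e3 := hθ (C (C ⟨a, ha⟩)) (by rw [e0]; exact h)
    have e4 : (⟨pz (bev k1' f (C (C ⟨a, ha⟩))), by rw [e0]; exact h⟩ : fld k1' f) =
        ⟨cst a, h⟩ := Subtype.ext e0
    rw [e4, eval₂_C, eval_hom, Polynomial.map_C, pz_C] at e3
    exact e3
  have hθX : ∀ h : (RatFunc.X : K) ∈ fld k1' f, θ ⟨(RatFunc.X : K), h⟩ = (RatFunc.X : K) := by
    intro h
    have e0 : pz (bev k1' f (C X)) = (RatFunc.X : K) := by
      rw [bev_C, Polynomial.map_X, pz_X]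
    have e3 := hθ (C X) (by rw [e0]; exact h)
    have e4 : (⟨pz (bev k1' f (C X)), by rw [e0]; exact h⟩ : fld k1' f) =
        ⟨(RatFunc.X : K), h⟩ := Subtype.ext e0
    rw [e4, eval₂_C, eval_hom, Polynomial.map_X, pz_X] at e3
    exact e3
  have hθf : ∀ h : pz f ∈ fld k1' f, θ ⟨pz f, h⟩ = g := by
    intro h
    have e0 : pz (bev k1' f X) = pz f := by
      rw [bev_X]
    have e3 := hθ X (by rw [e0]; exact h)
    have e4 : (⟨pz (bev k1' f X), by rw [e0]; exact h⟩ : fld k1' f) =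
        ⟨pz f, h⟩ := Subtype.ext e0
    rw [e4, eval₂_X] at e3
    exact e3
  -- the inclusion
  obtain ⟨j, hj⟩ := lift_hom ε1 (fld k1' f).subtype Subtype.val_injective (by
    intro x
    exact ⟨⟨ε1 x, fld_mono m1 f ((r1 _).2 ⟨x, rfl⟩)⟩, rfl⟩)
  have hj' : ∀ x, ((j x : fld k1' f) : K) = ε1 x := hj
  have hjθ : ∀ x, θ (j x) = ε2 x := by
    have h1 := gen r1 ((θ.comp j).eqLocusField ε2) ?_ ?_ ?_
    · exact h1
    · intro a ha x hx
      show θ (j x) = ε2 x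
      have h2 : x = φ ⟨a, ha⟩ := ε1.injective (by rw [hx, hφ]; rfl)
      have h3 : j x = ⟨cst a, kZ_le_fld k1' f (cst_mem_kZ (m1 ha))⟩ :=
        Subtype.ext (by rw [hj', hx])
      rw [h3, hθC a (m1 ha), s1 a ha (m1 ha), hσ, h2]
      rfl
    · intro x hx
      show θ (j x) = ε2 x
      have h2 : x = xZ := ε1.injective (by rw [hx, hxZ])
      have h3 : j x = ⟨(RatFunc.X : K), kZ_le_fld k1' f (X_mem_kZ k1')⟩ :=
        Subtype.ext (by rw [hj', hx])
      rw [h3, hθX, h2, hxZ']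
    · intro x hx
      show θ (j x) = ε2 x
      have h2 : x = xf := ε1.injective (by rw [hx, hxf])
      have h3 : j x = ⟨pz f, pz_mem_fld k1' f⟩ := Subtype.ext (by rw [hj', hx])
      rw [h3, hθf, h2, hg]
  refine ⟨fld k1' f, inferInstance, j, (fld k1' f).subtype, θ, ⟨?_, k1', k2', e1, e2,
    l1.trans m1, l2.trans m2, g1, g2, ?_, ?_, ?_⟩, hj, hjθ, ?_⟩
  · intro g0 hg0
    obtain ⟨x, hx, hx'⟩ := hP0 g0 hg0
    exact ⟨j x, by rw [hj, hx], by rw [hjθ, hx']⟩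
  · intro g0
    exact ⟨fun h => ⟨⟨g0, h⟩, rfl⟩, by rintro ⟨x, rfl⟩; exact x.2⟩
  · intro g0
    constructor
    · intro h
      have hle : fld k2' f ≤ θ.fieldRange := by
        refine Subfield.closure_le.2 (Set.union_subset ?_ ?_)
        · have hk : kZ k2' ≤ θ.fieldRange := by
            refine Subfield.closure_le.2 (Set.union_subset ?_ ?_)
            · rintro _ ⟨b, hb, rfl⟩
              obtain ⟨a, ha⟩ := (s4 b).2 hb
              refine ⟨⟨cst (a : ℂ), kZ_le_fld k1' f (cst_mem_kZ a.2)⟩, ?_⟩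
              rw [hθC a a.2, ← ha]
            · rintro y hy
              rw [Set.mem_singleton_iff] at hy
              rw [hy]
              exact ⟨⟨(RatFunc.X : K), kZ_le_fld k1' f (X_mem_kZ k1')⟩, hθX _⟩
          exact hk
        · rintro y hy
          rw [Set.mem_singleton_iff] at hy
          rw [hy]
          obtain ⟨x, hx⟩ := (r2 (pz f)).1 (pz_mem_fld k2 f)
          exact ⟨j x, by rw [hjθ, hx]⟩
      exact hle h
    · rintro ⟨x, rfl⟩
      have hall : ∀ x : fld k1' f, x ∈ (fld k2' f).comap θ := by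
        refine gen (ε1 := (fld k1' f).subtype) (f := f) (k1 := k1') ?_ _ ?_ ?_ ?_
        · intro g0
          exact ⟨fun h => ⟨⟨g0, h⟩, rfl⟩, by rintro ⟨x, rfl⟩; exact x.2⟩
        · intro a ha x hx
          show θ x ∈ fld k2' f
          have h3 : x = ⟨cst a, kZ_le_fld k1' f (cst_mem_kZ ha)⟩ := Subtype.ext hx
          rw [h3, hθC a ha]
          exact kZ_le_fld k2' f (cst_mem_kZ ((s4 _).1 ⟨_, rfl⟩))
        · intro x hx
          show θ x ∈ fld k2' f
          have h3 : x = ⟨(RatFunc.X : K), kZ_le_fld k1' f (X_mem_kZ k1')⟩ := Subtype.ext hx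
          rw [h3, hθX]
          exact kZ_le_fld k2' f (X_mem_kZ k2')
        · intro x hx
          show θ x ∈ fld k2' f
          have h3 : x = ⟨pz f, pz_mem_fld k1' f⟩ := Subtype.ext hx
          rw [h3, hθf, hg]
          exact fld_mono m2 f ((r2 _).2 ⟨xf, rfl⟩)
      exact hall x
  · intro x
    constructor
    · rintro ⟨a, ha, hx⟩
      have h3 : x = ⟨cst a, kZ_le_fld k1' f (cst_mem_kZ ha)⟩ := Subtype.ext hx
      exact ⟨σ' ⟨a, ha⟩, (s4 _).1 ⟨_, rfl⟩, by rw [h3, hθC a ha]⟩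
    · rintro ⟨b, hb, hx⟩
      obtain ⟨a, ha⟩ := (s4 b).2 hb
      refine ⟨a, a.2, ?_⟩
      have h3 : x = ⟨cst (a : ℂ), kZ_le_fld k1' f (cst_mem_kZ a.2)⟩ := by
        refine θ.injective ?_
        rw [hx, hθC a a.2, ← ha]
      rw [h3]
      rfl
  · exact ⟨⟨cst c, kZ_le_fld k1' f (cst_mem_kZ n1)⟩, rfl⟩

end

end EVS
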