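import Pool.Agent.EVS.Api

/-!
# Squad EVS (MP_3e5173_lc), module EXS: extension of embeddings of `k` (helper49)
-/

set_option autoImplicit false
set_option linter.style.haveILetI false

namespace EVS

open Polynomial EVR

noncomputable section

namespace EXS_

theorem isAlgClosed {k : Subfield ℂ} (hk : Clo k) : IsAlgClosed k := by
  refine IsAlgClosed.of_exists_root k fun p _ hp => ?_
  obtain ⟨z, hz⟩ := IsAlgClosed.exists_root (p.map k.subtype) (by
    rw [degree_map]
    exact (degree_pos_of_irreducible hp).ne')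
  have hz' : p.eval₂ k.subtype z = 0 := by
    rwa [IsRoot.def, eval_map] at hz
  have hm : z ∈ k := hk z ⟨p, hp.ne_zero, hz'⟩
  refine ⟨⟨z, hm⟩, ?_⟩
  apply k.subtype.injective
  rw [map_zero, ← hz']
  exact hom_eval₂ p (RingHom.id k) k.subtype ⟨z, hm⟩

/-- roots of polynomials over the image of a closed field -/
theorem root_mem {k : Subfield ℂ} (hk : Clo k) (τ : k →+* ℂ) {P : Polynomial k} (hP : P ≠ 0)
    {w : ℂ} (h : P.eval₂ τ w = 0) : ∃ x, τ x = w := by
  haveI := isAlgClosed hk
  letI : Algebra k ℂ := τ.toAlgebra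
  have hw : IsIntegral k w := IsAlgebraic.isIntegral ⟨P, hP, h⟩
  have h1 := IsAlgClosed.degree_eq_one_of_irreducible k (minpoly.irreducible hw)
  exact minpoly.mem_range_of_degree_eq_one k w h1

/-- evaluation at `c`, in a field containing `k` and `c` -/
def ph {k L : Subfield ℂ} (h : k ≤ L) (c : L) : Polynomial k →+* L :=
  eval₂RingHom (Subfield.inclusion h) c

theorem ph_val {k L : Subfield ℂ} (h : k ≤ L) (c : L) (p : Polynomial k) :
    ((ph h c p : L) : ℂ) = p.eval₂ k.subtype c := by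
  show L.subtype (p.eval₂ (Subfield.inclusion h) c) = _
  rw [hom_eval₂]
  rfl

theorem ph_inj {k L : Subfield ℂ} (hk : Clo k) (h : k ≤ L) (c : L) (hc : (c : ℂ) ∉ k) :
    Function.Injective (ph h c) := by
  rw [injective_iff_map_eq_zero]
  intro P hP
  by_contra h0
  refine eval₂_ne_zero hk hc h0 ?_
  rw [← ph_val h c P, hP]
  rfl

/-- elements algebraic over `k(c)` are algebraic over `k[c]` -/
theorem alg_lem {k k' : Subfield ℂ} {c : ℂ} (hk : Clo k)
    (hk' : ∀ z, z ∈ k' ↔ IsAlgebraic (ad k {c}) z) (h : k ≤ k') (hc : c ∈ k') (hck : c ∉ k)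
    (x : k') : ∃ p : Polynomial (Polynomial k), p ≠ 0 ∧ p.eval₂ (ph h ⟨c, hc⟩) x = 0 := by
  set F := ad k {c} with hF
  have hkF : k ≤ F := le_ad k {c}
  have hcF : c ∈ F := mem_ad k (Set.mem_singleton c)
  have hFk : F ≤ k' := ad_le h (by simpa using hc)
  letI a1 : Algebra (Polynomial k) F := (ph hkF ⟨c, hcF⟩).toAlgebra
  letI a2 : Algebra (Polynomial k) k' := (ph h ⟨c, hc⟩).toAlgebra
  letI a3 : Algebra F k' := (Subfield.inclusion hFk).toAlgebra
  haveI t1 : IsScalarTower (Polynomial k) F k' := IsScalarTower.of_algebraMap_eq' (by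
    apply RingHom.ext
    intro p
    apply Subtype.ext
    show ((ph h ⟨c, hc⟩ p : k') : ℂ) = ((ph hkF ⟨c, hcF⟩ p : F) : ℂ)
    rw [ph_val, ph_val])
  have hinj : Function.Injective (algebraMap (Polynomial k) F) := ph_inj hk hkF ⟨c, hcF⟩ hck
  haveI : Algebra.IsAlgebraic (Polynomial k) F := by
    refine ⟨fun y => ?_⟩
    obtain ⟨y, hy⟩ := y
    have key : ∀ z (hz : z ∈ Subfield.closure ((k : Set ℂ) ∪ {c})),
        IsAlgebraic (Polynomial k) (⟨z, hz⟩ : F) := by
      intro z hz
      induction hz using Subfield.closure_induction with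
      | mem z hz =>
        rcases hz with hz | hz
        · have e : (⟨z, Subfield.subset_closure (Or.inl hz)⟩ : F) =
              algebraMap (Polynomial k) F (C ⟨z, hz⟩) := by
            apply Subtype.ext
            show z = ((ph hkF ⟨c, hcF⟩ (C ⟨z, hz⟩) : F) : ℂ)
            rw [ph_val, eval₂_C]
            rfl
          rw [e]
          exact isAlgebraic_algebraMap _
        · have e : (⟨z, Subfield.subset_closure (Or.inr hz)⟩ : F) =
              algebraMap (Polynomial k) F X := by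
            apply Subtype.ext
            show z = ((ph hkF ⟨c, hcF⟩ X : F) : ℂ)
            rw [ph_val, eval₂_X]
            exact hz
          rw [e]
          exact isAlgebraic_algebraMap _
      | one => exact isAlgebraic_one
      | add x y hx hy ihx ihy => exact ihx.add ihy
      | neg x hx ihx => exact ihx.neg
      | inv x hx ihx => exact ihx.inv
      | mul x y hx hy ihx ihy => exact ihx.mul ihy
    exact key y hy
  have hx : IsAlgebraic F x := by
    obtain ⟨p, hp, h0⟩ := (hk' (x : ℂ)).1 x.2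
    refine ⟨p, hp, ?_⟩
    apply Subtype.ext
    show k'.subtype (p.eval₂ (Subfield.inclusion hFk) x) = 0
    rw [hom_eval₂]
    exact h0
  obtain ⟨p, hp, h0⟩ := hx.restrictScalars (Polynomial k)
  exact ⟨p, hp, h0⟩

end EXS_

open EXS_ in
theorem exs_proof : Stmt_EXS := by
  intro k k' k2 σ c c' hk hk2 hck hck2 hk'
  have hcF : c ∈ ad k {c} := mem_ad k (Set.mem_singleton c)
  have hkk : k ≤ k' := fun z hz => (hk' z).2 (isAlgebraic_of_mem (le_ad k {c} hz))
  have hc : c ∈ k' := (hk' c).2 (isAlgebraic_of_mem hcF)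
  have hclo : Clo k' := by
    obtain ⟨L, _, hL, hL'⟩ := exists_acl (ad k {c})
    have e : k' = L := by
      ext z
      rw [hk', hL']
    rw [e]
    exact hL
  have halg := alg_lem hk hk' hkk hc hck
  set ps : Polynomial k →+* ℂ := eval₂RingHom σ c' with hps
  have hpinj : Function.Injective ps := by
    rw [injective_iff_map_eq_zero]
    intro P hP
    by_contra h0
    obtain ⟨x, hx⟩ := root_mem hk σ h0 (w := c') hP
    exact hck2 ((hk2 c').2 ⟨x, hx⟩)
  obtain ⟨σ', hσ'⟩ : ∃ σ' : k' →+* ℂ, σ'.comp (ph hkk ⟨c, hc⟩) = ps := by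
    letI a2 : Algebra (Polynomial k) k' := (ph hkk ⟨c, hc⟩).toAlgebra
    letI a3 : Algebra (Polynomial k) ℂ := ps.toAlgebra
    haveI : FaithfulSMul (Polynomial k) k' :=
      (faithfulSMul_iff_algebraMap_injective _ _).2 (ph_inj hk hkk ⟨c, hc⟩ hck)
    haveI : FaithfulSMul (Polynomial k) ℂ :=
      (faithfulSMul_iff_algebraMap_injective _ _).2 hpinj
    haveI : Algebra.IsAlgebraic (Polynomial k) k' := ⟨fun x => halg x⟩
    let f : k' →ₐ[Polynomial k] ℂ := IsAlgClosed.lift
    exact ⟨f.toRingHom, f.comp_algebraMap⟩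
  have hσk : ∀ (z : ℂ) (h : z ∈ k) (h' : z ∈ k'), σ' ⟨z, h'⟩ = σ ⟨z, h⟩ := by
    intro z h h'
    have e := RingHom.congr_fun hσ' (C ⟨z, h⟩)
    have e1 : ph hkk ⟨c, hc⟩ (C ⟨z, h⟩) = ⟨z, h'⟩ := by
      apply Subtype.ext
      rw [ph_val, eval₂_C]
      rfl
    rw [RingHom.comp_apply, e1] at e
    rw [e, hps]
    show eval₂ σ c' (C _) = _
    rw [eval₂_C]
  have hσc : σ' ⟨c, hc⟩ = c' := by
    have e := RingHom.congr_fun hσ' X
    have e1 : ph hkk ⟨c, hc⟩ X = ⟨c, hc⟩ := by
      apply Subtype.ext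
      rw [ph_val, eval₂_X]
    rw [RingHom.comp_apply, e1] at e
    rw [e, hps]
    show eval₂ σ c' X = _
    rw [eval₂_X]
  refine ⟨σ', hσk, fun h => hσc, fun z => ⟨?_, ?_⟩⟩
  · rintro ⟨x, rfl⟩
    obtain ⟨p, hp, h0⟩ := halg x
    have h1 : p.eval₂ ps (σ' x) = 0 := by
      have := congrArg σ' h0
      rw [hom_eval₂, hσ', map_zero] at this
      exact this
    have hmem : ∀ q, ps q ∈ ad k2 {c'} := by
      intro q
      show q.eval₂ σ c' ∈ _
      rw [eval₂_eq_sum_range]
      refine Subfield.sum_mem _ fun i _ => mul_mem ?_ (pow_mem ?_ i)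
      · exact le_ad k2 {c'} ((hk2 _).2 ⟨_, rfl⟩)
      · exact mem_ad k2 (Set.mem_singleton c')
    let ps2 : Polynomial k →+* ad k2 {c'} := ps.codRestrict _ hmem
    have hps2 : (ad k2 {c'}).subtype.comp ps2 = ps := rfl
    refine ⟨p.map ps2, ?_, ?_⟩
    · rw [Polynomial.map_ne_zero_iff]
      · exact hp
      · intro a b hab
        exact hpinj (congrArg Subtype.val hab)
    · show (p.map ps2).eval₂ (ad k2 {c'}).subtype (σ' x) = 0
      rw [eval₂_map, hps2]
      exact h1
  · rintro ⟨p, hp, h0⟩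
    have hle : ad k2 {c'} ≤ σ'.fieldRange := by
      refine ad_le ?_ ?_
      · intro w hw
        obtain ⟨x, hx⟩ := (hk2 w).1 hw
        exact ⟨⟨x, hkk x.2⟩, by rw [hσk x x.2, ← hx]⟩
      · rintro w hw
        rw [Set.mem_singleton_iff] at hw
        exact ⟨⟨c, hc⟩, by rw [hσc, hw]⟩
    have hl : p.map (ad k2 {c'}).subtype ∈ Polynomial.lifts σ' := by
      rw [Polynomial.lifts_iff_coeff_lifts]
      intro n
      rw [coeff_map]
      obtain ⟨y, hy⟩ := hle (p.coeff n).2
      exact ⟨y, hy⟩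
    obtain ⟨q, hq⟩ := (Polynomial.mem_lifts _).1 hl
    refine root_mem hclo σ' (P := q) ?_ ?_
    · rintro rfl
      rw [Polynomial.map_zero] at hq
      have := (Polynomial.map_ne_zero_iff (ad k2 {c'}).subtype.injective).2 hp
      exact this hq.symm
    · rw [← eval_map, hq, eval_map]
      exact h0

end

end EVS
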