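import Pool.Agent.EVS.Api

/-!
# Squad EVS (MP_3e5173_lc), module FI1: the first theorem
-/

set_option autoImplicit false

namespace EVS

open Polynomial EVR

theorem fi1_proof (hCOL : Stmt_COL) (hFLD : Stmt_FLD) (hCO2 : Stmt_CO2) (hTST : Stmt_TST)
    (hDFT : Stmt_DFT) (hSPD : Stmt_SPD) : Stmt_FI1 := by
  intro Φ hΦ hall
  obtain ⟨S, N, hS⟩ := hCO2.1 Unit Φ hΦ
  obtain ⟨S', hS'⟩ := hCOL.2 S
  obtain ⟨k0, hclo, -, hk0, hind⟩ := hFLD S'
  have hB : BPO (kZ k0) N Unit Φ := hS (kZ k0) (hS' k0 hk0)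
  obtain ⟨f, -, hf⟩ := hTST k0 hclo hind N
  have hD : Dft 0 k0 k0 := hDFT.2.2.2 k0 hclo
  obtain ⟨T, hT, hT'⟩ := hSPD N k0 f hclo hf N Unit Φ hB inferInstance 0 k0 (by omega) hD
    (fun _ => X) (fun _ => 1) (by
      intro i
      refine ⟨fun n => ?_, fun n => ?_, ?_⟩
      · rw [coeff_X]
        split_ifs
        · exact one_mem _
        · exact zero_mem _
      · rw [coeff_one]
        split_ifs
        · exact one_mem _
        · exact zero_mem _
      · rw [eval_one]
        exact one_ne_zero) (by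
      have h := hall f
      simpa using h)
  refine hT.subset ?_
  intro x hx
  by_contra hxT
  have h := (hT' x hxT).2
  apply hx
  simpa using h

end EVS
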