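import Pool.Agent.EVS.Api

/-!
# Squad EVS, module GEN
-/

set_option autoImplicit false

namespace EVS

open Polynomial EVR

noncomputable section

theorem gen_proof (hGNP : Stmt_GNP) (hGNI : Stmt_GNI) (hTR2 : Stmt_TR2) : Stmt_GEN := by
  intro k f γ e y l hg hy
  obtain ⟨G, p, hG, hp⟩ := hGNP k f y l hg.clo hy
  have hTr : Tr (kZ k) (pz f) := by
    refine hTR2 k f ?_
    obtain ⟨D, hD, hle⟩ := hg.big
    refine ⟨D, hD, fun h0 => ?_⟩
    have h1 := hg.lt
    rw [h0, natDegree_zero] at hle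
    omega
  have hb : bev k f G ≠ 0 := bev_ne_zero hTr hG
  have hb' : pz (bev k f G) ≠ 0 := pz_ne_zero.2 hb
  have h2 : DP k f (pz p) (l * pz (bev k f G) + y * pz (bev k f (derivative G))) := by
    rw [← hp]
    exact hy.mul (DP.bev k f G)
  have h3 : pz p ∈ fld k f := hGNI k f γ p e _ hg h2
  have h4 : y = pz p / pz (bev k f G) := by
    rw [eq_div_iff hb', hp]
  rw [h4]
  exact div_mem h3 (pz_bev_mem k f G)

end

end EVS
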