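import Pool.Agent.EVS.Api

/-!
# Squad EVS, module GNI: polynomials with a derivative with respect to `f`
-/

set_option autoImplicit false

namespace EVS

open Polynomial EVR

noncomputable section

namespace GNI_

theorem DP_pow (k : Subfield ℂ) (f : ℂ[X]) (n : ℕ) :
    DP k f (pz f ^ n) ((n : K) * pz f ^ (n - 1)) := by
  intro D E hE hD
  rw [Derivation.leibniz_pow, smul_eq_mul, nsmul_eq_mul, mul_assoc]

/-- `Q(f)` has the derivative `Q'(f)` -/
theorem DP_eval {k : Subfield ℂ} (f : ℂ[X]) {Q : K[X]} (hQ : ∀ n, Q.coeff n ∈ kZ k) :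
    DP k f (Q.eval (pz f)) ((derivative Q).eval (pz f)) := by
  intro D E hE hD
  rw [derivative_eval, Polynomial.eval_eq_sum, Polynomial.sum_def, Polynomial.sum_def, map_sum,
    Finset.sum_mul]
  refine Finset.sum_congr rfl fun n _ => ?_
  have h := (DP.of_kZ (f := f) (hQ n)).mul (DP_pow k f n) D E hE hD
  rw [h]
  ring

/-- the antiderivative -/
theorem exists_anti {F : Subfield K} {P : K[X]} (hP : ∀ n, P.coeff n ∈ F) :
    ∃ Q : K[X], (∀ n, Q.coeff n ∈ F) ∧ derivative Q = P := by
  refine ⟨∑ i ∈ Finset.range (P.natDegree + 1), C (P.coeff i / ((i : K) + 1)) * X ^ (i + 1),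
    ?_, ?_⟩
  · intro n
    rw [finsetSum_coeff]
    refine Subfield.sum_mem _ fun i _ => ?_
    rw [coeff_C_mul, coeff_X_pow]
    refine mul_mem (div_mem (hP i) (add_mem (natCast_mem F i) (one_mem F))) ?_
    split_ifs
    · exact one_mem F
    · exact zero_mem F
  · rw [derivative_sum]
    conv_rhs => rw [P.as_sum_range_C_mul_X_pow]
    refine Finset.sum_congr rfl fun i _ => ?_
    rw [derivative_C_mul_X_pow]
    have h1 : (((i + 1 : ℕ)) : K) ≠ 0 := Nat.cast_ne_zero.2 (Nat.succ_ne_zero i)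
    congr 1
    congr 1
    rw [Nat.cast_succ] at h1 ⊢
    rw [div_mul_cancel₀ _ h1]

/-- the degree after multiplication -/
theorem deg_mul_pow {y : K} (hy : y ≠ 0) {g : ℂ[X]} (hg : g ≠ 0) (m : ℕ) {p : ℂ[X]}
    (h : y * pz (g ^ m) = pz p) :
    (y.intDegree + m * (g.natDegree : ℤ)) = p.natDegree := by
  have hg' : pz (g ^ m) ≠ 0 := pz_ne_zero.2 (pow_ne_zero m hg)
  have h1 := RatFunc.intDegree_mul hy hg'
  rw [h] at h1
  rw [RatFunc.intDegree_polynomial, RatFunc.intDegree_polynomial, natDegree_pow] at h1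
  push_cast at h1
  linarith

theorem claim (hIDR : Stmt_IDR) (hKER : Stmt_KER) (hGNL : Stmt_GNL) {k : Subfield ℂ}
    {f γ : ℂ[X]} {e : ℕ} (hG : Gd k f γ e) (N : ℕ) :
    ∀ (m : ℕ) (y l : K), (∃ p : ℂ[X], y * pz (γ ^ m) = pz p) → DP k f y l →
      (y.intDegree + m * (γ.natDegree : ℤ)).toNat ≤ N →
      ∃ P : K[X], (∀ n, P.coeff n ∈ kZ k) ∧ y = P.eval (pz f) := by
  induction N using Nat.strong_induction_on with
  | _ N ih =>
    intro m y l hp hy hN
    obtain ⟨p, hp⟩ := hp
    have hconst : ∀ c : K, c ∈ kZ k → ∀ n, (C c : K[X]).coeff n ∈ kZ k := by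
      intro c hc n
      rw [coeff_C]
      split_ifs
      · exact hc
      · exact zero_mem _
    by_cases hl : l = 0
    · -- the constant case
      subst hl
      have h1 : y ∈ kZ k := by
        refine hKER k y hG.clo fun D E hE hD => ?_
        rw [hy D E hE hD, zero_mul]
      exact ⟨C y, hconst y h1, by rw [eval_C]⟩
    · obtain ⟨D0, hD0, hbig⟩ := hG.big
      have hlt := hG.lt
      have hcd0 : cd D0 f ≠ 0 := by
        intro h0
        rw [h0, natDegree_zero] at hbig
        omega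
      obtain ⟨E0, hE0⟩ := exists_ext D0
      have hy0 : y ≠ 0 := by
        rintro rfl
        have h1 := hy D0 E0 hE0 hD0
        rw [map_zero, E_pz hE0] at h1
        rcases mul_eq_zero.1 h1.symm with h2 | h2
        · exact hl h2
        · exact pz_ne_zero.2 hcd0 h2
      have hγ := hG.ne
      -- `l g^(m+1) D f` is a polynomial
      have h1 : ∀ D : Derivation ℤ ℂ ℂ, Kil k D → ∃ r : ℂ[X],
          l * pz (γ ^ (m + 1)) * pz (cd D f) = pz r := by
        intro D hD
        obtain ⟨E, hE⟩ := exists_ext D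
        have h2 := congrArg E hp
        rw [Derivation.leibniz, smul_eq_mul, smul_eq_mul, E_pz hE, E_pz hE, hy D E hE hD,
          E_pz hE, cd_pow] at h2
        refine ⟨cd D p * γ - (m : ℂ[X]) * p * cd D γ, ?_⟩
        rw [map_sub, map_mul, map_mul, map_mul, ← h2, ← hp]
        rcases m with _ | m
        · simp only [Nat.cast_zero, zero_mul, zero_add, pow_zero, pow_one, map_zero, map_one]
          ring
        · rw [Nat.add_sub_cancel]
          simp only [map_mul, map_pow, map_natCast]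
          ring
      obtain ⟨w, hw⟩ : ∃ w : K, w = l * pz (γ ^ (m + 1)) := ⟨_, rfl⟩
      have h3 : w.denom ∣ γ := by
        refine hG.gc w.denom fun D hD => ?_
        obtain ⟨r, hr⟩ := h1 D hD
        rw [← hw] at hr
        have h4 : w.num * cd D f = r * w.denom := by
          rw [← pz_inj, map_mul, map_mul, ← mul_denom w, ← hr]
          ring
        have h5 : w.denom ∣ w.num * cd D f := ⟨r, by rw [h4]; ring⟩
        exact (RatFunc.isCoprime_num_denom w).symm.dvd_of_dvd_mul_left h5
      obtain ⟨s, hs⟩ := h3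
      have h6 : l * pz (γ ^ (m + 2)) = pz (w.num * s) := by
        have h7 : l * pz (γ ^ (m + 2)) = w * pz γ := by
          rw [hw, pow_succ γ (m + 1), map_mul]
          ring
        rw [h7, map_mul]
        conv_lhs => rw [hs, map_mul, ← mul_assoc, mul_denom w]
      -- degrees
      have hEy : E0 y = l * pz (cd D0 f) := by rw [hy D0 E0 hE0 hD0, E_pz hE0]
      have hEy0 : E0 y ≠ 0 := by
        rw [hEy]
        exact mul_ne_zero hl (pz_ne_zero.2 hcd0)
      have h8 := hIDR E0 0 (fun q => ⟨cd D0 q, E_pz hE0 q, by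
        rw [add_zero]; exact natDegree_cd_le D0 q⟩) y hEy0
      rw [hEy, RatFunc.intDegree_mul hl (pz_ne_zero.2 hcd0), RatFunc.intDegree_polynomial] at h8
      have h9 := deg_mul_pow hl hγ (m + 2) h6
      have h10 := deg_mul_pow hy0 hγ m hp
      obtain ⟨l', hl'⟩ := hGNL k f y l ⟨D0, hD0, hcd0⟩ hy
      have h11 : (l.intDegree + ((m + 2 : ℕ) : ℤ) * (γ.natDegree : ℤ)).toNat <
          (y.intDegree + m * (γ.natDegree : ℤ)).toNat := by
        have h12 : (e : ℤ) ≤ ((cd D0 f).natDegree : ℤ) := by exact_mod_cast hbig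
        have h13 : (2 * (γ.natDegree : ℤ)) < e := by exact_mod_cast hlt
        have h14 : l.intDegree + ((m + 2 : ℕ) : ℤ) * (γ.natDegree : ℤ) <
            y.intDegree + m * (γ.natDegree : ℤ) := by
          push_cast at h8 ⊢
          have : ((m : ℤ) + 2) * (γ.natDegree : ℤ) = m * (γ.natDegree : ℤ) +
            2 * (γ.natDegree : ℤ) := by ring
          rw [this]
          linarith
        have h15 : 0 ≤ l.intDegree + ((m + 2 : ℕ) : ℤ) * (γ.natDegree : ℤ) := by
          rw [h9]; positivity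
        omega
      obtain ⟨P, hP, hlP⟩ := ih _ (lt_of_lt_of_le h11 hN) (m + 2) l l' ⟨_, h6⟩ hl' le_rfl
      obtain ⟨Q, hQ, hQP⟩ := exists_anti hP
      have h16 : y - Q.eval (pz f) ∈ kZ k := by
        refine hKER k _ hG.clo fun D E hE hD => ?_
        rw [(hy.sub (DP_eval f hQ)) D E hE hD, hQP, ← hlP, sub_self, zero_mul]
      refine ⟨Q + C (y - Q.eval (pz f)), fun n => ?_, ?_⟩
      · rw [coeff_add]
        exact add_mem (hQ n) (hconst _ h16 n)
      · rw [eval_add, eval_C]
        ring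

end GNI_

open GNI_

theorem gni_proof (hIDR : Stmt_IDR) (hKER : Stmt_KER) (hGNL : Stmt_GNL) : Stmt_GNI := by
  intro k f γ p e l hG hp
  obtain ⟨P, hP, h⟩ := claim hIDR hKER hGNL hG _ 0 (pz p) l ⟨p, by simp⟩ hp le_rfl
  rw [h, eval_eq_sum_range]
  refine Subfield.sum_mem _ fun i _ => ?_
  exact mul_mem (kZ_le_fld k f (hP i)) (pow_mem (pz_mem_fld k f) i)

end

end EVS
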