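import Pool.Agent.EVS.Api

/-!
# Squad EVS, module GNL: the derivative with respect to `f` has a derivative
-/

set_option autoImplicit false

namespace EVS

open Polynomial EVR

namespace GNL_

/-- additive maps with the Leibniz rule are derivations -/
noncomputable def mkDer (L : K → K) (hadd : ∀ x y, L (x + y) = L x + L y)
    (hmul : ∀ x y, L (x * y) = x • L y + y • L x) : Derivation ℤ K K := by
  refine Derivation.mk' (@LinearMap.mk ℤ ℤ _ _ (RingHom.id ℤ) K K _ _ Algebra.toModule
    (AddCommGroup.toIntModule K) (@AddHom.mk K K _ _ L hadd) (fun n y => ?_)) ?_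
  · have h := map_zsmul (AddMonoidHom.mk' L hadd) n y
    rw [zsmul_eq_mul, zsmul_eq_mul] at h
    have e : (@HSMul.hSMul ℤ K K (@instHSMul ℤ K Algebra.toSMul) n y : K) = (n : K) * y := by
      rw [Algebra.smul_def]
      simp
    change L (@HSMul.hSMul ℤ K K (@instHSMul ℤ K Algebra.toSMul) n y) = n • L y
    rw [e, zsmul_eq_mul]
    exact h
  · exact fun a b => hmul a b

/-- the commutator -/
theorem exists_comm (E E1 : Derivation ℤ K K) : ∃ E2 : Derivation ℤ K K,
    ∀ y, E2 y = E (E1 y) - E1 (E y) := by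
  refine ⟨mkDer (fun y => E (E1 y) - E1 (E y)) (fun x y => ?_) (fun x y => ?_), fun y => rfl⟩
  · show E (E1 (x + y)) - E1 (E (x + y)) = _
    rw [map_add, map_add, map_add, map_add]
    ring
  · show E (E1 (x * y)) - E1 (E (x * y)) = _
    rw [Derivation.leibniz, Derivation.leibniz, map_add, map_add]
    simp only [smul_eq_mul, Derivation.leibniz]
    ring

end GNL_

theorem gnl_proof : Stmt_GNL := by
  rintro k f y l ⟨D1, hD1, hf⟩ hy
  obtain ⟨E1, hE1⟩ := exists_ext D1
  have hEf : E1 (pz f) ≠ 0 := by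
    rw [E_pz hE1, pz_ne_zero]
    exact hf
  refine ⟨E1 l / E1 (pz f), fun D E hE hD => ?_⟩
  obtain ⟨E2, hE2⟩ := GNL_.exists_comm E E1
  have hbr : IsExt ⁅D, D1⁆ E2 := by
    refine ⟨?_, fun c => ?_⟩
    · rw [hE2, hE1.X, hE.X, map_zero, map_zero, sub_zero]
    · rw [hE2, hE1.C, hE.C, hE.C, hE1.C, Derivation.commutator_apply, map_sub]
  have hk : Kil k ⁅D, D1⁆ := fun z hz => by
    rw [Derivation.commutator_apply, hD z hz, hD1 z hz, map_zero, map_zero, sub_zero]
  have h1 := hy _ _ hbr hk
  rw [hE2, hE2, hy D E hE hD, hy D1 E1 hE1 hD1, Derivation.leibniz, Derivation.leibniz] at h1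
  simp only [smul_eq_mul] at h1
  have h2 : E l * E1 (pz f) = E1 l * E (pz f) := by linear_combination h1
  field_simp
  exact h2

end EVS
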