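import Pool.Agent.EVS.Api

/-!
# Squad EVS (MP_3e5173_lc), module GNP: the poles
-/

set_option autoImplicit false

namespace EVS

open Polynomial EVR

noncomputable section

namespace GNP_

theorem clear (k : Subfield ℂ) (c : ℂ) (a : ℕ → ℂ) (ha : ∀ i, a i ∈ ad k {c}) (s : Finset ℕ) :
    ∃ (d : Polynomial k) (G : Polynomial (Polynomial k)), d.eval₂ k.subtype c ≠ 0 ∧
      ev1 k c G = C (d.eval₂ k.subtype c) * ∑ i ∈ s, C (a i) * X ^ i := by
  classical
  induction s using Finset.induction_on with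
  | empty => exact ⟨1, 0, by simp, by simp⟩
  | insert i s hi ih =>
    obtain ⟨d, G, hd, hG⟩ := ih
    obtain ⟨P, Q, hP, hQ, hQc, hz⟩ := exists_of_mem_ad (ha i)
    obtain ⟨P', hP', -⟩ := exists_lift hP
    obtain ⟨Q', hQ', -⟩ := exists_lift hQ
    have eP : P'.eval₂ k.subtype c = P.eval c := by rw [← hP', eval_map]
    have eQ : Q'.eval₂ k.subtype c = Q.eval c := by rw [← hQ', eval_map]
    refine ⟨d * Q', G * C Q' + C (d * P') * X ^ i, ?_, ?_⟩
    · rw [eval₂_mul, eQ]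
      exact mul_ne_zero hd hQc
    · rw [Finset.sum_insert hi, map_add, map_mul, map_mul, map_pow, ev1_C, ev1_C, ev1_X, hG,
        eval₂_mul, eval₂_mul, eP, eQ, hz]
      have h1 : C (P.eval c) = C (Q.eval c) * C (P.eval c / Q.eval c) := by
        rw [← C_mul, mul_div_cancel₀ _ hQc]
      rw [C_mul, C_mul, h1]
      ring

/-- clearing denominators -/
theorem exists_G {k : Subfield ℂ} {c z : ℂ} (h : IsAlgebraic (ad k {c}) z) :
    ∃ G : Polynomial (Polynomial k), G ≠ 0 ∧ ev2 k c z G = 0 := by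
  obtain ⟨P, hP, hP0, hPz⟩ := isAlgebraic_iff.1 h
  obtain ⟨d, G, hd, hG⟩ := clear k c (fun i => P.coeff i) hP (Finset.range (P.natDegree + 1))
  rw [← P.as_sum_range_C_mul_X_pow] at hG
  refine ⟨G, ?_, ?_⟩
  · rintro rfl
    rw [map_zero] at hG
    have := (mul_eq_zero.1 hG.symm).resolve_left (C_ne_zero.2 hd)
    exact hP0 this
  · rw [← eval_ev1, hG, eval_mul, hPz, mul_zero]

/-- `E` of a regular function is regular -/
theorem rg_E {D : Derivation ℤ ℂ ℂ} {E : Derivation ℤ K K} (h : IsExt D E) {c : ℂ} {w : K}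
    (hw : Rg c w) : Rg c (E w) := by
  obtain ⟨p, q, hq, h1, -⟩ := exists_of_rg hw
  have hq0 : q ≠ 0 := by
    rintro rfl
    simp at hq
  have h2 := congrArg E h1
  rw [Derivation.leibniz, smul_eq_mul, smul_eq_mul, E_pz h, E_pz h] at h2
  have h3 : E w = (pz (cd D p) - w * pz (cd D q)) / pz q := by
    rw [eq_div_iff (pz_ne_zero.2 hq0), ← h2]
    ring
  rw [h3]
  refine (rg_vl_div (rg_vl_sub (rg_pz c _) (rg_vl_mul hw (rg_pz c _)).1).1 (rg_pz c q) ?_).1
  rw [vl_pz]
  exact hq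

/-- the values of `f` at the poles outside `k` are algebraic -/
theorem alg_pole (hDER : Stmt_DER) {k : Subfield ℂ} (hk : Clo k) {f : ℂ[X]} {y l : K}
    (hy : DP k f y l) {c : ℂ} (hc : y.denom.IsRoot c) (hck : c ∉ k) :
    IsAlgebraic (ad k {c}) (f.eval c) := by
  by_contra hna
  obtain ⟨D, hD, hDf⟩ := hDER _ _ hna
  have hDk : Kil k D := fun z hz => hD z (le_ad k {c} hz)
  have hDc : D c = 0 := hD c (mem_ad k (Set.mem_singleton c))
  have hcd : (cd D f).eval c = 1 := by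
    have := D_eval D f c
    rw [hDf, hDc, mul_zero, add_zero] at this
    exact this.symm
  obtain ⟨D', hD'k, hD'c⟩ := hDER k c (fun h => hck (hk c h))
  obtain ⟨E, hE⟩ := exists_ext D
  obtain ⟨E', hE'⟩ := exists_ext D'
  have e1 := hy D E hE hDk
  have e2 := hy D' E' hE' hD'k
  rw [E_pz hE] at e1
  rw [E_pz hE'] at e2
  -- the order of the pole
  obtain ⟨q, hq, hqc⟩ := exists_eq_pow_rootMultiplicity_mul_and_not_dvd y.denom
    (RatFunc.denom_ne_zero y) c
  set n := y.denom.rootMultiplicity c with hn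
  have hn1 : 0 < n := (rootMultiplicity_pos (RatFunc.denom_ne_zero y)).2 hc
  have hqc' : q.eval c ≠ 0 := fun h => hqc (dvd_iff_isRoot.2 h)
  have hpc : y.num.eval c ≠ 0 := by
    intro h
    have h1 : (X - C c) ∣ y.num := dvd_iff_isRoot.2 h
    have h2 : (X - C c) ∣ y.denom := dvd_iff_isRoot.2 hc
    have h3 := (RatFunc.isCoprime_num_denom y).isUnit_of_dvd' h1 h2
    exact not_isUnit_X_sub_C c h3
  -- the regular function
  set u : K := pz (X - C c) with hu
  have hu0 : u ≠ 0 := pz_ne_zero.2 (X_sub_C_ne_zero c)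
  have hur : Rg c u := rg_pz c _
  have huv : vl c u = 0 := by
    rw [hu, vl_pz, eval_sub, eval_X, eval_C, sub_self]
  have hw1 : (y * u ^ n) * pz q = pz y.num := by
    rw [← mul_denom y, hq, map_mul, map_pow]
    ring
  obtain ⟨hwr, hwv⟩ := rg_vl_of_eq hqc' hw1
  have hwv0 : vl c (y * u ^ n) ≠ 0 := by
    rw [hwv]
    exact div_ne_zero hpc hqc'
  -- `u ^ n * l` is regular
  have hEu : E u = 0 := by
    rw [hu, E_pz hE, cd_sub, cd_X, cd_C, hDc]
    simp
  have hEw : E (y * u ^ n) = (u ^ n * l) * pz (cd D f) := by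
    rw [Derivation.leibniz, Derivation.leibniz_pow, hEu, e1]
    simp only [smul_eq_mul, smul_zero, mul_zero, zero_add]
    ring
  have hl : Rg c (u ^ n * l) := by
    have h0 : pz (cd D f) ≠ 0 := by
      rw [pz_ne_zero]
      intro h
      rw [h] at hcd
      simp at hcd
    have h1 : u ^ n * l = E (y * u ^ n) / pz (cd D f) := by
      rw [hEw, mul_div_cancel_right₀ _ h0]
    rw [h1]
    refine (rg_vl_div (rg_E hE hwr) (rg_pz c _) ?_).1
    rw [vl_pz, hcd]
    exact one_ne_zero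
  -- the contradiction
  have hE'u : E' u = -1 := by
    rw [hu, E_pz hE', cd_sub, cd_X, cd_C, hD'c, zero_sub, map_neg, C_1, map_one]
  have hE'w : (n : K) * (y * u ^ n) =
      u * ((u ^ n * l) * pz (cd D' f) - E' (y * u ^ n)) := by
    rw [Derivation.leibniz, Derivation.leibniz_pow, hE'u, e2]
    simp only [smul_eq_mul, nsmul_eq_mul]
    obtain ⟨m, hm⟩ := Nat.exists_eq_succ_of_ne_zero hn1.ne'
    rw [hm, Nat.succ_sub_one, Nat.succ_eq_add_one]
    push_cast
    ring
  have hr : Rg c ((u ^ n * l) * pz (cd D' f) - E' (y * u ^ n)) :=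
    (rg_vl_sub (rg_vl_mul hl (rg_pz c _)).1 (rg_E hE' hwr)).1
  have h1 : vl c ((n : K) * (y * u ^ n)) = 0 := by
    rw [hE'w, (rg_vl_mul hur hr).2, huv, zero_mul]
  have h2 : (n : K) = cst (n : ℂ) := (map_natCast cst n).symm
  rw [h2, (rg_vl_mul (rg_cst c _) hwr).2, vl_cst] at h1
  rcases mul_eq_zero.1 h1 with h3 | h3
  · exact hn1.ne' (Nat.cast_eq_zero.1 h3)
  · exact hwv0 h3

theorem exists_root_factor (hDER : Stmt_DER) {k : Subfield ℂ} (hk : Clo k) {f : ℂ[X]} {y l : K}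
    (hy : DP k f y l) {c : ℂ} (hc : y.denom.IsRoot c) :
    ∃ G : Polynomial (Polynomial k), G ≠ 0 ∧ (X - C c) ∣ bev k f G := by
  by_cases hck : c ∈ k
  · refine ⟨C (X - C ⟨c, hck⟩), ?_, ?_⟩
    · rw [C_ne_zero]
      exact X_sub_C_ne_zero _
    · rw [bev_C, Polynomial.map_sub, Polynomial.map_X, Polynomial.map_C]
      exact dvd_rfl
  · obtain ⟨G, hG, h⟩ := exists_G (alg_pole hDER hk hy hc hck)
    refine ⟨G, hG, ?_⟩
    rw [dvd_iff_isRoot, IsRoot, eval_bev]
    exact h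

theorem exists_mul (k : Subfield ℂ) (f : ℂ[X]) : ∀ (n : ℕ) (q : ℂ[X]), q.natDegree = n → q ≠ 0 →
    (∀ c, q.IsRoot c → ∃ G : Polynomial (Polynomial k), G ≠ 0 ∧ (X - C c) ∣ bev k f G) →
    ∃ G : Polynomial (Polynomial k), G ≠ 0 ∧ q ∣ bev k f G := by
  intro n
  induction n with
  | zero =>
    intro q hq hq0 _
    refine ⟨1, one_ne_zero, ?_⟩
    rw [map_one]
    rw [eq_C_of_natDegree_eq_zero hq] at hq0 ⊢
    exact (isUnit_C.2 (isUnit_iff_ne_zero.2 (C_ne_zero.1 hq0))).dvd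
  | succ n ih =>
    intro q hq hq0 h
    have hd : q.degree ≠ 0 := by
      intro h1
      have h2 := natDegree_eq_zero_iff_degree_le_zero.2 h1.le
      omega
    obtain ⟨c, hc⟩ := IsAlgClosed.exists_root q hd
    obtain ⟨r, hr⟩ := dvd_iff_isRoot.2 hc
    have hr0 : r ≠ 0 := by
      rintro rfl
      rw [mul_zero] at hr
      exact hq0 hr
    have hrd : r.natDegree = n := by
      rw [hr, natDegree_mul (X_sub_C_ne_zero c) hr0, natDegree_X_sub_C] at hq
      omega
    obtain ⟨G, hG, hG'⟩ := ih r hrd hr0 (fun a ha => h a (by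
      rw [hr, IsRoot, eval_mul, ha.eq_zero, mul_zero]))
    obtain ⟨H, hH, hH'⟩ := h c hc
    refine ⟨H * G, mul_ne_zero hH hG, ?_⟩
    rw [map_mul, hr]
    exact mul_dvd_mul hH' hG'

end GNP_

theorem gnp_proof (hDER : Stmt_DER) : Stmt_GNP := by
  intro k f y l hk hy
  obtain ⟨G, hG, r, hr⟩ := GNP_.exists_mul k f _ y.denom rfl (RatFunc.denom_ne_zero y)
    (fun c hc => GNP_.exists_root_factor hDER hk hy hc)
  refine ⟨G, y.num * r, hG, ?_⟩
  rw [hr, map_mul, map_mul, ← mul_assoc, mul_denom]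

end

end EVS
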