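import Pool.Agent.EVS.Api
import Pool.Agent.EVR.DER

/-!
# Squad EVS (MP_3e5173_lc), module INV: invariance of first-order conditions
-/

set_option autoImplicit false

namespace EVS

open Polynomial EVR

noncomputable section

namespace INV_

/-- constants in `k(Z)(f)` -/
theorem cst_mem {k : Subfield ℂ} {f γ : ℂ[X]} {e : ℕ} (hG : Gd k f γ e) {c : ℂ}
    (h : cst c ∈ fld k f) : c ∈ k := by
  obtain ⟨P, Q, hQ, hPQ⟩ := mem_fld_iff.1 h
  have hm : ∃ m : K, DP k f (cst c) m := by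
    rw [hPQ]
    exact ⟨_, DP.div (DP.bev k f P) (DP.bev k f Q) hQ⟩
  obtain ⟨m, hm⟩ := hm
  have key : ∀ D : Derivation ℤ ℂ ℂ, Kil k D → cst (D c) = m * pz (cd D f) := by
    intro D hD
    obtain ⟨E, hE⟩ := exists_ext D
    have h1 := hm D E hE hD
    rw [hE.C, E_pz hE] at h1
    exact h1
  have hm0 : m = 0 := by
    by_contra hne
    obtain ⟨D1, hD1, hdeg⟩ := hG.big
    have h1 := key D1 hD1
    have hlt := hG.lt
    have hc0 : cd D1 f ≠ 0 := by
      intro h0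
      rw [h0, natDegree_zero] at hdeg
      omega
    have hc1 : D1 c ≠ 0 := by
      intro h0
      rw [h0, map_zero] at h1
      exact mul_ne_zero hne (pz_ne_zero.2 hc0) h1.symm
    have hdvd : cd D1 f ∣ γ := by
      refine hG.gc _ fun D hD => ?_
      refine ⟨C (D c / D1 c), ?_⟩
      have h2 := key D hD
      apply pz_inj.1
      apply mul_left_cancel₀ hne
      rw [← h2, map_mul, ← mul_assoc, ← h1, pz_C, ← map_mul, mul_div_cancel₀ _ hc1]
    have hle := natDegree_le_of_dvd hdvd hG.ne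
    omega
  by_contra hc
  obtain ⟨D, hD, hDc⟩ := der_proof k c fun hal => hc (hG.clo c hal)
  have h1 := key D hD
  rw [hDc, hm0, zero_mul, map_one] at h1
  exact one_ne_zero h1

/-- what the test polynomial gives -/
theorem test (hDFT : Stmt_DFT) {s : ℕ} {k0 : Subfield ℂ} {f : ℂ[X]} (hT : Tst s k0 f) {s' : ℕ}
    {k : Subfield ℂ} (hs : s' ≤ s) (hD : Dft s' k0 k) :
    ∃ (γ : ℂ[X]) (e : ℕ), Gd k f γ e := by
  obtain ⟨k', γ, d, e, e', -, -, hG, -⟩ := hT k (hDFT.1 s' s k0 k hs hD)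
  exact ⟨γ, e, hG⟩

/-- a family with one more element -/
def ex {X ι : Type} (y : ι → X) (x : X) : Option ι → X := fun o => o.elim x y

theorem ex_eq {X ι : Type} [Field X] (ε : X →+* K) (y : ι → X) (x : X) :
    (fun i => ε (ex y x i)) = ext (fun i => ε (y i)) (ε x) := by
  funext o
  cases o <;> rfl

/-- one direction suffices -/
theorem iff_of {s' : ℕ} {k0 : Subfield ℂ} {f : ℂ[X]} {ι : Type} {Φ : (ι → K) → Prop}
    (h : ∀ (X : Type) [Field X] (ε1 ε2 : X →+* K), Par s' k0 f ε1 ε2 → ∀ y : ι → X,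
      Φ (fun i => ε1 (y i)) → Φ (fun i => ε2 (y i))) :
    ∀ (X : Type) [Field X] (ε1 ε2 : X →+* K), Par s' k0 f ε1 ε2 → ∀ y : ι → X,
      (Φ (fun i => ε1 (y i)) ↔ Φ (fun i => ε2 (y i))) := by
  intro X _ ε1 ε2 hP y
  exact ⟨h X ε1 ε2 hP y, h X ε2 ε1 hP.symm y⟩

/-- the algebraic elements belong to the image -/
theorem alg_mem (hRA2 : Stmt_RA2) (hDFT : Stmt_DFT) {s : ℕ} {k0 : Subfield ℂ}
    {f : ℂ[X]} (hT : Tst s k0 f) {s' : ℕ} {k : Subfield ℂ} (hs : s' ≤ s) (hD : Dft s' k0 k)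
    {w : K} (hw : IsAlgebraic (fld k f) w) : w ∈ fld k f := by
  obtain ⟨γ, e, hG⟩ := test hDFT hT hs hD
  exact hRA2 k f γ e w hG hw

/-- quantifiers over all of `ℂ(Z)` -/
theorem free_case (hQFT : Stmt_QFT) (hRA2 : Stmt_RA2) (hDFT : Stmt_DFT) (hQIN : Stmt_QIN)
    {s : ℕ} {k0 : Subfield ℂ} {f : ℂ[X]} (hT : Tst s k0 f) {ι : Type}
    {Φ : (Option ι → K) → Prop} (h : QFO (kZ k0) (Option ι) Φ) {s' : ℕ} (hs : s' ≤ s)
    {X : Type} [Field X] {ε1 ε2 : X →+* K} (hP : Par s' k0 f ε1 ε2) (y : ι → X)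
    (ht : ∃ t, Φ (ext (fun i => ε1 (y i)) t)) : ∃ t, Φ (ext (fun i => ε2 (y i)) t) := by
  obtain ⟨t, ht⟩ := ht
  have hx : ∃ x : X, Φ (ext (fun i => ε1 (y i)) (ε1 x)) := by
    obtain ⟨-, k1, k2, -, -, h3, -, h5, -, h7, -⟩ := hP
    by_cases hal : IsAlgebraic (fld k1 f) t
    · obtain ⟨x, hx⟩ := (h7 t).1 (alg_mem hRA2 hDFT hT hs h5 hal)
      exact ⟨x, by rw [hx]; exact ht⟩
    · have hfin := hQFT (fld k1 f) ι Φ (h.mono ((kZ_mono h3).trans (kZ_le_fld k1 f)))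
        (fun i => ε1 (y i)) t (fun i => (h7 _).2 ⟨y i, rfl⟩) hal
      have hinf : (Set.range (fun n : ℕ => (n : K))).Infinite :=
        Set.infinite_range_of_injective Nat.cast_injective
      obtain ⟨x, ⟨n, rfl⟩, hx⟩ := (hinf.sdiff hfin).nonempty
      rw [Set.mem_ofPred_eq, not_not] at hx
      refine ⟨(n : X), ?_⟩
      rw [map_natCast]
      exact hx.2 ht
  obtain ⟨x, hx⟩ := hx
  refine ⟨ε2 x, ?_⟩
  have h1 := hQIN (kZ k0) X ε1 ε2 hP.1 (Option ι) Φ h (ex y x)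
  rw [ex_eq, ex_eq] at h1
  exact h1.1 hx

/-- lifting `G` -/
theorem exists_lift_G {F : Subfield K} {X : Type} [Field X] {ε1 ε2 : X →+* K}
    (h : ∀ g ∈ F, ∃ x, ε1 x = g ∧ ε2 x = g) {ι : Type} {G : Polynomial (MvPolynomial ι K)}
    (hG : ∀ i, CoM F (G.coeff i)) : ∃ G' : Polynomial (MvPolynomial ι X),
      (∀ y : ι → X, G.map (MvPolynomial.eval (fun i => ε1 (y i))) =
        (G'.map (MvPolynomial.eval y)).map ε1) ∧
      ∀ y : ι → X, G.map (MvPolynomial.eval (fun i => ε2 (y i))) =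
        (G'.map (MvPolynomial.eval y)).map ε2 := by
  choose φ h1 h2 using fun i => exists_lift_mv h (hG i)
  have hco : ∀ n, (∑ i ∈ Finset.range (G.natDegree + 1), monomial i (φ i)).coeff n =
      if n ∈ Finset.range (G.natDegree + 1) then φ n else 0 := by
    intro n
    rw [finsetSum_coeff]
    simp only [coeff_monomial]
    rw [Finset.sum_ite_eq']
  have hG0 : ∀ n, n ∉ Finset.range (G.natDegree + 1) → G.coeff n = 0 := by
    intro n hn
    rw [Finset.mem_range, not_lt] at hn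
    exact coeff_eq_zero_of_natDegree_lt (by omega)
  refine ⟨∑ i ∈ Finset.range (G.natDegree + 1), monomial i (φ i), fun y => ?_, fun y => ?_⟩
  · ext1 n
    rw [coeff_map, coeff_map, coeff_map, hco]
    split_ifs with hn
    · rw [← h1 n, eval_lift_mv]
    · rw [hG0 n hn, map_zero, map_zero, map_zero]
  · ext1 n
    rw [coeff_map, coeff_map, coeff_map, hco]
    split_ifs with hn
    · rw [← h2 n, eval_lift_mv]
    · rw [hG0 n hn, map_zero, map_zero, map_zero]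

/-- the induction -/
theorem main (hQFT : Stmt_QFT) (hRA2 : Stmt_RA2) (hPT2 : Stmt_PT2) (hDFT : Stmt_DFT)
    (hQIN : Stmt_QIN) (hEXP : Stmt_EXP) {s : ℕ} {k0 : Subfield ℂ} {f : ℂ[X]}
    (hT : Tst s k0 f) {N : ℕ} {ι : Type} {Φ : (ι → K) → Prop} (hΦ : BFO (kZ k0) N ι Φ) :
    ∀ s' : ℕ, s' + N ≤ s → ∀ (X : Type) [Field X] (ε1 ε2 : X →+* K), Par s' k0 f ε1 ε2 →
      ∀ y : ι → X, (Φ (fun i => ε1 (y i)) ↔ Φ (fun i => ε2 (y i))) := by
  induction hΦ with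
  | @qf N ι Φ h =>
    intro s' hs X _ ε1 ε2 hP y
    exact hQIN (kZ k0) X ε1 ε2 hP.1 ι Φ h y
  | @free N ι Φ h =>
    intro s' hs
    exact iff_of (Φ := fun y => ∃ t : K, Φ (ext y t)) fun X _ ε1 ε2 hP y ht =>
      free_case hQFT hRA2 hDFT hQIN hT h (by omega) hP y ht
  | @neg N ι Φ h ih =>
    intro s' hs X _ ε1 ε2 hP y
    exact not_congr (ih s' hs X ε1 ε2 hP y)
  | @and N ι Φ Ψ h h' ih ih' =>
    intro s' hs X _ ε1 ε2 hP y
    exact and_congr (ih s' hs X ε1 ε2 hP y) (ih' s' hs X ε1 ε2 hP y)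
  | @mono N ι Φ h ih =>
    intro s' hs X _ ε1 ε2 hP y
    exact ih s' (by omega) X ε1 ε2 hP y
  | @const N ι Φ h ih =>
    intro s' hs
    refine iff_of (Φ := fun y => ∃ c : ℂ, Φ (ext y (cst c))) fun X _ ε1 ε2 hP y ht => ?_
    obtain ⟨c, hc⟩ := ht
    obtain ⟨X', _, j, ε1', ε2', hP', hj1, hj2, x', hx'⟩ :=
      hEXP s s' k0 f hT (by omega) X ε1 ε2 hP c
    have h1 := ih (s' + 1) (by omega) X' ε1' ε2' hP' (ex (fun i => j (y i)) x')
    rw [ex_eq, ex_eq] at h1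
    simp only [hj1, hj2] at h1
    rw [hx'] at h1
    have h2 := h1.1 hc
    obtain ⟨-, k1, k2, -, -, h3, -, h5, -, h7, -, h9⟩ := hP'
    obtain ⟨γ, e, hG⟩ := test hDFT hT (by omega : s' + 1 ≤ s) h5
    have hck : c ∈ k1 := cst_mem hG ((h7 _).2 ⟨x', hx'⟩)
    obtain ⟨c', -, hc'⟩ := (h9 x').1 ⟨c, hck, hx'⟩
    refine ⟨c', ?_⟩
    rw [hc'] at h2
    exact h2
  | @alg N ι G hG Φ h ih =>
    intro s' hs
    refine iff_of (Φ := fun y => ∃ w : K, G.map (MvPolynomial.eval y) ≠ 0 ∧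
      (G.map (MvPolynomial.eval y)).eval w = 0 ∧ Φ (ext y w)) fun X _ ε1 ε2 hP y ht => ?_
    obtain ⟨w, hw1, hw2, hw3⟩ := ht
    obtain ⟨G', hG1, hG2⟩ := exists_lift_G hP.1 hG
    have hx : ∃ x, ε1 x = w := by
      obtain ⟨-, k1, k2, -, -, h3, -, h5, -, h7, -⟩ := hP
      refine (h7 w).1 (alg_mem hRA2 hDFT hT (by omega : s' ≤ s) h5 ?_)
      refine isAlgebraic_iff'.2 ⟨_, fun n => ?_, hw1, hw2⟩
      rw [coeff_map]
      exact eval_mem ((kZ_mono h3).trans (kZ_le_fld k1 f)) (hG n)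
        fun i => (h7 _).2 ⟨y i, rfl⟩
    obtain ⟨x, rfl⟩ := hx
    refine ⟨ε2 x, ?_, ?_, ?_⟩
    · rw [hG1 y, Ne, Polynomial.map_eq_zero] at hw1
      rw [hG2 y, Ne, Polynomial.map_eq_zero]
      exact hw1
    · rw [hG1 y, eval_map_apply, map_eq_zero] at hw2
      rw [hG2 y, eval_map_apply, hw2, map_zero]
    · have h1 := ih s' hs X ε1 ε2 hP (ex y x)
      rw [ex_eq, ex_eq] at h1
      exact h1.1 hw3
  | @ell N ι A B hA hB Φ h ih =>
    intro s' hs
    have step : ∀ s1 : ℕ, s1 + N ≤ s → ∀ (X : Type) [Field X] (ε1 ε2 : X →+* K),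
        Par s1 k0 f ε1 ε2 → ∀ (y : ι → X) (a b : X),
        4 * (MvPolynomial.eval (fun i => ε1 (y i)) A) ^ 3 +
          27 * (MvPolynomial.eval (fun i => ε1 (y i)) B) ^ 2 ≠ 0 →
        (ε1 b) ^ 2 = (ε1 a) ^ 3 + MvPolynomial.eval (fun i => ε1 (y i)) A * ε1 a +
          MvPolynomial.eval (fun i => ε1 (y i)) B →
        Φ (ext (ext (fun i => ε1 (y i)) (ε1 a)) (ε1 b)) →
        ∃ u v : K, 4 * (MvPolynomial.eval (fun i => ε2 (y i)) A) ^ 3 +
          27 * (MvPolynomial.eval (fun i => ε2 (y i)) B) ^ 2 ≠ 0 ∧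
          v ^ 2 = u ^ 3 + MvPolynomial.eval (fun i => ε2 (y i)) A * u +
            MvPolynomial.eval (fun i => ε2 (y i)) B ∧
          Φ (ext (ext (fun i => ε2 (y i)) u) v) := by
      intro s1 hs1 X _ ε1 ε2 hP y a b h1 h2 h3
      obtain ⟨A', hA1, hA2⟩ := exists_lift_mv hP.1 hA
      obtain ⟨B', hB1, hB2⟩ := exists_lift_mv hP.1 hB
      have e1 : MvPolynomial.eval (fun i => ε1 (y i)) A = ε1 (MvPolynomial.eval y A') := by
        rw [← hA1, eval_lift_mv]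
      have e2 : MvPolynomial.eval (fun i => ε1 (y i)) B = ε1 (MvPolynomial.eval y B') := by
        rw [← hB1, eval_lift_mv]
      have e3 : MvPolynomial.eval (fun i => ε2 (y i)) A = ε2 (MvPolynomial.eval y A') := by
        rw [← hA2, eval_lift_mv]
      have e4 : MvPolynomial.eval (fun i => ε2 (y i)) B = ε2 (MvPolynomial.eval y B') := by
        rw [← hB2, eval_lift_mv]
      rw [e1, e2] at h1 h2
      rw [e3, e4]
      refine ⟨ε2 a, ε2 b, ?_, ?_, ?_⟩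
      · intro h0
        apply h1
        have h4 : 4 * (MvPolynomial.eval y A') ^ 3 + 27 * (MvPolynomial.eval y B') ^ 2 = 0 := by
          apply ε2.injective
          rw [map_zero, ← h0]
          simp only [map_add, map_mul, map_pow, map_ofNat]
        have h5 := congrArg ε1 h4
        simp only [map_add, map_mul, map_pow, map_ofNat, map_zero] at h5
        exact h5
      · have h4 : b ^ 2 = a ^ 3 + MvPolynomial.eval y A' * a + MvPolynomial.eval y B' := by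
          apply ε1.injective
          simp only [map_add, map_mul, map_pow]
          exact h2
        have h5 := congrArg ε2 h4
        simp only [map_add, map_mul, map_pow] at h5
        exact h5
      · have h4 := ih s1 hs1 X ε1 ε2 hP (ex (ex y a) b)
        rw [ex_eq, ex_eq, ex_eq, ex_eq] at h4
        exact h4.1 h3
    refine iff_of (Φ := fun y => ∃ u v : K,
      4 * (MvPolynomial.eval y A) ^ 3 + 27 * (MvPolynomial.eval y B) ^ 2 ≠ 0 ∧
      v ^ 2 = u ^ 3 + MvPolynomial.eval y A * u + MvPolynomial.eval y B ∧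
      Φ (ext (ext y u) v)) fun X _ ε1 ε2 hP y ht => ?_
    obtain ⟨u, v, hu1, hu2, hu3⟩ := ht
    have hcase : ((∃ a, ε1 a = u) ∧ ∃ b, ε1 b = v) ∨ ∃ (r : X) (u0 v0 : ℂ),
        u = (ε1 r) ^ 2 * cst u0 ∧ v = (ε1 r) ^ 3 * cst v0 := by
      obtain ⟨-, k1, k2, -, -, h3, -, h5, -, h7, -⟩ := hP
      have hy : ∀ {P : MvPolynomial ι K}, CoM (kZ k0) P →
          MvPolynomial.eval (fun i => ε1 (y i)) P ∈ fld k1 f := fun {P} hP =>
        eval_mem ((kZ_mono h3).trans (kZ_le_fld k1 f)) hP fun i => (h7 _).2 ⟨y i, rfl⟩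
      rcases hPT2 s k0 k1 f _ _ u v hT (hDFT.1 s' s k0 k1 (by omega) h5) (hy hA) (hy hB) hu1 hu2
        with ⟨h8, h9⟩ | ⟨r, α, β, u0, v0, hr, -, -, -, -, -, h8, h9⟩
      · exact Or.inl ⟨(h7 u).1 h8, (h7 v).1 h9⟩
      · obtain ⟨r', hr'⟩ := (h7 r).1 hr
        exact Or.inr ⟨r', u0, v0, by rw [hr', h8], by rw [hr', h9]⟩
    rcases hcase with ⟨⟨a, rfl⟩, b, rfl⟩ | ⟨r, u0, v0, hu, hv⟩
    · exact step s' (by omega) X ε1 ε2 hP y a b hu1 hu2 hu3
    · obtain ⟨X', _, j, ε1', ε2', hP', hj1, hj2, x', hx'⟩ :=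
        hEXP s s' k0 f hT (by omega) X ε1 ε2 hP u0
      obtain ⟨X'', _, j', ε1'', ε2'', hP'', hj1', hj2', x'', hx''⟩ :=
        hEXP s (s' + 1) k0 f hT (by omega) X' ε1' ε2' hP' v0
      have g1 : ε1'' (j' (j r) ^ 2 * j' x') = u := by
        rw [map_mul, map_pow, hj1', hj1, hj1', hx', hu]
      have g2 : ε1'' (j' (j r) ^ 3 * x'') = v := by
        rw [map_mul, map_pow, hj1', hj1, hx'', hv]
      have h4 := step (s' + 1 + 1) (by omega) X'' ε1'' ε2'' hP'' (fun i => j' (j (y i)))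
        (j' (j r) ^ 2 * j' x') (j' (j r) ^ 3 * x'')
      rw [g1, g2] at h4
      simp only [hj1', hj1, hj2', hj2] at h4
      exact h4 hu1 hu2 hu3

end INV_

theorem inv_proof (hQFT : Stmt_QFT) (_hTR2 : Stmt_TR2) (hRA2 : Stmt_RA2) (hPT2 : Stmt_PT2)
    (hDFT : Stmt_DFT) (hQIN : Stmt_QIN) (hEXP : Stmt_EXP) : Stmt_INV := by
  intro s k0 f hT N ι Φ hΦ s' hs X _ ε1 ε2 hP y
  exact INV_.main hQFT hRA2 hPT2 hDFT hQIN hEXP hT hΦ s' hs X ε1 ε2 hP y

end

end EVS
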