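import Pool.Agent.EVS.Api

/-!
Squad EVS, module KER: elements killed by all derivations over `k` belong to `k(Z)`.
-/

set_option autoImplicit false

namespace EVS

open Polynomial EVR

namespace KER_

theorem vl_zero (c : ℂ) : vl c (0 : K) = 0 := by
  rw [vl_def]
  simp

end KER_

theorem ker_proof (hDER : Stmt_DER) (hEVD : Stmt_EVD) (hINT : Stmt_INT) : Stmt_KER := by
  intro k y hk hy
  apply hINT k y
  have hsub : (k : Set ℂ) \ {c : ℂ | ¬ Rg c y} ⊆ {c : ℂ | c ∈ k ∧ Rg c y ∧ vl c y ∈ k} := by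
    rintro c ⟨hc, hr⟩
    have hr' : Rg c y := by
      by_contra h
      exact hr h
    refine ⟨hc, hr', ?_⟩
    apply hk
    by_contra hna
    obtain ⟨D, hD, hD1⟩ := hDER k (vl c y) hna
    obtain ⟨E, hE⟩ := exists_ext D
    have h0 : E y = 0 := hy D E hE (fun z hz => hD z hz)
    have h1 := (hEVD D E c y hE (hD c hc) hr').2
    rw [h0, KER_.vl_zero, hD1] at h1
    exact zero_ne_one h1
  exact ((Clo.infinite hk).sdiff (finite_not_rg y)).mono hsub

end EVS
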