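import Pool.Agent.EVS.Api

/-!
Module MIN: minimal models over `k(Z)(f)`.
-/

set_option autoImplicit false

namespace EVS

open Polynomial EVR

theorem min_proof (hMML : Stmt_MML) : Stmt_MIN := by
  intro k f A B hTr hA hB hne
  obtain ⟨P, Q, hQ, hAe⟩ := mem_fld_iff.1 hA
  obtain ⟨R, S, hS, hBe⟩ := mem_fld_iff.1 hB
  have e1 : A * pz (bev k f (Q * S)) ^ 4 = pz (bev k f (P * S * (Q * S) ^ 3)) := by
    rw [hAe]
    simp only [map_mul, map_pow]
    field_simp
  have e2 : B * pz (bev k f (Q * S)) ^ 6 = pz (bev k f (R * Q * (Q * S) ^ 5)) := by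
    rw [hBe]
    simp only [map_mul, map_pow]
    field_simp
  have hg : pz (bev k f (Q * S)) ≠ 0 := by
    rw [map_mul, map_mul]
    exact mul_ne_zero hQ hS
  have hne2 : P * S * (Q * S) ^ 3 ≠ 0 ∨ R * Q * (Q * S) ^ 5 ≠ 0 := by
    rcases hne with h | h
    · left
      intro h0
      rw [h0, map_zero, map_zero] at e1
      rcases mul_eq_zero.1 e1 with h1 | h1
      · exact h h1
      · exact pow_ne_zero 4 hg h1
    · right
      intro h0
      rw [h0, map_zero, map_zero] at e2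
      rcases mul_eq_zero.1 e2 with h1 | h1
      · exact h h1
      · exact pow_ne_zero 6 hg h1
  obtain ⟨L, A', B', hL, hLA, hLB, hM⟩ := hMML (Polynomial (Polynomial k)) _ _ hne2
  have hL0 : pz (bev k f L) ≠ 0 := pz_ne_zero.2 (bev_ne_zero hTr hL)
  refine ⟨pz (bev k f L) / pz (bev k f (Q * S)), A', B',
    div_mem (pz_bev_mem k f L) (pz_bev_mem k f (Q * S)), div_ne_zero hL0 hg, hM, ?_, ?_⟩
  · rw [div_pow, div_mul_eq_mul_div, eq_div_iff (pow_ne_zero 4 hg), e1, hLA, map_mul, map_mul,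
      map_pow, map_pow]
  · rw [div_pow, div_mul_eq_mul_div, eq_div_iff (pow_ne_zero 6 hg), e2, hLB, map_mul, map_mul,
      map_pow, map_pow]

end EVS
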