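import Pool.Agent.EVS.Api

/-!
# Squad EVS: the prime ideal of a point of the plane which is not on a vertical line over `k`
-/

set_option autoImplicit false

namespace EVS

open Polynomial EVR

namespace PRI_

/-- an irreducible element of the kernel -/
theorem exists_irr {k : Subfield ℂ} {z1 z2 : ℂ} {G : Polynomial (Polynomial k)}
    (hG : G ≠ 0) (h : ev2 k z1 z2 G = 0) :
    ∃ π : Polynomial (Polynomial k), Prime π ∧ ev2 k z1 z2 π = 0 := by
  obtain ⟨s, hs, hsG⟩ := UniqueFactorizationMonoid.exists_prime_factors G hG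
  obtain ⟨u, hu⟩ := hsG
  have h1 : ev2 k z1 z2 s.prod = 0 := by
    rw [← hu, map_mul] at h
    rcases mul_eq_zero.1 h with h3 | h3
    · exact h3
    · have h4 : IsUnit (ev2 k z1 z2 (u : Polynomial (Polynomial k))) := u.isUnit.map _
      rw [h3] at h4
      exact absurd h4 not_isUnit_zero
  rw [map_multiset_prod, Multiset.prod_eq_zero_iff, Multiset.mem_map] at h1
  obtain ⟨π, hπ, h2⟩ := h1
  exact ⟨π, hs π hπ, h2⟩

/-- the kernel meets `k[Z]` in zero -/
theorem ev2_C {k : Subfield ℂ} {z1 z2 : ℂ} (hz : ¬ IsAlgebraic k z1) (p : Polynomial k)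
    (hp : ev2 k z1 z2 (C p) = 0) : p = 0 := by
  by_contra h0
  apply hz
  refine ⟨p, h0, ?_⟩
  rw [ev2, coe_eval₂RingHom, eval₂_C, coe_eval₂RingHom] at hp
  exact hp

/-- the kernel is generated by the irreducible element -/
theorem ker {k : Subfield ℂ} {z1 z2 : ℂ} (hz : ¬ IsAlgebraic k z1)
    {π : Polynomial (Polynomial k)} (hπ : Prime π) (h : ev2 k z1 z2 π = 0) :
    π.natDegree ≠ 0 ∧ ∀ G : Polynomial (Polynomial k), ev2 k z1 z2 G = 0 → π ∣ G := by
  have hS := fun p => ev2_C (z2 := z2) hz p
  have hdeg : π.natDegree ≠ 0 := by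
    intro h0
    rw [eq_C_of_natDegree_eq_zero h0] at h
    have h1 := hS _ h
    apply hπ.ne_zero
    rw [eq_C_of_natDegree_eq_zero h0, h1, C_0]
  refine ⟨hdeg, ?_⟩
  intro G hG
  set L := FractionRing (Polynomial k) with hL
  have hprim : π.IsPrimitive := hπ.irreducible.isPrimitive hdeg
  have hirr : Irreducible (π.map (algebraMap (Polynomial k) L)) :=
    (hprim.irreducible_iff_irreducible_map_fraction_map (K := L)).1 hπ.irreducible
  by_cases hd : π.map (algebraMap (Polynomial k) L) ∣ G.map (algebraMap (Polynomial k) L)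
  · obtain ⟨Q, hQ⟩ := hd
    obtain ⟨b, hbM, hb⟩ := IsLocalization.integerNormalization_spec (nonZeroDivisors (Polynomial k)) Q
    have hb0 : b ≠ 0 := nonZeroDivisors.ne_zero hbM
    have h1 : C b * G = π * IsLocalization.integerNormalization
        (nonZeroDivisors (Polynomial k)) Q := by
      apply Polynomial.map_injective (algebraMap (Polynomial k) L) (IsFractionRing.injective _ _)
      rw [Polynomial.map_mul, Polynomial.map_mul, hb, hQ, Polynomial.map_C, Algebra.smul_def,
        Polynomial.algebraMap_apply]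
      ring
    have h2 : π ∣ C b * G := ⟨_, h1⟩
    rcases hπ.dvd_or_dvd h2 with h3 | h3
    · exfalso
      have h4 := natDegree_le_of_dvd h3 (by rw [Ne, C_eq_zero]; exact hb0)
      rw [natDegree_C] at h4
      omega
    · exact h3
  · exfalso
    have hcop : IsCoprime (π.map (algebraMap (Polynomial k) L))
        (G.map (algebraMap (Polynomial k) L)) := (hirr.coprime_iff_not_dvd).2 hd
    obtain ⟨U, V, hUV⟩ := hcop
    obtain ⟨b, hbM, hb⟩ := IsLocalization.integerNormalization_spec (nonZeroDivisors (Polynomial k)) U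
    obtain ⟨e, heM, he⟩ := IsLocalization.integerNormalization_spec (nonZeroDivisors (Polynomial k)) V
    have hb0 : b ≠ 0 := nonZeroDivisors.ne_zero hbM
    have he0 : e ≠ 0 := nonZeroDivisors.ne_zero heM
    have h1 : C b * C e =
        C e * IsLocalization.integerNormalization
          (nonZeroDivisors (Polynomial k)) U * π +
        C b * IsLocalization.integerNormalization
          (nonZeroDivisors (Polynomial k)) V * G := by
      apply Polynomial.map_injective (algebraMap (Polynomial k) L) (IsFractionRing.injective _ _)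
      simp only [Polynomial.map_mul, Polynomial.map_add, hb, he, Polynomial.map_C,
        Algebra.smul_def, Polynomial.algebraMap_apply]
      linear_combination (-(C (algebraMap (Polynomial k) L b) * C (algebraMap (Polynomial k) L e))) * hUV
    have h2 : ev2 k z1 z2 (C (b * e)) = 0 := by
      rw [C_mul, h1, map_add, map_mul _ _ π, map_mul _ _ G, h, hG]
      ring
    exact mul_ne_zero hb0 he0 (hS _ h2)

end PRI_

open PRI_ in
theorem pri_proof : Stmt_PRI := by
  intro k z1 z2 A hk hz1 hA h
  have hz : ¬ IsAlgebraic k z1 := fun h => hz1 (hk z1 h)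
  obtain ⟨π, hπ, hπ0⟩ := exists_irr hA h
  obtain ⟨hdeg, hker⟩ := ker hz hπ hπ0
  refine ⟨π, hπ.irreducible, hπ0, ?_, hker⟩
  intro hd
  have h1 : π ∣ derivative π := hker _ hd
  have h2 : derivative π = 0 := by
    by_contra h3
    have h4 := natDegree_le_of_dvd h1 h3
    have h5 := natDegree_derivative_lt hdeg
    omega
  exact hdeg (derivative_eq_zero.1 h2)

end EVS
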