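import Pool.Agent.EVS.Api

/-!
# Squad EVS (MP_3e5173_lc), module PT2: points of elliptic curves over `k(Z)(f)`
-/

set_option autoImplicit false

namespace EVS

open Polynomial EVR

noncomputable section

namespace PT2_

/-- the equation after the change of coordinates -/
theorem scaled {r A B a b u v : K} (hr : r ≠ 0) (hA : A = r ^ 4 * a) (hB : B = r ^ 6 * b)
    (h : v ^ 2 = u ^ 3 + A * u + B) :
    (v / r ^ 3) ^ 2 = (u / r ^ 2) ^ 3 + a * (u / r ^ 2) + b := by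
  subst hA hB
  field_simp
  linear_combination h

theorem disc_ne {r A B a b : K} (hA : A = r ^ 4 * a) (hB : B = r ^ 6 * b)
    (h : 4 * A ^ 3 + 27 * B ^ 2 ≠ 0) : 4 * a ^ 3 + 27 * b ^ 2 ≠ 0 := by
  intro h0
  apply h
  subst hA hB
  linear_combination r ^ 12 * h0

theorem gd_tr (hTR2 : Stmt_TR2) {k : Subfield ℂ} {f γ : ℂ[X]} {e : ℕ} (h : Gd k f γ e) :
    Tr (kZ k) (pz f) := by
  obtain ⟨D, hD, hD'⟩ := h.big
  refine hTR2 k f ⟨D, hD, fun h0 => ?_⟩
  rw [h0, natDegree_zero] at hD'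
  have := h.lt
  omega

/-- multiplication back -/
theorem back {k : Subfield ℂ} {f : ℂ[X]} {r u v : K} (hr : r ∈ fld k f) (h0 : r ≠ 0)
    (hu : u / r ^ 2 ∈ fld k f) (hv : v / r ^ 3 ∈ fld k f) : u ∈ fld k f ∧ v ∈ fld k f := by
  constructor
  · have : u = r ^ 2 * (u / r ^ 2) := by
      field_simp
    rw [this]
    exact mul_mem (pow_mem hr 2) hu
  · have : v = r ^ 3 * (v / r ^ 3) := by
      field_simp
    rw [this]
    exact mul_mem (pow_mem hr 3) hv

end PT2_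

theorem pt2_proof (hCST : Stmt_CST) (hCNZ : Stmt_CNZ) (hTR2 : Stmt_TR2) (hGEN : Stmt_GEN)
    (hZDR : Stmt_ZDR) (hRIG : Stmt_RIG) (hMIN : Stmt_MIN) : Stmt_PT2 := by
  intro s k0 k f A B u v hT hk hA hB hd he
  obtain ⟨k', γ, d, e, e', hkk, hz, hG, hG', hdeg, hLg, hlt⟩ := hT k hk
  have hTr : Tr (kZ k) (pz f) := PT2_.gd_tr hTR2 hG
  have hTr' : Tr (kZ k') (pz f) := PT2_.gd_tr hTR2 hG'
  have hAB : A ≠ 0 ∨ B ≠ 0 := by
    by_contra h
    push Not at h
    apply hd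
    rw [h.1, h.2]
    ring
  obtain ⟨r, A', B', hr, hr0, hM, eA, eB⟩ := hMIN k f A B hTr hA hB hAB
  have he' := PT2_.scaled hr0 eA eB he
  have hd1 := PT2_.disc_ne eA eB hd
  have hd2 : 4 * A' ^ 3 + 27 * B' ^ 2 ≠ 0 := by
    intro h0
    apply hd1
    have h1 : pz (bev k f (4 * A' ^ 3 + 27 * B' ^ 2)) = 0 := by
      rw [h0, map_zero, map_zero]
    simpa only [map_add, map_mul, map_pow, map_ofNat] using h1
  by_cases hx : 1 ≤ A'.natDegree ∨ 1 ≤ B'.natDegree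
  · left
    obtain ⟨⟨l, hl⟩, ⟨m, hm⟩⟩ := hZDR k k' f γ d e A' B' (u / r ^ 2) (v / r ^ 3) hG.clo hkk hTr
      hG.ne hG'.gc hdeg hLg hlt hM hd2 hx he'
    have hu := hGEN k' f γ e' _ l hG' hl
    have hv := hGEN k' f γ e' _ m hG' hm
    obtain ⟨hu', hv'⟩ := hRIG k k' f A' B' _ _ hG.clo hG'.clo hkk hz hTr' hM hd2 hx hu hv he'
    exact PT2_.back hr hr0 hu' hv'
  · push Not at hx
    obtain ⟨a, ha⟩ : ∃ a, A' = C a := ⟨A'.coeff 0, eq_C_of_natDegree_eq_zero (by omega)⟩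
    obtain ⟨b, hb⟩ : ∃ b, B' = C b := ⟨B'.coeff 0, eq_C_of_natDegree_eq_zero (by omega)⟩
    subst ha hb
    rw [bev_C, bev_C] at he' hd1
    rw [bev_C] at eA eB
    have hd3 : 4 * a ^ 3 + 27 * b ^ 2 ≠ 0 := by
      intro h0
      apply hd2
      have h1 : (C (4 * a ^ 3 + 27 * b ^ 2) : Polynomial (Polynomial k)) = 0 := by
        rw [h0, map_zero]
      simpa only [map_add, map_mul, map_pow, map_ofNat] using h1
    by_cases hy : 0 < a.natDegree ∨ 0 < b.natDegree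
    · left
      obtain ⟨hu, hv⟩ := hCNZ k a b _ _ hG.clo hM hd3 hy he'
      exact PT2_.back hr hr0 (kZ_le_fld k f hu) (kZ_le_fld k f hv)
    · right
      push Not at hy
      obtain ⟨α, hα⟩ : ∃ α, a = C α := ⟨a.coeff 0, eq_C_of_natDegree_eq_zero (by omega)⟩
      obtain ⟨β, hβ⟩ : ∃ β, b = C β := ⟨b.coeff 0, eq_C_of_natDegree_eq_zero (by omega)⟩
      subst hα hβ
      rw [Polynomial.map_C, Polynomial.map_C, pz_C, pz_C] at he' hd1
      rw [Polynomial.map_C, pz_C] at eA eB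
      have hd4 : 4 * (k.subtype α) ^ 3 + 27 * (k.subtype β) ^ 2 ≠ 0 := by
        intro h0
        apply hd1
        have h1 : cst (4 * (k.subtype α) ^ 3 + 27 * (k.subtype β) ^ 2) = 0 := by
          rw [h0, map_zero]
        simpa only [map_add, map_mul, map_pow, map_ofNat] using h1
      obtain ⟨u0, v0, hu0, hv0⟩ := hCST _ _ _ _ hd4 he'
      refine ⟨r, k.subtype α, k.subtype β, u0, v0, hr, hr0, α.2, β.2, eA, eB, ?_, ?_⟩
      · rw [← hu0]
        field_simp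
      · rw [← hv0]
        field_simp

end

end EVS
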