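import Pool.Agent.EVS.Api

/-!
# Squad EVS, module QIN: quantifier-free conditions are invariant
-/

set_option autoImplicit false

namespace EVS

open Polynomial EVR

theorem qin_proof : Stmt_QIN := by
  intro F X _ ε1 ε2 h ι Φ hΦ y
  induction hΦ with
  | zero P hP =>
    obtain ⟨P', h1, h2⟩ := exists_lift_mv h (P := P) hP
    have e1 : MvPolynomial.eval (fun i => ε1 (y i)) P = ε1 (MvPolynomial.eval y P') := by
      rw [← h1, eval_lift_mv]
    have e2 : MvPolynomial.eval (fun i => ε2 (y i)) P = ε2 (MvPolynomial.eval y P') := by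
      rw [← h2, eval_lift_mv]
    show MvPolynomial.eval (fun i => ε1 (y i)) P = 0 ↔ MvPolynomial.eval (fun i => ε2 (y i)) P = 0
    rw [e1, e2, map_eq_zero ε1, map_eq_zero ε2]
  | neg _ ih => exact not_congr ih
  | and _ _ ih1 ih2 => exact and_congr ih1 ih2

end EVS
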