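import Pool.Agent.EVS.Api

set_option autoImplicit false

namespace EVS

open Polynomial EVR

theorem ra2_proof (hDPA : Stmt_DPA) (hGEN : Stmt_GEN) : Stmt_RA2 := by
  intro k f γ e w hG hw
  obtain ⟨m, hm⟩ := hDPA k f w hw
  exact hGEN k f γ e w m hG hm

end EVS
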