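import Pool.Agent.EVS.Api

/-!
# Squad EVS: minimality at a generic `z`
-/

set_option autoImplicit false

namespace EVS

open Polynomial EVR

namespace RG1_

/-- extraction of powers -/
theorem pow_dvd {k : Subfield ℂ} {z c : ℂ} {π : Polynomial (Polynomial k)}
    (hP : ∀ G : Polynomial (Polynomial k), ev2 k z c G = 0 → π ∣ G) {u : ℂ[X]}
    (hu : ev1 k z π = (X - C c) * u) (hu' : ¬ (X - C c) ∣ u) :
    ∀ (n : ℕ) (G : Polynomial (Polynomial k)), (X - C c) ^ n ∣ ev1 k z G → π ^ n ∣ G := by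
  intro n
  induction n with
  | zero => intro G _; rw [pow_zero]; exact one_dvd _
  | succ n ih =>
    intro G hG
    have h0 : ev2 k z c G = 0 := by
      have h1 : (X - C c) ∣ ev1 k z G := (dvd_pow_self _ (Nat.succ_ne_zero n)).trans hG
      have h2 := dvd_iff_isRoot.1 h1
      rw [IsRoot.def, eval_ev1] at h2
      exact h2
    obtain ⟨G', rfl⟩ := hP G h0
    rw [map_mul, hu, mul_assoc, pow_succ', mul_dvd_mul_iff_left (X_sub_C_ne_zero c)] at hG
    have h2 := (prime_X_sub_C c).pow_dvd_of_dvd_mul_left n hu' hG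
    rw [pow_succ']
    exact mul_dvd_mul_left _ (ih G' h2)

end RG1_

theorem rg1_proof (hPRI : Stmt_PRI) : Stmt_RG1 := by
  intro k z c A B hk hz hM hAB ⟨h4, h6⟩
  have hG : ∃ G : Polynomial (Polynomial k), G ≠ 0 ∧ ev2 k z c G = 0 := by
    rcases hAB with h | h
    · refine ⟨A, h, ?_⟩
      have h2 := dvd_iff_isRoot.1 ((dvd_pow_self (X - C c) (by norm_num : (4 : ℕ) ≠ 0)).trans h4)
      rw [IsRoot.def, eval_ev1] at h2
      exact h2
    · refine ⟨B, h, ?_⟩
      have h2 := dvd_iff_isRoot.1 ((dvd_pow_self (X - C c) (by norm_num : (6 : ℕ) ≠ 0)).trans h6)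
      rw [IsRoot.def, eval_ev1] at h2
      exact h2
  obtain ⟨G, hG, hG0⟩ := hG
  obtain ⟨π, hπ, hπ0, hπ', hker⟩ := hPRI k z c G hk hz hG hG0
  have hroot : IsRoot (ev1 k z π) c := by
    rw [IsRoot.def, eval_ev1]
    exact hπ0
  obtain ⟨u, hu⟩ := dvd_iff_isRoot.2 hroot
  have hu' : ¬ (X - C c) ∣ u := by
    rintro ⟨v, hv⟩
    apply hπ'
    rw [← eval_ev1, ← derivative_ev1, hu, hv]
    simp
  exact hM π hπ ⟨RG1_.pow_dvd hker hu hu' 4 A h4, RG1_.pow_dvd hker hu hu' 6 B h6⟩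

end EVS
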