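import Pool.Agent.EVS.Api

set_option autoImplicit false

namespace EVS

open Polynomial EVR

noncomputable section

namespace RG3_

/-- clearing denominators -/
theorem clear (k : Subfield ℂ) (z : ℂ) (P : Polynomial (ad k {z})) :
    ∃ (d : Polynomial k) (P2 : Polynomial (Polynomial k)), d.eval₂ k.subtype z ≠ 0 ∧
      C (d.eval₂ k.subtype z) * P.map (ad k {z}).subtype = ev1 k z P2 := by
  induction P using Polynomial.induction_on' with
  | add p q hp hq =>
    obtain ⟨d1, P1, h1, e1⟩ := hp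
    obtain ⟨d2, P2, h2, e2⟩ := hq
    refine ⟨d1 * d2, C d2 * P1 + C d1 * P2, ?_, ?_⟩
    · rw [eval₂_mul]
      exact mul_ne_zero h1 h2
    · rw [map_add, map_mul, map_mul, ev1_C, ev1_C, ← e1, ← e2, eval₂_mul, Polynomial.map_add,
        C_mul]
      ring
  | monomial n a =>
    obtain ⟨P, Q, hP, hQ, h0, e⟩ := exists_of_mem_ad a.2
    obtain ⟨P', hP', -⟩ := exists_lift hP
    obtain ⟨Q', hQ', -⟩ := exists_lift hQ
    have e1 : P'.eval₂ k.subtype z = P.eval z := by rw [← hP', eval_map]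
    have e2 : Q'.eval₂ k.subtype z = Q.eval z := by rw [← hQ', eval_map]
    refine ⟨Q', C P' * X ^ n, ?_, ?_⟩
    · rw [e2]
      exact h0
    · have h3 : Q.eval z * (a : ℂ) = P.eval z := by
        rw [e]
        field_simp
      rw [map_mul, map_pow, ev1_C, ev1_X, Polynomial.map_monomial, e1, e2,
        ← C_mul_X_pow_eq_monomial, ← mul_assoc, ← C_mul]
      rw [← h3]
      rfl

end RG3_

open RG3_ in
theorem rg3_proof (hI : Stmt_INT) (hR : Stmt_RCL) : Stmt_RG3 := by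
  intro k k' κ f z θ u hk hk' hle hz hκ hθ hu
  have hinj : Function.Injective θ := θ.injective
  obtain ⟨P, Q, hQ, hPQ⟩ := mem_fld_iff.1 u.2
  have hmP := pz_bev_mem k' f P
  have hmQ := pz_bev_mem k' f Q
  have h1 : θ u * pz (ev1 k' z Q) = pz (ev1 k' z P) := by
    rw [← hθ Q hmQ, ← hθ P hmP, ← map_mul]
    congr 1
    apply Subtype.ext
    show (u : K) * pz (bev k' f Q) = pz (bev k' f P)
    rw [hPQ, div_mul_cancel₀ _ hQ]
  have h2 : pz (ev1 k' z Q) ≠ 0 := by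
    rw [← hθ Q hmQ]
    intro h
    have h' := hinj (h.trans (map_zero θ).symm)
    exact hQ (congrArg Subtype.val h')
  have h3 : θ u ∈ kZ (ad k' {z}) := by
    rw [(eq_div_iff h2).2 h1]
    refine div_mem (pz_mem_kZ fun n => ?_) (pz_mem_kZ fun n => ?_)
    · rw [ev1_coeff]
      exact eval₂_mem_ad z _
    · rw [ev1_coeff]
      exact eval₂_mem_ad z _
  have h4 : θ u ∈ kZ (ad k' {z} ⊓ κ) := by
    apply hI
    have f1 := vl_mem_of_kZ h3
    have f2 := vl_mem_of_kZ hu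
    refine Set.Infinite.mono ?_ (hk.infinite.sdiff (f1.union f2))
    rintro c ⟨hc, hc'⟩
    have g1 : c ∈ ad k' {z} := le_ad k' {z} (hle hc)
    have g2 : c ∈ κ := (hκ c).2 (isAlgebraic_of_mem (le_ad k {z} hc))
    have g3 : Rg c (θ u) ∧ vl c (θ u) ∈ ad k' {z} := by
      by_contra h
      exact hc' (Or.inl ⟨g1, h⟩)
    have g4 : Rg c (θ u) ∧ vl c (θ u) ∈ κ := by
      by_contra h
      exact hc' (Or.inr ⟨g2, h⟩)
    exact ⟨⟨g1, g2⟩, g3.1, ⟨g3.2, g4.2⟩⟩
  have h5 : ad k' {z} ⊓ κ ≤ ad k {z} := by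
    intro w hw
    exact hR k k' z w hk hle (fun h => hz (hk' z h)) hw.1 ((hκ w).1 hw.2)
  obtain ⟨P1, Q1, hQ1, e⟩ := mem_kZ_iff.1 (kZ_mono h5 h4)
  obtain ⟨d, P2, hd, eP⟩ := clear k z P1
  obtain ⟨d', Q2, hd', eQ⟩ := clear k z Q1
  have hQm : pz (Q1.map (ad k {z}).subtype) ≠ 0 := by
    rw [pz_ne_zero, Ne, Polynomial.map_eq_zero]
    exact hQ1
  -- the two polynomials with a common denominator
  have e1 : pz (ev1 k z (C d' * P2)) / pz (ev1 k z (C d * Q2)) = θ u := by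
    have n1 : pz (C (d.eval₂ k.subtype z)) ≠ 0 := by
      rw [pz_ne_zero, Ne, C_eq_zero]
      exact hd
    have n2 : pz (C (d'.eval₂ k.subtype z)) ≠ 0 := by
      rw [pz_ne_zero, Ne, C_eq_zero]
      exact hd'
    have a1 : pz (ev1 k z (C d' * P2)) = pz (C (d'.eval₂ k.subtype z)) *
        (pz (C (d.eval₂ k.subtype z)) * pz (P1.map (ad k {z}).subtype)) := by
      rw [map_mul (ev1 k z), ev1_C, ← eP, map_mul pz, map_mul pz]
    have a2 : pz (ev1 k z (C d * Q2)) = pz (C (d.eval₂ k.subtype z)) *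
        (pz (C (d'.eval₂ k.subtype z)) * pz (Q1.map (ad k {z}).subtype)) := by
      rw [map_mul (ev1 k z), ev1_C, ← eQ, map_mul pz, map_mul pz]
    rw [a1, a2, e]
    field_simp
  have n3 : ev1 k z (C d * Q2) ≠ 0 := by
    rw [map_mul, ev1_C, ← eQ]
    refine mul_ne_zero ?_ (mul_ne_zero ?_ ?_)
    · rw [Ne, C_eq_zero]
      exact hd
    · rw [Ne, C_eq_zero]
      exact hd'
    · exact pz_ne_zero.1 hQm
  generalize C d' * P2 = P3 at e1
  generalize C d * Q2 = Q3 at e1 n3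
  have m1 : pz (bev k' f (inc hle P3)) ∈ fld k' f := pz_bev_mem k' f _
  have m2 : pz (bev k' f (inc hle Q3)) ∈ fld k' f := pz_bev_mem k' f _
  have t1 := hθ (inc hle P3) m1
  have t2 := hθ (inc hle Q3) m2
  rw [ev1_inc] at t1 t2
  have n4 : pz (ev1 k z Q3) ≠ 0 := pz_ne_zero.2 n3
  have n5 : pz (bev k' f (inc hle Q3)) ≠ 0 := by
    intro h
    apply n4
    rw [← t2]
    have h' : (⟨pz (bev k' f (inc hle Q3)), m2⟩ : fld k' f) = 0 := Subtype.ext h
    rw [h', map_zero]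
  have e2 : θ (u * ⟨pz (bev k' f (inc hle Q3)), m2⟩) = θ ⟨pz (bev k' f (inc hle P3)), m1⟩ := by
    rw [map_mul, t1, t2, ← e1, div_mul_cancel₀ _ n4]
  have e3 := congrArg Subtype.val (hinj e2)
  have e4 : (u : K) * pz (bev k' f (inc hle Q3)) = pz (bev k' f (inc hle P3)) := e3
  rw [bev_inc, bev_inc] at e4
  rw [bev_inc] at n5
  rw [(eq_div_iff n5).2 e4]
  exact div_mem (pz_bev_mem k f P3) (pz_bev_mem k f Q3)

end

end EVS
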