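import Pool.Agent.EVS.Api

/-!
# Squad EVS (MP_3e5173_lc), module RIG: rigidity of the points of an elliptic curve
-/

set_option autoImplicit false

namespace EVS

open Polynomial EVR

namespace RIG_

/-- the value of `G` at `(cst z, X)` -/
theorem eval2_cst_X (k : Subfield ℂ) (z : ℂ) (G : Polynomial (Polynomial k)) :
    G.eval₂ (Polynomial.eval₂RingHom (cst.comp k.subtype) (cst z)) (RatFunc.X : K) =
      pz (ev1 k z G) := by
  induction G using Polynomial.induction_on' with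
  | add p q hp hq => rw [eval₂_add, hp, hq, map_add, map_add]
  | monomial n a =>
    rw [← C_mul_X_pow_eq_monomial, eval₂_mul, eval₂_pow, eval₂_X, eval₂_C, map_mul, map_mul,
      map_pow, map_pow, ev1_C, ev1_X, pz_C, pz_X]
    congr 1
    show Polynomial.eval₂ (cst.comp k.subtype) (cst z) a = cst (Polynomial.eval₂ k.subtype z a)
    rw [Polynomial.hom_eval₂]

/-- the polynomials `ev1 k z G` are killed by the derivations over `k(z)` -/
theorem cd_ev1 {k κ : Subfield ℂ} {z : ℂ} (h : ad k {z} ≤ κ) {D : Derivation ℤ ℂ ℂ}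
    (hD : Kil κ D) (G : Polynomial (Polynomial k)) : cd D (ev1 k z G) = 0 := by
  ext n
  rw [cd_coeff, ev1_coeff, coeff_zero]
  exact hD _ (h (eval₂_mem_ad z _))

theorem natDegree_ev1 {k : Subfield ℂ} (hk : Clo k) {z : ℂ} (hz : z ∉ k)
    (G : Polynomial (Polynomial k)) : (ev1 k z G).natDegree = G.natDegree := by
  refine natDegree_map_eq_of_injective ?_ G
  rw [injective_iff_map_eq_zero]
  intro P hP
  by_contra h
  exact eval₂_ne_zero hk hz h hP

end RIG_

open RIG_

theorem rig_proof (hMTG : Stmt_MTG) (hKER : Stmt_KER) (hUNV : Stmt_UNV) (hRG1 : Stmt_RG1)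
    (hRG3 : Stmt_RG3) : Stmt_RIG := by
  intro k k' f A B u v hk hk' hle ⟨z, hz⟩ hT hmin hdisc hdeg hu hv heq
  have hzk : z ∉ k := fun h => hz (hle h)
  obtain ⟨θ, hθ0⟩ := hUNV k' f k'.subtype (cst z) (RatFunc.X : K) hT (by
    intro G hG
    rw [eval2_cst_X, pz_ne_zero]
    exact fun h => hG ((map_eq_zero_iff _ (ev1_inj hk' hz)).1 h))
  have hθ : ∀ (G : Polynomial (Polynomial k')) (h : pz (bev k' f G) ∈ fld k' f),
      θ ⟨pz (bev k' f G), h⟩ = pz (ev1 k' z G) := fun G h => by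
    rw [hθ0 G h, eval2_cst_X]
  have hθk : ∀ (G : Polynomial (Polynomial k)) (h : pz (bev k f G) ∈ fld k' f),
      θ ⟨pz (bev k f G), h⟩ = pz (ev1 k z G) := fun G h => by
    have h1 : pz (bev k' f (inc hle G)) ∈ fld k' f := pz_bev_mem k' f _
    have h2 : (⟨pz (bev k f G), h⟩ : fld k' f) = ⟨pz (bev k' f (inc hle G)), h1⟩ := by
      apply Subtype.ext
      show pz (bev k f G) = pz (bev k' f (inc hle G))
      rw [bev_inc]
    rw [h2, hθ, ev1_inc]
  obtain ⟨κ, hκ1, hκ2, hκ3⟩ := exists_acl (ad k {z})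
  have hA : pz (bev k f A) ∈ fld k' f := fld_mono hle f (pz_bev_mem k f A)
  have hB : pz (bev k f B) ∈ fld k' f := fld_mono hle f (pz_bev_mem k f B)
  have heq' : (θ ⟨v, hv⟩) ^ 2 = (θ ⟨u, hu⟩) ^ 3 + pz (ev1 k z A) * θ ⟨u, hu⟩ +
      pz (ev1 k z B) := by
    rw [← hθk A hA, ← hθk B hB, ← map_pow, ← map_pow, ← map_mul, ← map_add, ← map_add]
    congr 1
    apply Subtype.ext
    exact heq
  have hAB : A ≠ 0 ∨ B ≠ 0 := by
    rcases hdeg with h | h
    · left
      rintro rfl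
      simp at h
    · right
      rintro rfl
      simp at h
  have hne : ∀ G : Polynomial (Polynomial k), G ≠ 0 → ev1 k z G ≠ 0 := fun G hG h =>
    hG ((map_eq_zero_iff _ (ev1_inj hk hzk)).1 h)
  have key : ∀ (D : Derivation ℤ ℂ ℂ) (E : Derivation ℤ K K), IsExt D E → Kil κ D →
      E (θ ⟨u, hu⟩) = 0 ∧ E (θ ⟨v, hv⟩) = 0 := by
    intro D E hE hD
    refine hMTG E 0 (ev1 k z A) (ev1 k z B) 1 _ _ ?_ ?_ ?_ ?_ one_ne_zero ?_ ?_ heq'
    · intro p
      refine ⟨cd D p, E_pz hE p, fun _ => ?_⟩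
      have := natDegree_cd_le D p
      omega
    · rw [E_pz hE, cd_ev1 hκ1 hD, map_zero]
    · rw [E_pz hE, cd_ev1 hκ1 hD, map_zero]
    · have h1 : 4 * (ev1 k z A) ^ 3 + 27 * (ev1 k z B) ^ 2 = ev1 k z (4 * A ^ 3 + 27 * B ^ 2) := by
        simp only [map_add, map_mul, map_pow, map_ofNat]
      rw [h1]
      exact hne _ hdisc
    · intro c j h1 h2
      rcases Nat.eq_zero_or_pos j with rfl | hj
      · rw [pow_zero]
      · exfalso
        refine hRG1 k z c A B hk hzk hmin hAB ⟨?_, ?_⟩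
        · exact (pow_dvd_pow _ (by omega)).trans h1
        · exact (pow_dvd_pow _ (by omega)).trans h2
    · rw [natDegree_ev1 hk hzk, natDegree_ev1 hk hzk, natDegree_one]
      rcases hdeg with h | h
      · left
        refine ⟨hne A ?_, ?_⟩
        · rintro rfl
          simp at h
        · push_cast
          omega
      · right
        refine ⟨hne B ?_, ?_⟩
        · rintro rfl
          simp at h
        · push_cast
          omega
  refine ⟨?_, ?_⟩
  · exact hRG3 k k' κ f z θ ⟨u, hu⟩ hk hk' hle hz hκ3 hθ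
      (hKER κ _ hκ2 fun D E hE hD => (key D E hE hD).1)
  · exact hRG3 k k' κ f z θ ⟨v, hv⟩ hk hk' hle hz hκ3 hθ
      (hKER κ _ hκ2 fun D E hE hD => (key D E hE hD).2)

end EVS
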