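import Pool.Agent.EVS.Api

/-!
# Squad EVS (MP_3e5173_lc), module SPD: specialisation of existential conditions
-/

set_option autoImplicit false

namespace EVS

open Polynomial EVR

noncomputable section

namespace SPD_

theorem co_C {F : Subfield K} {c : K} (hc : c ∈ F) : Co F (C c) := fun n => by
  rw [coeff_C]
  split_ifs
  · exact hc
  · exact zero_mem F

theorem co_one (F : Subfield K) : Co F (1 : K[X]) := by
  have h := co_C (F := F) (c := 1) (one_mem F)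
  rwa [C_1] at h

theorem co_mono {F F' : Subfield K} (h : F ≤ F') {P : K[X]} (hP : Co F P) : Co F' P :=
  fun n => h (hP n)

theorem eval_mem {F L : Subfield K} (h : F ≤ L) {P : K[X]} (hP : Co F P) {g : K} (hg : g ∈ L) :
    P.eval g ∈ L := by
  rw [eval_eq_sum_range]
  exact Subfield.sum_mem _ fun i _ => mul_mem (h (hP i)) (pow_mem hg i)

/-- the values of polynomials -/
theorem mv_eval_mem {F L : Subfield K} (h : F ≤ L) {ι : Type} {P : MvPolynomial ι K}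
    (hP : CoM F P) {y : ι → K} (hy : ∀ i, y i ∈ L) : MvPolynomial.eval y P ∈ L := by
  rw [MvPolynomial.eval_eq]
  exact Subfield.sum_mem _ fun m _ => mul_mem (h (hP m))
    (prod_mem fun i _ => pow_mem (hy i) _)

/-- lifting polynomials in several variables -/
theorem mv_lift {F : Subfield K} {ι : Type} {P : MvPolynomial ι K} (hP : CoM F P) :
    ∃ P' : MvPolynomial ι F, MvPolynomial.map F.subtype P' = P := by
  refine ⟨∑ m ∈ P.support, MvPolynomial.monomial m (⟨P.coeff m, hP m⟩ : F), ?_⟩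
  rw [map_sum]
  conv_rhs => rw [MvPolynomial.as_sum P]
  refine Finset.sum_congr rfl fun m _ => ?_
  rw [MvPolynomial.map_monomial]
  rfl

/-- the polynomial `G(y)(w)` as a polynomial in all variables -/
theorem exists_H {F : Subfield K} {ι : Type} (G : Polynomial (MvPolynomial ι K))
    (hG : ∀ i, CoM F (G.coeff i)) :
    ∃ H : MvPolynomial (Option ι) K, (∀ m, H.coeff m ∈ F) ∧
      ∀ (y : ι → K) (w : K), MvPolynomial.eval (ext y w) H =
        (G.map (MvPolynomial.eval y)).eval w := by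
  choose G' hG' using fun i => mv_lift (hG i)
  refine ⟨MvPolynomial.map F.subtype (∑ j ∈ Finset.range (G.natDegree + 1),
    MvPolynomial.rename some (G' j) * MvPolynomial.X none ^ j), fun m => ?_, fun y w => ?_⟩
  · rw [MvPolynomial.coeff_map]
    exact SetLike.coe_mem _
  · rw [map_sum, map_sum]
    have h1 : (G.map (MvPolynomial.eval y)).natDegree < G.natDegree + 1 :=
      Nat.lt_succ_of_le natDegree_map_le
    rw [eval_eq_sum_range' h1]
    refine Finset.sum_congr rfl fun j _ => ?_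
    rw [map_mul, map_mul, map_pow, map_pow, MvPolynomial.map_X, MvPolynomial.eval_X,
      MvPolynomial.map_rename, hG' j, MvPolynomial.eval_rename, coeff_map]
    rfl

/-- the discriminant -/
theorem exists_disc {F : Subfield K} {ι : Type} {A B : MvPolynomial ι K} (hA : CoM F A)
    (hB : CoM F B) : ∃ H : MvPolynomial ι K, (∀ m, H.coeff m ∈ F) ∧
      ∀ y : ι → K, MvPolynomial.eval y H =
        4 * (MvPolynomial.eval y A) ^ 3 + 27 * (MvPolynomial.eval y B) ^ 2 := by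
  obtain ⟨A', hA'⟩ := mv_lift hA
  obtain ⟨B', hB'⟩ := mv_lift hB
  refine ⟨MvPolynomial.map F.subtype (4 * A' ^ 3 + 27 * B' ^ 2), fun m => ?_, fun y => ?_⟩
  · rw [MvPolynomial.coeff_map]
    exact SetLike.coe_mem _
  · simp only [map_add, map_mul, map_pow, map_ofNat, hA', hB']

/-- the equation -/
theorem exists_eqn {F : Subfield K} {ι : Type} {A B : MvPolynomial ι K} (hA : CoM F A)
    (hB : CoM F B) : ∃ H : MvPolynomial (Option (Option ι)) K, (∀ m, H.coeff m ∈ F) ∧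
      ∀ (y : ι → K) (u v : K), MvPolynomial.eval (ext (ext y u) v) H =
        v ^ 2 - (u ^ 3 + MvPolynomial.eval y A * u + MvPolynomial.eval y B) := by
  obtain ⟨A', hA'⟩ := mv_lift hA
  obtain ⟨B', hB'⟩ := mv_lift hB
  refine ⟨MvPolynomial.map F.subtype (MvPolynomial.X none ^ 2 -
    (MvPolynomial.X (some none) ^ 3 + MvPolynomial.rename (fun i => some (some i)) A' *
      MvPolynomial.X (some none) + MvPolynomial.rename (fun i => some (some i)) B')),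
    fun m => ?_, fun y u v => ?_⟩
  · rw [MvPolynomial.coeff_map]
    exact SetLike.coe_mem _
  · simp only [map_add, map_sub, map_mul, map_pow, MvPolynomial.map_X, MvPolynomial.eval_X,
      MvPolynomial.map_rename, hA', hB', MvPolynomial.eval_rename]
    rfl

/-- the family for `ext` -/
def ex {ι : Type} (P : ι → K[X]) (P' : K[X]) : Option ι → K[X] := fun o => o.elim P' P

theorem ext_eq {ι : Type} (P Q : ι → K[X]) (P' Q' : K[X]) (h : K) :
    (fun i => (ex P P' i).eval h / (ex Q Q' i).eval h) =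
      ext (fun i => (P i).eval h / (Q i).eval h) (P'.eval h / Q'.eval h) := by
  funext o
  cases o <;> rfl

theorem ex_cond {F : Subfield K} {g : K} {ι : Type} {P Q : ι → K[X]} {P' Q' : K[X]}
    (h : ∀ i, Co F (P i) ∧ Co F (Q i) ∧ (Q i).eval g ≠ 0)
    (h' : Co F P' ∧ Co F Q' ∧ Q'.eval g ≠ 0) :
    ∀ i, Co F (ex P P' i) ∧ Co F (ex Q Q' i) ∧ (ex Q Q' i).eval g ≠ 0 := by
  intro o
  cases o with
  | none => exact h'
  | some i => exact h i

theorem cond_mono {F F' : Subfield K} (h : F ≤ F') {g : K} {ι : Type} {P Q : ι → K[X]}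
    (hPQ : ∀ i, Co F (P i) ∧ Co F (Q i) ∧ (Q i).eval g ≠ 0) :
    ∀ i, Co F' (P i) ∧ Co F' (Q i) ∧ (Q i).eval g ≠ 0 := fun i =>
  ⟨co_mono h (hPQ i).1, co_mono h (hPQ i).2.1, (hPQ i).2.2⟩

/-- the closure with one more element -/
theorem step (hDFT : Stmt_DFT) {s' : ℕ} {k0 k : Subfield ℂ} (hD : Dft s' k0 k) (c : ℂ) :
    ∃ k1 : Subfield ℂ, Dft (s' + 1) k0 k1 ∧ k ≤ k1 ∧ c ∈ k1 := by
  obtain ⟨L, -, -, hL⟩ := exists_acl (ad k {c})
  exact ⟨L, hDFT.2.2.1 s' k0 k L c hD hL⟩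

/-- what the test polynomial gives -/
theorem test (hTR2 : Stmt_TR2) (hRA2 : Stmt_RA2) (hDFT : Stmt_DFT) {s : ℕ} {k0 : Subfield ℂ}
    {f : ℂ[X]} (hT : Tst s k0 f) {s' : ℕ} {k : Subfield ℂ} (hs : s' ≤ s) (hD : Dft s' k0 k) :
    Tr (kZ k) (pz f) ∧ ∀ w : K, IsAlgebraic (fld k f) w → w ∈ fld k f := by
  obtain ⟨k', γ, d, e, e', -, -, hG, -⟩ := hT k (hDFT.1 s' s k0 k hs hD)
  constructor
  · obtain ⟨D, hD1, hD2⟩ := hG.big
    refine hTR2 k f ⟨D, hD1, fun h0 => ?_⟩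
    rw [h0, natDegree_zero] at hD2
    have := hG.lt
    omega
  · exact fun w hw => hRA2 k f γ e w hG hw

/-- the induction -/
theorem main (hREP : Stmt_REP) (hQFL : Stmt_QFL) (hQFT : Stmt_QFT) (hTR2 : Stmt_TR2)
    (hRA2 : Stmt_RA2) (hPT2 : Stmt_PT2) (hDFT : Stmt_DFT) {s : ℕ} {k0 : Subfield ℂ} {f : ℂ[X]}
    (hT : Tst s k0 f) {N : ℕ} {ι : Type} {Φ : (ι → K) → Prop} (hΦ : BPO (kZ k0) N ι Φ) :
    Finite ι → ∀ (s' : ℕ) (k : Subfield ℂ), s' + N ≤ s → Dft s' k0 k → ∀ P Q : ι → K[X],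
      (∀ i, Co (kZ k) (P i) ∧ Co (kZ k) (Q i) ∧ (Q i).eval (pz f) ≠ 0) →
      Φ (fun i => (P i).eval (pz f) / (Q i).eval (pz f)) →
      ∃ T : Set K, T.Finite ∧ ∀ h : K, h ∉ T → (∀ i, (Q i).eval h ≠ 0) ∧
        Φ (fun i => (P i).eval h / (Q i).eval h) := by
  set g : K := pz f with hg
  have hk0 : ∀ {s' : ℕ} {k : Subfield ℂ}, Dft s' k0 k → kZ k0 ≤ kZ k := fun {s' k} hD =>
    kZ_mono (hDFT.2.1 s' k0 k hD).2
  have hyL : ∀ {k : Subfield ℂ} {ι : Type} {P Q : ι → K[X]},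
      (∀ i, Co (kZ k) (P i) ∧ Co (kZ k) (Q i) ∧ (Q i).eval g ≠ 0) →
      ∀ i, (P i).eval g / (Q i).eval g ∈ fld k f := fun {k ι P Q} h i =>
    div_mem (eval_mem (kZ_le_fld k f) (h i).1 (pz_mem_fld k f))
      (eval_mem (kZ_le_fld k f) (h i).2.1 (pz_mem_fld k f))
  induction hΦ with
  | @qf N ι Φ h =>
    intro hι s' k hs hD P Q hPQ hΦ
    obtain ⟨hTr, -⟩ := test hTR2 hRA2 hDFT hT (by omega : s' ≤ s) hD
    obtain ⟨T, hT1, hT2⟩ := hQFL (kZ k) g ι Φ (h.mono (hk0 hD)) hTr P Q hPQ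
    exact ⟨T, hT1, fun x hx => ⟨(hT2 x hx).1, (hT2 x hx).2.2 hΦ⟩⟩
  | @free N ι Φ h =>
    intro hι s' k hs hD P Q hPQ ht
    obtain ⟨t, ht⟩ := ht
    obtain ⟨hTr, hRA⟩ := test hTR2 hRA2 hDFT hT (by omega : s' ≤ s) hD
    have key : ∃ P' Q' : K[X], Co (kZ k) P' ∧ Co (kZ k) Q' ∧ Q'.eval g ≠ 0 ∧
        Φ (ext (fun i => (P i).eval g / (Q i).eval g) (P'.eval g / Q'.eval g)) := by
      by_cases hal : IsAlgebraic (fld k f) t
      · obtain ⟨P', Q', h1, h2, h3, h4⟩ := hREP (kZ k) g t (hRA t hal)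
        refine ⟨P', Q', h1, h2, h3, ?_⟩
        rw [← h4]
        exact ht
      · have hfin := hQFT (fld k f) ι Φ (h.mono ((hk0 hD).trans (kZ_le_fld k f))) _ t
          (hyL hPQ) hal
        have hinf : (Set.range (fun n : ℕ => (n : K))).Infinite :=
          Set.infinite_range_of_injective Nat.cast_injective
        obtain ⟨x, ⟨n, rfl⟩, hx⟩ := (hinf.sdiff hfin).nonempty
        rw [Set.mem_ofPred_eq, not_not] at hx
        refine ⟨C (n : K), 1, co_C (natCast_mem _ n), co_one _, by simp, ?_⟩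
        rw [eval_C, eval_one, div_one]
        exact hx.2 ht
    obtain ⟨P', Q', h1, h2, h3, h4⟩ := key
    obtain ⟨T, hT1, hT2⟩ := hQFL (kZ k) g (Option ι) Φ (h.mono (hk0 hD)) hTr (ex P P') (ex Q Q')
      (ex_cond hPQ ⟨h1, h2, h3⟩)
    refine ⟨T, hT1, fun x hx => ?_⟩
    obtain ⟨h5, h6⟩ := hT2 x hx
    rw [ext_eq, ext_eq] at h6
    exact ⟨fun i => h5 (some i), P'.eval x / Q'.eval x, h6.2 h4⟩
  | @and N ι Φ Ψ h h' ih ih' =>
    intro hι s' k hs hD P Q hPQ hΦ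
    obtain ⟨T, hT1, hT2⟩ := ih hι s' k hs hD P Q hPQ hΦ.1
    obtain ⟨T', hT1', hT2'⟩ := ih' hι s' k hs hD P Q hPQ hΦ.2
    refine ⟨T ∪ T', hT1.union hT1', fun x hx => ?_⟩
    have h1 := hT2 x fun hh => hx (Or.inl hh)
    have h2 := hT2' x fun hh => hx (Or.inr hh)
    exact ⟨h1.1, h1.2, h2.2⟩
  | @or N ι Φ Ψ h h' ih ih' =>
    intro hι s' k hs hD P Q hPQ hΦ
    rcases hΦ with hΦ | hΦ
    · obtain ⟨T, hT1, hT2⟩ := ih hι s' k hs hD P Q hPQ hΦ
      exact ⟨T, hT1, fun x hx => ⟨(hT2 x hx).1, Or.inl (hT2 x hx).2⟩⟩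
    · obtain ⟨T, hT1, hT2⟩ := ih' hι s' k hs hD P Q hPQ hΦ
      exact ⟨T, hT1, fun x hx => ⟨(hT2 x hx).1, Or.inr (hT2 x hx).2⟩⟩
  | @mono N ι Φ h ih =>
    intro hι s' k hs hD P Q hPQ hΦ
    exact ih hι s' k (by omega) hD P Q hPQ hΦ
  | @const N ι Φ h ih =>
    intro hι s' k hs hD P Q hPQ hc
    obtain ⟨c, hc⟩ := hc
    obtain ⟨k1, hD1, hk1, hc1⟩ := step hDFT hD c
    have hcond := ex_cond (P' := C (cst c)) (Q' := 1) (cond_mono (kZ_mono hk1) hPQ)
      ⟨co_C (cst_mem_kZ hc1), co_one _, by simp⟩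
    have heq : ∀ x : K, (C (cst c) : K[X]).eval x / (1 : K[X]).eval x = cst c := fun x => by
      rw [eval_C, eval_one, div_one]
    obtain ⟨T, hT1, hT2⟩ := ih inferInstance (s' + 1) k1 (by omega) hD1 (ex P (C (cst c)))
      (ex Q 1) hcond (by
        rw [ext_eq, heq]
        exact hc)
    refine ⟨T, hT1, fun x hx => ?_⟩
    obtain ⟨h5, h6⟩ := hT2 x hx
    rw [ext_eq, heq] at h6
    exact ⟨fun i => h5 (some i), c, h6⟩
  | @alg N ι G hG Φ h ih =>
    intro hι s' k hs hD P Q hPQ hw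
    obtain ⟨w, hw0, hw1, hw2⟩ := hw
    obtain ⟨hTr, hRA⟩ := test hTR2 hRA2 hDFT hT (by omega : s' ≤ s) hD
    have hF : kZ k0 ≤ kZ k := hk0 hD
    have hwL : w ∈ fld k f := by
      apply hRA
      rw [isAlgebraic_iff']
      refine ⟨_, fun n => ?_, hw0, hw1⟩
      rw [coeff_map]
      exact mv_eval_mem (hF.trans (kZ_le_fld k f)) (hG n) (hyL hPQ)
    obtain ⟨P', Q', h1, h2, h3, h4⟩ := hREP (kZ k) g w hwL
    have hcond := ex_cond hPQ ⟨h1, h2, h3⟩
    obtain ⟨T, hT1, hT2⟩ := ih inferInstance s' k hs hD (ex P P') (ex Q Q') hcond (by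
      rw [ext_eq, ← h4]
      exact hw2)
    obtain ⟨n, hn⟩ : ∃ n, MvPolynomial.eval (fun i => (P i).eval g / (Q i).eval g)
        (G.coeff n) ≠ 0 := by
      by_contra hcon
      push Not at hcon
      apply hw0
      ext n
      rw [coeff_map, hcon n, coeff_zero]
    obtain ⟨T1, hT11, hT12⟩ := hQFL (kZ k) g ι _
      ((QFO.zero (G.coeff n) (hG n)).mono hF) hTr P Q hPQ
    obtain ⟨H, hH, hH'⟩ := exists_H G hG
    obtain ⟨T3, hT31, hT32⟩ := hQFL (kZ k) g (Option ι) _ ((QFO.zero H hH).mono hF) hTr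
      (ex P P') (ex Q Q') hcond
    refine ⟨T ∪ T1 ∪ T3, (hT1.union hT11).union hT31, fun x hx => ?_⟩
    have hx0 : x ∉ T := fun hh => hx (Or.inl (Or.inl hh))
    have hx1 : x ∉ T1 := fun hh => hx (Or.inl (Or.inr hh))
    have hx2 : x ∉ T3 := fun hh => hx (Or.inr hh)
    obtain ⟨h5, h6⟩ := hT2 x hx0
    obtain ⟨-, h7⟩ := hT12 x hx1
    obtain ⟨-, h8⟩ := hT32 x hx2
    rw [ext_eq] at h6
    rw [ext_eq, ext_eq, hH', hH', ← h4] at h8
    refine ⟨fun i => h5 (some i), P'.eval x / Q'.eval x, ?_, h8.2 hw1, h6⟩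
    intro h0
    have h9 := congrArg (fun p => Polynomial.coeff p n) h0
    simp only [coeff_map, coeff_zero] at h9
    exact hn (h7.1 h9)
  | @ell N ι A B hA hB Φ h ih =>
    intro hι s' k hs hD P Q hPQ hw
    obtain ⟨u, v, hdisc, heqn, huv⟩ := hw
    set y : ι → K := fun i => (P i).eval g / (Q i).eval g with hy
    have hF : kZ k0 ≤ kZ k := hk0 hD
    have hAL : MvPolynomial.eval y A ∈ fld k f :=
      mv_eval_mem (hF.trans (kZ_le_fld k f)) hA (hyL hPQ)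
    have hBL : MvPolynomial.eval y B ∈ fld k f :=
      mv_eval_mem (hF.trans (kZ_le_fld k f)) hB (hyL hPQ)
    -- a larger field
    obtain ⟨s2, k2, hs2, hD2, hk2, hu, hv⟩ : ∃ (s2 : ℕ) (k2 : Subfield ℂ), s2 + N ≤ s ∧
        Dft s2 k0 k2 ∧ k ≤ k2 ∧ u ∈ fld k2 f ∧ v ∈ fld k2 f := by
      rcases hPT2 s k0 k f _ _ u v hT (hDFT.1 s' s k0 k (by omega) hD) hAL hBL hdisc heqn with
        h1 | ⟨r, α, β, u0, v0, hr, -, -, -, -, -, hu, hv⟩
      · exact ⟨s', k, by omega, hD, le_rfl, h1.1, h1.2⟩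
      · obtain ⟨k1, hD1, hk1, hu0⟩ := step hDFT hD u0
        obtain ⟨k2, hD2, hk2, hv0⟩ := step hDFT hD1 v0
        have hr2 : r ∈ fld k2 f := fld_mono (hk1.trans hk2) f hr
        refine ⟨s' + 1 + 1, k2, by omega, hD2, hk1.trans hk2, ?_, ?_⟩
        · rw [hu]
          exact mul_mem (pow_mem hr2 2) (kZ_le_fld k2 f (cst_mem_kZ (hk2 hu0)))
        · rw [hv]
          exact mul_mem (pow_mem hr2 3) (kZ_le_fld k2 f (cst_mem_kZ hv0))
    obtain ⟨hTr, -⟩ := test hTR2 hRA2 hDFT hT (by omega : s2 ≤ s) hD2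
    obtain ⟨P1, Q1, h1, h2, h3, h4⟩ := hREP (kZ k2) g u hu
    obtain ⟨P2, Q2, h5, h6, h7, h8⟩ := hREP (kZ k2) g v hv
    have hPQ2 := cond_mono (kZ_mono hk2) hPQ
    have hcond := ex_cond (ex_cond hPQ2 ⟨h1, h2, h3⟩) ⟨h5, h6, h7⟩
    obtain ⟨T, hT1, hT2⟩ := ih inferInstance s2 k2 hs2 hD2 (ex (ex P P1) P2) (ex (ex Q Q1) Q2)
      hcond (by
        rw [ext_eq, ext_eq, ← h4, ← h8]
        exact huv)
    obtain ⟨Hd, hHd, hHd'⟩ := exists_disc hA hB
    obtain ⟨He, hHe, hHe'⟩ := exists_eqn hA hB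
    obtain ⟨T3, hT31, hT32⟩ := hQFL (kZ k2) g ι _ ((QFO.zero Hd hHd).mono (hk0 hD2)) hTr
      P Q hPQ2
    obtain ⟨T4, hT41, hT42⟩ := hQFL (kZ k2) g (Option (Option ι)) _
      ((QFO.zero He hHe).mono (hk0 hD2)) hTr (ex (ex P P1) P2) (ex (ex Q Q1) Q2) hcond
    refine ⟨T ∪ T3 ∪ T4, (hT1.union hT31).union hT41, fun x hx => ?_⟩
    have hx0 : x ∉ T := fun hh => hx (Or.inl (Or.inl hh))
    have hx1 : x ∉ T3 := fun hh => hx (Or.inl (Or.inr hh))
    have hx2 : x ∉ T4 := fun hh => hx (Or.inr hh)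
    obtain ⟨h9, h10⟩ := hT2 x hx0
    obtain ⟨-, h11⟩ := hT32 x hx1
    obtain ⟨-, h12⟩ := hT42 x hx2
    rw [ext_eq, ext_eq] at h10
    rw [hHd', hHd'] at h11
    rw [ext_eq, ext_eq, ext_eq, ext_eq, hHe', hHe', ← h4, ← h8] at h12
    refine ⟨fun i => h9 (some (some i)), P1.eval x / Q1.eval x, P2.eval x / Q2.eval x, ?_, ?_,
      h10⟩
    · exact fun h0 => hdisc (h11.1 h0)
    · have h13 := h12.2 (sub_eq_zero.2 heqn)
      exact sub_eq_zero.1 h13

end SPD_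

theorem spd_proof (hREP : Stmt_REP) (hQFL : Stmt_QFL) (hQFT : Stmt_QFT) (hTR2 : Stmt_TR2)
    (hRA2 : Stmt_RA2) (hPT2 : Stmt_PT2) (hDFT : Stmt_DFT) : Stmt_SPD := by
  intro s k0 f _ hT N ι Φ hΦ hι s' k hs hD P Q hPQ h
  exact SPD_.main hREP hQFL hQFT hTR2 hRA2 hPT2 hDFT hT hΦ hι s' k hs hD P Q hPQ h

end

end EVS
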