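import Pool.Agent.EVS.Defs

/-!
# Squad EVS (MP_3e5173_lc): statements of the modules.  Recipes: /team-store/MP_3e5173_EVS.md
-/

set_option autoImplicit false

namespace EVS

open Polynomial EVR

/-! ## A. Derivations and Weierstrass equations -/

/-- the derivation `d/dZ` -/
def Stmt_DDZ : Prop :=
  ∃ E : Derivation ℤ K K, (∀ p : ℂ[X], E (pz p) = pz (derivative p)) ∧
    ∀ y : K, E y = 0 → ∃ c : ℂ, y = cst c

/-- the main lemma on solutions of a Weierstrass equation, general form. Uses ORD, ODR, LOC -/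
def Stmt_MTG : Prop :=
  ∀ (E : Derivation ℤ K K) (l : ℤ) (a b L : ℂ[X]) (u v : K),
    (∀ p : ℂ[X], ∃ q : ℂ[X], E (pz p) = pz q ∧ (q ≠ 0 → (q.natDegree : ℤ) ≤ p.natDegree + l)) →
    E (pz a) = 0 → E (pz b) = 0 → 4 * a ^ 3 + 27 * b ^ 2 ≠ 0 → L ≠ 0 →
    (∀ (c : ℂ) (j : ℕ), (X - C c) ^ (4 * j) ∣ a → (X - C c) ^ (6 * j) ∣ b → (X - C c) ^ j ∣ L) →
    ((a ≠ 0 ∧ 4 * (l + L.natDegree) < a.natDegree) ∨
      (b ≠ 0 ∧ 6 * (l + L.natDegree) < b.natDegree)) →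
    v ^ 2 = u ^ 3 + pz a * u + pz b → E u = 0 ∧ E v = 0

/-- points of constant elliptic curves are constant. Uses MTG, DDZ -/
def Stmt_CST : Prop :=
  ∀ (α β : ℂ) (u v : K), 4 * α ^ 3 + 27 * β ^ 2 ≠ 0 →
    v ^ 2 = u ^ 3 + cst α * u + cst β → ∃ u0 v0 : ℂ, u = cst u0 ∧ v = cst v0

/-- the elements killed by all derivations over `k`. Uses DER, EVD, INT -/
def Stmt_KER : Prop :=
  ∀ (k : Subfield ℂ) (y : K), Clo k →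
    (∀ (D : Derivation ℤ ℂ ℂ) (E : Derivation ℤ K K), IsExt D E → Kil k D → E y = 0) → y ∈ kZ k

/-- Weierstrass equations over `k[Z]`. Uses MTG, KER -/
def Stmt_CNZ : Prop :=
  ∀ (k : Subfield ℂ) (a b : Polynomial k) (u v : K), Clo k → Mnl (C a) (C b) →
    4 * a ^ 3 + 27 * b ^ 2 ≠ 0 → (0 < a.natDegree ∨ 0 < b.natDegree) →
    v ^ 2 = u ^ 3 + pz (a.map k.subtype) * u + pz (b.map k.subtype) → u ∈ kZ k ∧ v ∈ kZ k

/-! ## B. Elements with a derivative with respect to `f` -/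

/-- the derivative has a derivative -/
def Stmt_GNL : Prop :=
  ∀ (k : Subfield ℂ) (f : ℂ[X]) (y l : K), (∃ D : Derivation ℤ ℂ ℂ, Kil k D ∧ cd D f ≠ 0) →
    DP k f y l → ∃ m : K, DP k f l m

/-- `f` is transcendental -/
def Stmt_TR2 : Prop :=
  ∀ (k : Subfield ℂ) (f : ℂ[X]), (∃ D : Derivation ℤ ℂ ℂ, Kil k D ∧ cd D f ≠ 0) →
    Tr (kZ k) (pz f)

/-- elements of `k(Z)(f)` and algebraic elements have a derivative -/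
def Stmt_DPA : Prop :=
  ∀ (k : Subfield ℂ) (f : ℂ[X]) (w : K), IsAlgebraic (fld k f) w → ∃ m : K, DP k f w m

/-- the poles. Uses DER -/
def Stmt_GNP : Prop :=
  ∀ (k : Subfield ℂ) (f : ℂ[X]) (y l : K), Clo k → DP k f y l →
    ∃ (G : Polynomial (Polynomial k)) (p : ℂ[X]), G ≠ 0 ∧ y * pz (bev k f G) = pz p

/-- polynomials. Uses IDR, KER, GNL -/
def Stmt_GNI : Prop :=
  ∀ (k : Subfield ℂ) (f γ p : ℂ[X]) (e : ℕ) (l : K), Gd k f γ e → DP k f (pz p) l →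
    pz p ∈ fld k f

/-- the elements with a derivative with respect to `f`. Uses GNP, GNI, TR2 -/
def Stmt_GEN : Prop :=
  ∀ (k : Subfield ℂ) (f γ : ℂ[X]) (e : ℕ) (y l : K), Gd k f γ e → DP k f y l → y ∈ fld k f

/-- `k(Z)(f)` is relatively algebraically closed. Uses DPA, GEN -/
def Stmt_RA2 : Prop :=
  ∀ (k : Subfield ℂ) (f γ : ℂ[X]) (e : ℕ) (w : K), Gd k f γ e → IsAlgebraic (fld k f) w →
    w ∈ fld k f

/-! ## C. Minimality after substitution -/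

/-- the prime ideal of a point of the plane which is not on a vertical line over `k` -/
def Stmt_PRI : Prop :=
  ∀ (k : Subfield ℂ) (z1 z2 : ℂ) (A : Polynomial (Polynomial k)), Clo k → z1 ∉ k → A ≠ 0 →
    ev2 k z1 z2 A = 0 → ∃ π : Polynomial (Polynomial k), Irreducible π ∧ ev2 k z1 z2 π = 0 ∧
      ev2 k z1 z2 (derivative π) ≠ 0 ∧
      ∀ G : Polynomial (Polynomial k), ev2 k z1 z2 G = 0 → π ∣ G

/-- points not over `k`. Uses PRI -/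
def Stmt_DVA : Prop :=
  ∀ (k : Subfield ℂ) (f : ℂ[X]) (A B : Polynomial (Polynomial k)) (c : ℂ) (j : ℕ)
    (D : Derivation ℤ ℂ ℂ), Clo k → Tr (kZ k) (pz f) → Mnl A B → (A ≠ 0 ∨ B ≠ 0) → c ∉ k →
    (X - C c) ^ (4 * j) ∣ bev k f A → (X - C c) ^ (6 * j) ∣ bev k f B → Kil k D →
    (X - C c) ^ j ∣ cd D f

/-- points of the first kind over `k` -/
def Stmt_DVB : Prop :=
  ∀ (k : Subfield ℂ) (f : ℂ[X]) (A B : Polynomial (Polynomial k)) (c : ℂ) (j : ℕ), Clo k →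
    Mnl A B → (A ≠ 0 ∨ B ≠ 0) → c ∈ k → f.eval c ∉ k →
    (X - C c) ^ (4 * j) ∣ bev k f A → (X - C c) ^ (6 * j) ∣ bev k f B → j = 0

/-- points of the second kind over `k` -/
def Stmt_DVC : Prop :=
  ∀ (k : Subfield ℂ) (f : ℂ[X]) (c : ℂ), Clo k → Tr (kZ k) (pz f) → c ∈ k → f.eval c ∈ k →
    ∃ t : ℕ, 1 ≤ t ∧ (∀ D : Derivation ℤ ℂ ℂ, Kil k D → (X - C c) ^ t ∣ cd D f) ∧
      ∀ G : Polynomial (Polynomial k), G ≠ 0 → (bev k f G).rootMultiplicity c ≤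
        (G.leadingCoeff.map k.subtype).rootMultiplicity c + t * G.natDegree

/-- the loss of minimality. Uses DVA, DVB, DVC -/
def Stmt_ZLL : Prop :=
  ∀ (k : Subfield ℂ) (f γ : ℂ[X]) (A B : Polynomial (Polynomial k)), Clo k →
    Tr (kZ k) (pz f) → γ ≠ 0 → Gc k f γ → Mnl A B → (A ≠ 0 ∨ B ≠ 0) →
    ∃ L : ℂ[X], L ≠ 0 ∧
      (∀ (c : ℂ) (j : ℕ), (X - C c) ^ (4 * j) ∣ bev k f A → (X - C c) ^ (6 * j) ∣ bev k f B →
        (X - C c) ^ j ∣ L) ∧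
      (A ≠ 0 → 4 * L.natDegree ≤ 4 * γ.natDegree + A.leadingCoeff.natDegree +
        A.natDegree * γ.natDegree) ∧
      (B ≠ 0 → 6 * L.natDegree ≤ 6 * γ.natDegree + B.leadingCoeff.natDegree +
        B.natDegree * γ.natDegree)

/-- points over `ℂ(Z)`, derivations over `k'`. Uses MTG, ZLL -/
def Stmt_ZDR : Prop :=
  ∀ (k k' : Subfield ℂ) (f γ : ℂ[X]) (d e : ℕ) (A B : Polynomial (Polynomial k)) (u v : K),
    Clo k → k ≤ k' → Tr (kZ k) (pz f) → γ ≠ 0 → Gc k' f γ →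
    (∀ D : Derivation ℤ ℂ ℂ, Kil k' D → (cd D f).natDegree ≤ d) → Lg k f e →
    6 * d + 7 * γ.natDegree < e → Mnl A B → 4 * A ^ 3 + 27 * B ^ 2 ≠ 0 →
    (1 ≤ A.natDegree ∨ 1 ≤ B.natDegree) →
    v ^ 2 = u ^ 3 + pz (bev k f A) * u + pz (bev k f B) →
    (∃ l : K, DP k' f u l) ∧ ∃ l : K, DP k' f v l

/-! ## D. From `k'(Z)(f)` to `k(Z)(f)` -/

/-- homomorphisms defined on `k(Z)(f)` -/
def Stmt_UNV : Prop :=
  ∀ (k : Subfield ℂ) (f : ℂ[X]) (σ : k →+* ℂ) (z g : K), Tr (kZ k) (pz f) →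
    (∀ G : Polynomial (Polynomial k), G ≠ 0 →
      G.eval₂ (Polynomial.eval₂RingHom (cst.comp σ) z) g ≠ 0) →
    ∃ θ : (fld k f) →+* K, ∀ (G : Polynomial (Polynomial k)) (h : pz (bev k f G) ∈ fld k f),
      θ ⟨pz (bev k f G), h⟩ = G.eval₂ (Polynomial.eval₂RingHom (cst.comp σ) z) g

/-- minimality at a generic `z`. Uses PRI -/
def Stmt_RG1 : Prop :=
  ∀ (k : Subfield ℂ) (z c : ℂ) (A B : Polynomial (Polynomial k)), Clo k → z ∉ k → Mnl A B →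
    (A ≠ 0 ∨ B ≠ 0) → ¬ ((X - C c) ^ 4 ∣ ev1 k z A ∧ (X - C c) ^ 6 ∣ ev1 k z B)

/-- descent. Uses INT, RCL -/
def Stmt_RG3 : Prop :=
  ∀ (k k' κ : Subfield ℂ) (f : ℂ[X]) (z : ℂ) (θ : (fld k' f) →+* K) (u : fld k' f), Clo k →
    Clo k' → k ≤ k' → z ∉ k' → (∀ w : ℂ, w ∈ κ ↔ IsAlgebraic (ad k {z}) w) →
    (∀ (G : Polynomial (Polynomial k')) (h : pz (bev k' f G) ∈ fld k' f),
      θ ⟨pz (bev k' f G), h⟩ = pz (ev1 k' z G)) → θ u ∈ kZ κ → (u : K) ∈ fld k f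

/-- rigidity. Uses MTG, KER, UNV, RG1, RG3 -/
def Stmt_RIG : Prop :=
  ∀ (k k' : Subfield ℂ) (f : ℂ[X]) (A B : Polynomial (Polynomial k)) (u v : K), Clo k →
    Clo k' → k ≤ k' → (∃ z : ℂ, z ∉ k') → Tr (kZ k') (pz f) → Mnl A B →
    4 * A ^ 3 + 27 * B ^ 2 ≠ 0 → (1 ≤ A.natDegree ∨ 1 ≤ B.natDegree) →
    u ∈ fld k' f → v ∈ fld k' f → v ^ 2 = u ^ 3 + pz (bev k f A) * u + pz (bev k f B) →
    u ∈ fld k f ∧ v ∈ fld k f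

/-- minimal models over `k(Z)(f)`. Uses MML -/
def Stmt_MIN : Prop :=
  ∀ (k : Subfield ℂ) (f : ℂ[X]) (A B : K), Tr (kZ k) (pz f) → A ∈ fld k f → B ∈ fld k f →
    (A ≠ 0 ∨ B ≠ 0) → ∃ (r : K) (A' B' : Polynomial (Polynomial k)), r ∈ fld k f ∧ r ≠ 0 ∧
      Mnl A' B' ∧ A = r ^ 4 * pz (bev k f A') ∧ B = r ^ 6 * pz (bev k f B')

/-- points of elliptic curves over `k(Z)(f)`. Uses CST, CNZ, TR2, GEN, ZDR, RIG, MIN -/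
def Stmt_PT2 : Prop :=
  ∀ (s : ℕ) (k0 k : Subfield ℂ) (f : ℂ[X]) (A B u v : K), Tst s k0 f → Dft s k0 k →
    A ∈ fld k f → B ∈ fld k f → 4 * A ^ 3 + 27 * B ^ 2 ≠ 0 → v ^ 2 = u ^ 3 + A * u + B →
    (u ∈ fld k f ∧ v ∈ fld k f) ∨
      ∃ (r : K) (α β u0 v0 : ℂ), r ∈ fld k f ∧ r ≠ 0 ∧ α ∈ k ∧ β ∈ k ∧ A = r ^ 4 * cst α ∧
        B = r ^ 6 * cst β ∧ u = r ^ 2 * cst u0 ∧ v = r ^ 3 * cst v0

/-! ## E. Test polynomials -/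

/-- the closure with one more element -/
def Stmt_DFT : Prop :=
  (∀ (s s' : ℕ) (k0 k : Subfield ℂ), s ≤ s' → Dft s k0 k → Dft s' k0 k) ∧
  (∀ (s : ℕ) (k0 k : Subfield ℂ), Dft s k0 k → Clo k ∧ k0 ≤ k) ∧
  (∀ (s : ℕ) (k0 k k1 : Subfield ℂ) (c : ℂ), Dft s k0 k →
    (∀ z, z ∈ k1 ↔ IsAlgebraic (ad k {c}) z) → Dft (s + 1) k0 k1 ∧ k ≤ k1 ∧ c ∈ k1) ∧
  ∀ k0 : Subfield ℂ, Clo k0 → Dft 0 k0 k0

/-- independence over a larger field. Uses TDB -/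
def Stmt_TIN : Prop :=
  ∀ (k0 k k' : Subfield ℂ) (s m n : ℕ) (b : Fin m → ℂ) (a : Fin n → ℂ),
    AlgebraicIndependent k0 (Sum.elim b a) → Dft s k0 k →
    (∀ z, z ∈ k' ↔ IsAlgebraic (ad k (Set.range b)) z) →
    (s < m → ∃ j, b j ∉ k) ∧
    ∃ I : Finset (Fin n), n ≤ I.card + s ∧ AlgebraicIndependent k' (fun i : I => a i)

/-- dual derivations. Uses DER -/
def Stmt_TDR : Prop :=
  ∀ (k : Subfield ℂ) (n : ℕ) (a : Fin n → ℂ) (I : Finset (Fin n)),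
    AlgebraicIndependent k (fun i : I => a i) → ∀ i ∈ I, ∃ D : Derivation ℤ ℂ ℂ, Kil k D ∧
      D (a i) = 1 ∧ ∀ j ∈ I, j ≠ i → D (a j) = 0

/-- the greatest common divisor -/
def Stmt_TGC : Prop :=
  ∀ (S : Set ℂ[X]) (d n : ℕ) (g : Fin n → ℂ[X]), (∀ i, g i ∈ S) → LinearIndependent ℂ g →
    (∀ i, (g i).natDegree ≤ d) → 0 < n →
    ∃ γ : ℂ[X], γ ≠ 0 ∧ (∀ q : ℂ[X], (∀ p ∈ S, q ∣ p) → q ∣ γ) ∧ γ.natDegree + n ≤ d + 1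

/-- the degree of `G(Z, f)` -/
def Stmt_TTP : Prop :=
  ∀ (k : Subfield ℂ) (f : ℂ[X]) (M s : ℕ), Clo k → f.natDegree ≤ M → s ≤ M →
    (∃ j ≤ s, f.coeff (M - j) ∉ k) → Lg k f (M - s)

/-- existence of test polynomials. Uses DER, TIN, TDR, TGC, TTP, DFT -/
def Stmt_TST : Prop :=
  ∀ k0 : Subfield ℂ, Clo k0 → (∀ n : ℕ, ∃ a : Fin n → ℂ, AlgebraicIndependent k0 a) →
    ∀ s : ℕ, ∃ f : ℂ[X], f.eval 0 ≠ 0 ∧ Tst s k0 f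

/-! ## F. Existential conditions -/

/-- the parameters of a condition -/
def Stmt_CO2 : Prop :=
  (∀ (ι : Type) (Φ : (ι → K) → Prop), BP ι Φ → ∃ (S : Finset K) (N : ℕ),
    ∀ F : Subfield K, (S : Set K) ⊆ F → BPO F N ι Φ) ∧
  ∀ (ι : Type) (Φ : (ι → K) → Prop), BF ι Φ → ∃ (S : Finset K) (N : ℕ),
    ∀ F : Subfield K, (S : Set K) ⊆ F → BFO F N ι Φ

/-- specialisation. Uses REP, QFL, QFT, TR2, RA2, PT2, DFT -/
def Stmt_SPD : Prop :=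
  ∀ (s : ℕ) (k0 : Subfield ℂ) (f : ℂ[X]), Clo k0 → Tst s k0 f →
    ∀ (N : ℕ) (ι : Type) (Φ : (ι → K) → Prop), BPO (kZ k0) N ι Φ → Finite ι →
    ∀ (s' : ℕ) (k : Subfield ℂ), s' + N ≤ s → Dft s' k0 k → ∀ P Q : ι → K[X],
      (∀ i, Co (kZ k) (P i) ∧ Co (kZ k) (Q i) ∧ (Q i).eval (pz f) ≠ 0) →
      Φ (fun i => (P i).eval (pz f) / (Q i).eval (pz f)) →
      ∃ T : Set K, T.Finite ∧ ∀ h : K, h ∉ T → (∀ i, (Q i).eval h ≠ 0) ∧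
        Φ (fun i => (P i).eval h / (Q i).eval h)

/-- first theorem. Uses COL, FLD, CO2, TST, DFT, SPD -/
def Stmt_FI1 : Prop :=
  ∀ Φ : (Unit → K) → Prop, BP Unit Φ → (∀ p : ℂ[X], Φ (fun _ => pz p)) →
    {x : K | ¬ Φ (fun _ => x)}.Finite

/-! ## G. First-order conditions -/

/-- quantifier-free conditions are invariant -/
def Stmt_QIN : Prop :=
  ∀ (F : Subfield K) (X : Type) [Field X] (ε1 ε2 : X →+* K),
    (∀ g ∈ F, ∃ x, ε1 x = g ∧ ε2 x = g) → ∀ (ι : Type) (Φ : (ι → K) → Prop), QFO F ι Φ →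
    ∀ y : ι → X, Φ (fun i => ε1 (y i)) ↔ Φ (fun i => ε2 (y i))

/-- extension of embeddings of `k` -/
def Stmt_EXS : Prop :=
  ∀ (k k' k2 : Subfield ℂ) (σ : k →+* ℂ) (c c' : ℂ), Clo k → (∀ z, z ∈ k2 ↔ ∃ x, σ x = z) →
    c ∉ k → c' ∉ k2 → (∀ z, z ∈ k' ↔ IsAlgebraic (ad k {c}) z) →
    ∃ σ' : k' →+* ℂ, (∀ (z : ℂ) (h : z ∈ k) (h' : z ∈ k'), σ' ⟨z, h'⟩ = σ ⟨z, h⟩) ∧
      (∀ h : c ∈ k', σ' ⟨c, h⟩ = c') ∧
      ∀ z, (∃ x, σ' x = z) ↔ IsAlgebraic (ad k2 {c'}) z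

/-- extension of pairs of embeddings. Uses UNV, EXS, DFT, TR2 -/
def Stmt_EXP : Prop :=
  ∀ (s s' : ℕ) (k0 : Subfield ℂ) (f : ℂ[X]), Tst s k0 f → s' < s →
    ∀ (X : Type) [Field X] (ε1 ε2 : X →+* K), Par s' k0 f ε1 ε2 → ∀ c : ℂ,
    ∃ (X' : Type) (_ : Field X') (j : X →+* X') (ε1' ε2' : X' →+* K),
      Par (s' + 1) k0 f ε1' ε2' ∧ (∀ x, ε1' (j x) = ε1 x) ∧ (∀ x, ε2' (j x) = ε2 x) ∧
      ∃ x', ε1' x' = cst c

/-- invariance of the conditions. Uses QFT, TR2, RA2, PT2, DFT, QIN, EXP -/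
def Stmt_INV : Prop :=
  ∀ (s : ℕ) (k0 : Subfield ℂ) (f : ℂ[X]), Tst s k0 f →
    ∀ (N : ℕ) (ι : Type) (Φ : (ι → K) → Prop), BFO (kZ k0) N ι Φ →
    ∀ s' : ℕ, s' + N ≤ s → ∀ (X : Type) [Field X] (ε1 ε2 : X →+* K), Par s' k0 f ε1 ε2 →
    ∀ y : ι → X, Φ (fun i => ε1 (y i)) ↔ Φ (fun i => ε2 (y i))

/-- second theorem. Uses COL, FLD, CO2, TST, UNV, DFT, TR2, INV -/
def Stmt_FI2 : Prop :=
  ∀ Φ : (Unit → K) → Prop, BF Unit Φ → {x : K | Φ (fun _ => x)} ≠ O0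

end EVS
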