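import Pool.Agent.EVS.Api

/-!
# Squad EVS, module TDR: dual derivations
-/

set_option autoImplicit false

namespace EVS

open Polynomial EVR

namespace TDR_

theorem alg_of_ad (k : Subfield ℂ) (S : Set ℂ) (z : ℂ) (h : IsAlgebraic (ad k S) z) :
    IsAlgebraic (Algebra.adjoin k S) z := by
  rw [← IntermediateField.isAlgebraic_adjoin_iff]
  have e : (IntermediateField.adjoin k S).toSubfield = ad k S := by
    unfold ad
    rw [IntermediateField.adjoin_toSubfield]
    congr 1
    congr 1
    ext w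
    constructor
    · rintro ⟨x, rfl⟩
      exact x.2
    · intro hw
      exact ⟨⟨w, hw⟩, rfl⟩
  have h' : IsAlgebraic (IntermediateField.adjoin k S).toSubfield z := by
    rw [e]
    exact h
  exact h'

end TDR_

open TDR_ in
theorem tdr_proof (hDER : Stmt_DER) : Stmt_TDR := by
  intro k n a I hI i hi
  have h1 := (AlgebraicIndependent.iff_transcendental_adjoin_image (R := k)
      (x := fun j : I => a j) ⟨i, hi⟩).1 hI
  have h2 : ¬ IsAlgebraic (ad k ((fun j : I => a j) '' ({⟨i, hi⟩}ᶜ : Set I))) (a i) :=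
    fun h => h1.2 (alg_of_ad k _ _ h)
  obtain ⟨D, hD, hDi⟩ := hDER _ _ h2
  refine ⟨D, fun z hz => hD z (le_ad k _ hz), hDi, fun j hj hji => hD _ (mem_ad k ?_)⟩
  refine ⟨⟨j, hj⟩, ?_, rfl⟩
  intro h
  exact hji (congrArg Subtype.val (Set.mem_singleton_iff.1 h))

end EVS
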