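import Pool.Agent.EVS.Api

set_option autoImplicit false

namespace EVS

open Polynomial EVR

namespace TGC_

lemma span_dvd {S : Set ℂ[X]} {q γ : ℂ[X]} (hγ : γ ∈ Ideal.span S) (hq : ∀ p ∈ S, q ∣ p) : q ∣ γ := by
  have h : Ideal.span S ≤ Ideal.span {q} := by
    rw [Ideal.span_le]
    intro p hp
    exact Ideal.mem_span_singleton.2 (hq p hp)
  exact Ideal.mem_span_singleton.1 (h hγ)

end TGC_

theorem tgc_proof : Stmt_TGC := by
  intro S d n g hg hli hd hn
  obtain ⟨γ, hγ⟩ := (IsPrincipalIdealRing.principal (Ideal.span S)).principal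
  have hγmem : γ ∈ Ideal.span S := by
    rw [hγ]
    exact Submodule.mem_span_singleton_self γ
  have hdvd : ∀ i, γ ∣ g i := by
    intro i
    have h1 : g i ∈ Ideal.span S := Ideal.subset_span (hg i)
    rw [hγ] at h1
    exact Ideal.mem_span_singleton.1 h1
  have hg0 : ∀ i, g i ≠ 0 := fun i => hli.ne_zero i
  have hγ0 : γ ≠ 0 := by
    intro h0
    have := hdvd ⟨0, hn⟩
    rw [h0, zero_dvd_iff] at this
    exact hg0 _ this
  refine ⟨γ, hγ0, fun q hq => TGC_.span_dvd hγmem hq, ?_⟩
  choose h hh using hdvd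
  have hh0 : ∀ i, h i ≠ 0 := by
    intro i h0
    apply hg0 i
    rw [hh i, h0, mul_zero]
  have hdeg : ∀ i, γ.natDegree + (h i).natDegree ≤ d := by
    intro i
    rw [← natDegree_mul hγ0 (hh0 i), ← hh i]
    exact hd i
  have hγd : γ.natDegree ≤ d := (Nat.le_add_right _ _).trans (hdeg ⟨0, hn⟩)
  -- independence of the `h i`
  have hli' : LinearIndependent ℂ h := by
    have h1 : g = (LinearMap.mulLeft ℂ γ) ∘ h := by
      funext i
      rw [Function.comp_apply, LinearMap.mulLeft_apply]
      exact hh i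
    rw [h1] at hli
    exact LinearIndependent.of_comp _ hli
  have hmem : ∀ i, h i ∈ degreeLT ℂ (d - γ.natDegree + 1) := by
    intro i
    rw [mem_degreeLT]
    have := hdeg i
    refine lt_of_le_of_lt degree_le_natDegree ?_
    have h2 : (h i).natDegree < d - γ.natDegree + 1 := by omega
    exact_mod_cast h2
  have hli2 : LinearIndependent ℂ (fun i => (⟨h i, hmem i⟩ : degreeLT ℂ (d - γ.natDegree + 1))) := by
    have : h = (degreeLT ℂ (d - γ.natDegree + 1)).subtype ∘
        (fun i => (⟨h i, hmem i⟩ : degreeLT ℂ (d - γ.natDegree + 1))) := by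
      funext i
      rfl
    rw [this] at hli'
    exact LinearIndependent.of_comp _ hli'
  haveI : Module.Finite ℂ (degreeLT ℂ (d - γ.natDegree + 1)) :=
    Module.Finite.equiv (degreeLTEquiv ℂ (d - γ.natDegree + 1)).symm
  have hcard := hli2.fintype_card_le_finrank
  rw [Fintype.card_fin, LinearEquiv.finrank_eq (degreeLTEquiv ℂ (d - γ.natDegree + 1)),
    Module.finrank_fin_fun] at hcard
  omega

end EVS
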