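import Pool.Agent.EVS.Api

/-!
Module TIN: independence over a larger field.
-/

set_option autoImplicit false

namespace EVS

open Polynomial EVR

namespace TIN_

theorem isAlg_ad {k : Subfield ℂ} {S : Set ℂ} {z : ℂ} (h : IsAlgebraic (Algebra.adjoin k S) z) :
    IsAlgebraic (ad k S) z := by
  have hle : ∀ x ∈ Algebra.adjoin k S, x ∈ ad k S := by
    intro x hx
    induction hx using Algebra.adjoin_induction with
    | mem x hx => exact mem_ad k hx
    | algebraMap r => exact le_ad k S r.2
    | add x y _ _ hx hy => exact add_mem hx hy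
    | mul x y _ _ hx hy => exact mul_mem hx hy
  obtain ⟨P, hP, h0⟩ := h
  refine isAlgebraic_iff.2 ⟨P.map (algebraMap (Algebra.adjoin k S) ℂ), fun n => ?_, ?_, ?_⟩
  · rw [coeff_map]
    exact hle _ (P.coeff n).2
  · rw [Ne, Polynomial.map_eq_zero_iff Subtype.val_injective]
    exact hP
  · rw [eval_map]
    exact h0

end TIN_

open TIN_ in
theorem tin_proof (hTDB : Stmt_TDB) : Stmt_TIN := by
  intro k0 k k' s m n b a hind hk hk'
  obtain ⟨c, hc⟩ := hk
  constructor
  · intro hsm
    by_contra hcon
    push Not at hcon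
    have h1 : AlgebraicIndependent k0 (fun i : Fin (s + 1) => b (Fin.castLE hsm i)) :=
      hind.comp (fun i : Fin (s + 1) => (Sum.inl (Fin.castLE hsm i) : Fin m ⊕ Fin n))
        (Sum.inl_injective.comp (Fin.castLE_injective hsm))
    obtain ⟨i, hi⟩ := hTDB k0 s _ c h1
    exact hi ((hc _).1 (hcon _))
  · rcases isEmpty_or_nonempty (Fin n) with hne | hne
    · refine ⟨∅, ?_, ?_⟩
      · have hn : n = 0 := by
          by_contra h0
          exact hne.false ⟨0, Nat.pos_of_ne_zero h0⟩
        omega
      · have : IsEmpty ((∅ : Finset (Fin n)) : Type) := ⟨fun i => hne.false i.1⟩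
        exact algebraicIndependent_empty_type_iff.2 Subtype.val_injective
    obtain ⟨B, hB⟩ := (AlgebraicIndependent.matroid k' ℂ).exists_isBasis (Set.range a)
      (Set.subset_univ _)
    have hBs : B ⊆ Set.range a := hB.subset
    have hix : ∀ x, x ∈ B → ∃ i, a i = x := fun x hx => hBs hx
    choose! ix hix using hix
    have hBi : AlgebraicIndependent k' (fun x : B => (x : ℂ)) :=
      (AlgebraicIndependent.matroid_indep_iff).1 hB.indep
    set I : Finset (Fin n) := (Set.toFinite (ix '' B)).toFinset with hI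
    have hIm : ∀ i, i ∈ I ↔ i ∈ ix '' B := fun i => Set.Finite.mem_toFinset _
    have hIB : ∀ i ∈ I, a i ∈ B ∧ ix (a i) = i := by
      intro i hi
      obtain ⟨x, hx, rfl⟩ := (hIm i).1 hi
      rw [hix x hx]
      exact ⟨hx, rfl⟩
    refine ⟨I, ?_, ?_⟩
    · by_contra hlt
      push Not at hlt
      let g : Fin s ⊕ (Fin m ⊕ I) → ℂ := Sum.elim c (Sum.elim b fun i => a i)
      have hcard : Fintype.card (Fin s ⊕ (Fin m ⊕ I)) = s + (m + I.card) := by
        simp
      let e : Fin (s + (m + I.card)) ≃ Fin s ⊕ (Fin m ⊕ I) :=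
        (Fintype.equivFinOfCardEq hcard).symm
      obtain ⟨F, hF1, hF2, hF3⟩ := exists_acl (ad k0 (Set.range (g ∘ e)))
      have hgF : ∀ j, g j ∈ F := by
        intro j
        refine hF1 (mem_ad k0 ⟨e.symm j, ?_⟩)
        show g (e (e.symm j)) = g j
        rw [Equiv.apply_symm_apply]
      have hkF0 : k0 ≤ F := (le_ad k0 _).trans hF1
      have hkF : k ≤ F := by
        intro z hz
        refine hF2 z (isAlgebraic_mono ?_ ((hc z).1 hz))
        refine ad_le hkF0 ?_
        rintro _ ⟨j, rfl⟩
        exact hgF (Sum.inl j)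
      have hbF : ∀ j, b j ∈ F := fun j => hgF (Sum.inr (Sum.inl j))
      have hk'F : k' ≤ F := by
        intro z hz
        refine hF2 z (isAlgebraic_mono ?_ ((hk' z).1 hz))
        refine ad_le hkF ?_
        rintro _ ⟨j, rfl⟩
        exact hbF j
      have hBF : B ⊆ F := by
        intro x hx
        have h1 : ix x ∈ I := (hIm _).2 ⟨x, hx, rfl⟩
        have h2 := hgF (Sum.inr (Sum.inr ⟨ix x, h1⟩))
        have h3 : g (Sum.inr (Sum.inr ⟨ix x, h1⟩)) = x := hix x hx
        rw [h3] at h2
        exact h2
      have haF : ∀ j, a j ∈ F := by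
        intro j
        have h1 : a j ∈ (AlgebraicIndependent.matroid k' ℂ).closure B :=
          hB.subset_closure ⟨j, rfl⟩
        rw [AlgebraicIndependent.matroid_closure_eq, SetLike.mem_coe,
          Subalgebra.mem_algebraicClosure] at h1
        exact hF2 _ (isAlgebraic_mono (ad_le hk'F hBF) (isAlg_ad h1))
      have hle : s + (m + I.card) + 1 ≤ m + n := by omega
      have h1 : AlgebraicIndependent k0 (fun i : Fin (s + (m + I.card) + 1) =>
          Sum.elim b a (finSumFinEquiv.symm (Fin.castLE hle i))) :=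
        hind.comp (fun i : Fin (s + (m + I.card) + 1) =>
          finSumFinEquiv.symm (Fin.castLE hle i))
          (finSumFinEquiv.symm.injective.comp (Fin.castLE_injective hle))
      obtain ⟨i, hi⟩ := hTDB k0 _ _ (g ∘ e) h1
      apply hi
      rw [← hF3]
      rcases finSumFinEquiv.symm (Fin.castLE hle i) with j | j
      · exact hbF j
      · exact haF j
    · refine hBi.comp (fun i : I => (⟨a i, (hIB i i.2).1⟩ : B)) ?_
      intro i j hij
      have h1 : a i = a j := congrArg Subtype.val hij
      apply Subtype.ext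
      rw [← (hIB i i.2).2, ← (hIB j j.2).2, h1]

end EVS
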