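import Pool.Agent.EVS.Api

/-!
# Squad EVS, module TR2: `f` is transcendental over `k(Z)`
-/

set_option autoImplicit false

namespace EVS

open Polynomial EVR

namespace TR2_

/-- a derivation on the value of a polynomial whose coefficients it kills -/
theorem E_eval {E : Derivation ℤ K K} (P : K[X]) (hP : ∀ n, E (P.coeff n) = 0) (x : K) :
    E (P.eval x) = (derivative P).eval x * E x := by
  rw [eval_eq_sum_range, map_sum, derivative_eval, sum_over_range' _ _ (P.natDegree + 1) (by omega),
    Finset.sum_mul]
  · refine Finset.sum_congr rfl fun i _ => ?_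
    rw [Derivation.leibniz, hP, Derivation.leibniz_pow]
    simp only [smul_eq_mul, nsmul_eq_mul, mul_zero, add_zero]
    ring
  · intro n
    simp

end TR2_

theorem tr2_proof : Stmt_TR2 := by
  rintro k f ⟨D, hD, hf⟩
  obtain ⟨E, hE⟩ := exists_ext D
  have hEf : E (pz f) ≠ 0 := by
    rw [E_pz hE, pz_ne_zero]
    exact hf
  have key : ∀ (n : ℕ) (P : K[X]), P.natDegree = n → (∀ m, P.coeff m ∈ kZ k) →
      P.eval (pz f) = 0 → P = 0 := by
    intro n
    induction n with
    | zero =>
      intro P hn hP h0
      rw [eq_C_of_natDegree_eq_zero hn, eval_C] at h0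
      rw [eq_C_of_natDegree_eq_zero hn, h0, C_0]
    | succ n ih =>
      intro P hn hP h0
      have h1 := TR2_.E_eval (E := E) P (fun m => E_kZ hE hD (hP m)) (pz f)
      rw [h0, map_zero] at h1
      have h2 : (derivative P).eval (pz f) = 0 := by
        rcases mul_eq_zero.1 h1.symm with h | h
        · exact h
        · exact absurd h hEf
      have h3 : (derivative P).natDegree = n := by
        rw [natDegree_derivative, hn, Nat.add_sub_cancel]
      have h4 := ih (derivative P) h3 (fun m => by
        rw [coeff_derivative]
        exact mul_mem (hP _) (add_mem (natCast_mem _ m) (one_mem _))) h2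
      have h5 := derivative_eq_zero.1 h4
      omega
  intro P hP h0
  exact key _ P rfl hP h0

end EVS
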