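import Pool.Agent.EVS.Api

/-!
# Squad EVS (MP_3e5173_lc): module TST (existence of test polynomials)
-/

set_option autoImplicit false

namespace EVS

open Polynomial EVR

noncomputable section

namespace TST_

/-- the test polynomial -/
def tf (s d M : ℕ) (b : Fin (s + 1) → ℂ) (a : Fin (d + 1) → ℂ) : ℂ[X] :=
  (∑ j : Fin (s + 1), C (b j) * X ^ (M - (j : ℕ))) + ∑ i : Fin (d + 1), C (a i) * X ^ (i : ℕ)

theorem tf_coeff (s d M : ℕ) (b : Fin (s + 1) → ℂ) (a : Fin (d + 1) → ℂ) (n : ℕ) :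
    (tf s d M b a).coeff n = (∑ j : Fin (s + 1), if n = M - (j : ℕ) then b j else 0) +
      ∑ i : Fin (d + 1), if n = (i : ℕ) then a i else 0 := by
  rw [tf, coeff_add, finsetSum_coeff, finsetSum_coeff]
  simp only [coeff_C_mul, coeff_X_pow, mul_ite, mul_one, mul_zero]

theorem tf_coeff_low {s d M : ℕ} (h : d + s < M) (b : Fin (s + 1) → ℂ) (a : Fin (d + 1) → ℂ)
    (i : Fin (d + 1)) : (tf s d M b a).coeff i = a i := by
  have hi := i.2
  rw [tf_coeff, Finset.sum_eq_zero, zero_add, Finset.sum_eq_single i]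
  · rw [if_pos rfl]
  · intro j _ hj
    rw [if_neg]
    intro h1
    exact hj (Fin.ext h1.symm)
  · intro h1
    exact absurd (Finset.mem_univ i) h1
  · intro j _
    have hj := j.2
    rw [if_neg (by omega)]

theorem tf_coeff_high {s d M : ℕ} (h : d + s < M) (b : Fin (s + 1) → ℂ) (a : Fin (d + 1) → ℂ)
    (j : Fin (s + 1)) : (tf s d M b a).coeff (M - (j : ℕ)) = b j := by
  have hj := j.2
  rw [tf_coeff, Finset.sum_eq_single j, if_pos rfl, Finset.sum_eq_zero, add_zero]
  · intro i _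
    have hi := i.2
    rw [if_neg (by omega)]
  · intro j' _ hj'
    have := j'.2
    rw [if_neg]
    intro h1
    exact hj' (Fin.ext (by omega))
  · intro h1
    exact absurd (Finset.mem_univ j) h1

theorem tf_coeff_mem {s d M : ℕ} (b : Fin (s + 1) → ℂ) (a : Fin (d + 1) → ℂ)
    (k : Subfield ℂ) (hb : ∀ j, b j ∈ k) (n : ℕ) (hn : d < n) :
    (tf s d M b a).coeff n ∈ k := by
  rw [tf_coeff]
  have h1 : ∑ i : Fin (d + 1), (if n = (i : ℕ) then a i else 0) = 0 := by
    refine Finset.sum_eq_zero fun i _ => ?_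
    have hi := i.2
    rw [if_neg (by omega)]
  rw [h1, add_zero]
  refine Subfield.sum_mem _ fun j _ => ?_
  split_ifs
  · exact hb j
  · exact zero_mem k

theorem tf_natDegree_le {s d M : ℕ} (h : d + s < M) (b : Fin (s + 1) → ℂ)
    (a : Fin (d + 1) → ℂ) : (tf s d M b a).natDegree ≤ M := by
  rw [natDegree_le_iff_coeff_eq_zero]
  intro n hn
  rw [tf_coeff, Finset.sum_eq_zero, zero_add, Finset.sum_eq_zero]
  · intro i _
    have hi := i.2
    rw [if_neg (by omega)]
  · intro j _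
    rw [if_neg (by omega)]

theorem tf_eval {s d M : ℕ} (h : d + s < M) (b : Fin (s + 1) → ℂ) (a : Fin (d + 1) → ℂ) :
    (tf s d M b a).eval 0 = a 0 := by
  rw [← coeff_zero_eq_eval_zero]
  exact tf_coeff_low h b a 0

/-- derivatives which kill `b` -/
theorem cd_natDegree_le {s d M : ℕ} (b : Fin (s + 1) → ℂ) (a : Fin (d + 1) → ℂ)
    (k : Subfield ℂ) (hb : ∀ j, b j ∈ k) (D : Derivation ℤ ℂ ℂ) (hD : Kil k D) :
    (cd D (tf s d M b a)).natDegree ≤ d := by
  rw [natDegree_le_iff_coeff_eq_zero]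
  intro n hn
  rw [cd_coeff]
  exact hD _ (tf_coeff_mem b a k hb n hn)

theorem le_natDegree_cd {D : Derivation ℤ ℂ ℂ} {f : ℂ[X]} {n : ℕ} (h : D (f.coeff n) = 1) :
    n ≤ (cd D f).natDegree := by
  refine le_natDegree_of_ne_zero ?_
  rw [cd_coeff, h]
  exact one_ne_zero

/-- the largest element of a finite set of numbers -/
theorem exists_large {m : ℕ} (I : Finset (Fin m)) (hI : 0 < I.card) :
    ∃ i ∈ I, I.card ≤ (i : ℕ) + 1 := by
  by_contra hcon
  push Not at hcon
  have h1 : (I.image (fun i : Fin m => (i : ℕ))).card = I.card :=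
    Finset.card_image_of_injective _ Fin.val_injective
  have h2 : I.image (fun i : Fin m => (i : ℕ)) ⊆ Finset.range (I.card - 1) := by
    intro x hx
    rw [Finset.mem_image] at hx
    obtain ⟨i, hi, rfl⟩ := hx
    rw [Finset.mem_range]
    have := hcon i hi
    omega
  have h3 := Finset.card_le_card h2
  rw [h1, Finset.card_range] at h3
  omega

end TST_

open TST_

theorem tst_proof (hDER : Stmt_DER) (hTIN : Stmt_TIN) (hTDR : Stmt_TDR) (hTGC : Stmt_TGC)
    (hTTP : Stmt_TTP) (hDFT : Stmt_DFT) : Stmt_TST := by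
  intro k0 hk0 hind s
  obtain ⟨d, hd⟩ : ∃ d : ℕ, d = 3 * s + 1 := ⟨_, rfl⟩
  obtain ⟨M, hM⟩ : ∃ M : ℕ, M = 6 * d + 9 * s + 2 := ⟨_, rfl⟩
  obtain ⟨t, ht⟩ := hind ((s + 1) + (d + 1))
  obtain ⟨b, hb⟩ : ∃ b : Fin (s + 1) → ℂ, b = fun j => t (Fin.castAdd (d + 1) j) := ⟨_, rfl⟩
  obtain ⟨a, ha⟩ : ∃ a : Fin (d + 1) → ℂ, a = fun i => t (Fin.natAdd (s + 1) i) := ⟨_, rfl⟩
  have hba : AlgebraicIndependent k0 (Sum.elim b a) := by
    have h1 : Sum.elim b a = t ∘ finSumFinEquiv := by
      funext x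
      rcases x with x | x
      · simp [hb]
      · simp [ha]
    rw [h1]
    exact ht.comp _ finSumFinEquiv.injective
  have hMd : d + s < M := by omega
  refine ⟨tf s d M b a, ?_, ?_⟩
  · rw [tf_eval hMd]
    have := hba.ne_zero (Sum.inr 0)
    exact this
  · intro k hk
    obtain ⟨hkc, hk0k⟩ := hDFT.2.1 s k0 k hk
    obtain ⟨k', hk1, hk2, hk3⟩ := exists_acl (ad k (Set.range b))
    have hkk' : k ≤ k' := (le_ad k _).trans hk1
    have hbk' : ∀ j, b j ∈ k' := fun j => hk1 (mem_ad k ⟨j, rfl⟩)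
    obtain ⟨hj, I, hI, hIa⟩ := hTIN k0 k k' s (s + 1) (d + 1) b a hba hk hk3
    obtain ⟨j, hj⟩ := hj (Nat.lt_succ_self s)
    have hD := hTDR k' (d + 1) a I hIa
    -- derivations dual to the elements of I
    choose! Dv hDv1 hDv2 hDv3 using hD
    have hcard : 0 < I.card := by omega
    obtain ⟨γ, hγ0, hγ1, hγ2⟩ := hTGC {p | ∃ D : Derivation ℤ ℂ ℂ, Kil k' D ∧
      p = cd D (tf s d M b a)} d I.card
      (fun x => cd (Dv (I.equivFin.symm x)) (tf s d M b a))
      (fun x => ⟨_, hDv1 _ (I.equivFin.symm x).2, rfl⟩)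
      (by
        rw [Fintype.linearIndependent_iff]
        intro g hg x
        have h1 := congrArg (fun p : ℂ[X] => p.coeff ((I.equivFin.symm x : Fin (d + 1)) : ℕ)) hg
        simp only [finsetSum_coeff, coeff_smul, cd_coeff, tf_coeff_low hMd, coeff_zero,
          smul_eq_mul] at h1
        rw [Finset.sum_eq_single x] at h1
        · rw [hDv2 _ (I.equivFin.symm x).2, mul_one] at h1
          exact h1
        · intro y _ hy
          rw [hDv3 _ (I.equivFin.symm y).2 _ (I.equivFin.symm x).2, mul_zero]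
          intro h2
          exact hy (I.equivFin.symm.injective (Subtype.ext h2.symm))
        · intro h2
          exact absurd (Finset.mem_univ x) h2)
      (fun x => cd_natDegree_le b a k' hbk' _ (hDv1 _ (I.equivFin.symm x).2))
      hcard
    have hγs : γ.natDegree ≤ s := by omega
    have hgc : Gc k' (tf s d M b a) γ := by
      intro q hq
      refine hγ1 q ?_
      rintro p ⟨D, hD, rfl⟩
      exact hq D hD
    obtain ⟨i, hi, hi'⟩ := exists_large I hcard
    refine ⟨k', γ, d, M - s, d - s, hkk', ?_, ?_, ?_, ?_, ?_, ?_⟩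
    · refine ⟨a i, fun h => ?_⟩
      have h1 : Transcendental k' (a i) := hIa.transcendental ⟨i, hi⟩
      exact h1 (isAlgebraic_of_mem h)
    · refine ⟨hkc, hγ0, hgc.mono hkk', ?_, by omega⟩
      obtain ⟨D, hD1, hD2⟩ := hDER k (b j) (fun h => hj (hkc _ h))
      refine ⟨D, hD1, ?_⟩
      have h1 : M - (j : ℕ) ≤ (cd D (tf s d M b a)).natDegree :=
        le_natDegree_cd (by rw [tf_coeff_high hMd, hD2])
      have := j.2
      omega
    · refine ⟨hk2, hγ0, hgc, ?_, by omega⟩
      refine ⟨Dv i, hDv1 i hi, ?_⟩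
      have h1 : (i : ℕ) ≤ (cd (Dv i) (tf s d M b a)).natDegree :=
        le_natDegree_cd (by rw [tf_coeff_low hMd, hDv2 i hi])
      omega
    · intro D hD
      exact cd_natDegree_le b a k' hbk' D hD
    · refine hTTP k _ M s hkc (tf_natDegree_le hMd b a) (by omega) ⟨(j : ℕ), ?_, ?_⟩
      · have := j.2
        omega
      · rw [tf_coeff_high hMd]
        exact hj
    · omega

end

end EVS
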