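import Pool.Agent.EVS.Api

set_option autoImplicit false

namespace EVS

open Polynomial EVR

noncomputable section

namespace TTP_

/-- the values at `h + e` -/
theorem bev_taylor (k : Subfield ℂ) (h : ℂ[X]) (e : Polynomial k)
    (G : Polynomial (Polynomial k)) :
    bev k h (taylor e G) = bev k (h + e.map k.subtype) G := by
  show (taylor e G).eval₂ (Polynomial.mapRingHom k.subtype) h =
    G.eval₂ (Polynomial.mapRingHom k.subtype) (h + e.map k.subtype)
  rw [taylor_apply, eval₂_comp, eval₂_add, eval₂_X, eval₂_C]
  rfl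

/-- the bound for a polynomial with leading coefficient outside `k` -/
theorem bound {k : Subfield ℂ} (hk : Clo k) (h : ℂ[X]) (D : ℕ) (hD : h.natDegree ≤ D)
    (hc : h.coeff D ∉ k) (H : Polynomial (Polynomial k)) (i : ℕ) (hi : H.coeff i ≠ 0) :
    (H.coeff i).natDegree + D * i ≤ (bev k h H).natDegree := by
  classical
  let φ : ℕ → ℕ := fun i => (H.coeff i).natDegree + D * i
  obtain ⟨i0, hi0, hmax⟩ := Finset.exists_max_image H.support φ ⟨i, mem_support_iff.2 hi⟩
  refine (hmax i (mem_support_iff.2 hi)).trans ?_
  let R : Polynomial k := ∑ j ∈ H.support.filter (fun j => D * j ≤ φ i0),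
    monomial j ((H.coeff j).coeff (φ i0 - D * j))
  have hi0' : i0 ∈ H.support.filter (fun j => D * j ≤ φ i0) :=
    Finset.mem_filter.2 ⟨hi0, Nat.le_add_left _ _⟩
  have hR : R ≠ 0 := by
    intro hR
    have h1 : R.coeff i0 = 0 := by rw [hR, coeff_zero]
    have h2 : R.coeff i0 = (H.coeff i0).coeff (φ i0 - D * i0) := by
      show (∑ j ∈ _, monomial j _).coeff i0 = _
      rw [finsetSum_coeff, Finset.sum_eq_single i0]
      · rw [coeff_monomial, if_pos rfl]
      · intro j _ hj
        rw [coeff_monomial, if_neg hj]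
      · intro h'
        exact absurd hi0' h'
    have h3 : φ i0 - D * i0 = (H.coeff i0).natDegree := Nat.add_sub_cancel _ _
    rw [h3] at h2
    rw [h2] at h1
    exact (mem_support_iff.1 hi0) (leadingCoeff_eq_zero.1 h1)
  have hval := eval₂_ne_zero hk hc hR
  have hcoeff : (bev k h H).coeff (φ i0) = R.eval₂ k.subtype (h.coeff D) := by
    have e1 : bev k h H = ∑ j ∈ H.support, (H.coeff j).map k.subtype * h ^ j := by
      show H.eval₂ (Polynomial.mapRingHom k.subtype) h = _
      rw [eval₂_eq_sum, sum_def]
      rfl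
    have e2 : R.eval₂ k.subtype (h.coeff D) =
        ∑ j ∈ H.support.filter (fun j => D * j ≤ φ i0),
          ((H.coeff j).coeff (φ i0 - D * j) : ℂ) * (h.coeff D) ^ j := by
      show (∑ j ∈ _, monomial j _).eval₂ _ _ = _
      rw [eval₂_finsetSum]
      refine Finset.sum_congr rfl fun j _ => ?_
      rw [eval₂_monomial]
      rfl
    rw [e1, e2, finsetSum_coeff, Finset.sum_filter]
    refine Finset.sum_congr rfl fun j hj => ?_
    have h1 : (H.coeff j).natDegree + D * j ≤ φ i0 := hmax j hj
    have h2 : D * j ≤ φ i0 := le_trans (Nat.le_add_left _ _) h1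
    rw [if_pos h2]
    have h3 : φ i0 = (φ i0 - D * j) + j * D := by
      rw [Nat.mul_comm j D, Nat.sub_add_cancel h2]
    conv_lhs => rw [h3]
    rw [coeff_mul_add_eq_of_natDegree_le (df := φ i0 - D * j) (dg := j * D), coeff_map,
      coeff_pow_of_natDegree_le hD]
    · rfl
    · exact (natDegree_map_le).trans (by omega)
    · exact natDegree_pow_le_of_le j hD
  refine le_natDegree_of_ne_zero ?_
  rw [hcoeff]
  exact hval

end TTP_

open TTP_ in
theorem ttp_proof : Stmt_TTP := by
  classical
  intro k f M s hk hf hs hex G hG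
  obtain ⟨hj0, hj0'⟩ := Nat.find_spec hex
  have hmin : ∀ j, j < Nat.find hex → ¬ (j ≤ s ∧ f.coeff (M - j) ∉ k) := fun j hj =>
    Nat.find_min hex hj
  generalize Nat.find hex = j0 at hj0 hj0' hmin
  obtain ⟨D, hD⟩ : ∃ D, D = M - j0 := ⟨_, rfl⟩
  rw [← hD] at hj0'
  let e' : ℂ[X] := ∑ i ∈ f.support.filter (fun i => D < i), monomial i (f.coeff i)
  have he' : ∀ n, e'.coeff n = if D < n then f.coeff n else 0 := by
    intro n
    show (∑ i ∈ _, monomial i (f.coeff i)).coeff n = _
    rw [finsetSum_coeff]
    by_cases hn : D < n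
    · rw [if_pos hn]
      by_cases hn' : f.coeff n = 0
      · rw [hn']
        refine Finset.sum_eq_zero fun i _ => ?_
        rw [coeff_monomial]
        split_ifs with h
        · rw [h, hn']
        · rfl
      · rw [Finset.sum_eq_single n]
        · rw [coeff_monomial, if_pos rfl]
        · intro i _ hi
          rw [coeff_monomial, if_neg hi]
        · intro h
          exact absurd (Finset.mem_filter.2 ⟨mem_support_iff.2 hn', hn⟩) h
    · rw [if_neg hn]
      refine Finset.sum_eq_zero fun i hi => ?_
      have := (Finset.mem_filter.1 hi).2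
      rw [coeff_monomial, if_neg (by omega)]
  have hk' : ∀ n, e'.coeff n ∈ k := by
    intro n
    rw [he']
    split_ifs with hn
    · by_cases hnM : M < n
      · rw [coeff_eq_zero_of_natDegree_lt (lt_of_le_of_lt hf hnM)]
        exact k.zero_mem
      · have h1 := hmin (M - n) (by omega)
        have h2 : M - (M - n) = n := by omega
        rw [h2] at h1
        by_contra h3
        exact h1 ⟨by omega, h3⟩
    · exact k.zero_mem
  obtain ⟨e, he⟩ : ∃ e : Polynomial k, e.map k.subtype = e' := by
    have : e' ∈ lifts k.subtype := by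
      rw [lifts_iff_coeff_lifts]
      intro n
      exact ⟨⟨_, hk' n⟩, rfl⟩
    rwa [mem_lifts] at this
  let h : ℂ[X] := f - e'
  have hfe : h + e.map k.subtype = f := by
    rw [he]
    exact sub_add_cancel f e'
  have hh : h.natDegree ≤ D := by
    rw [natDegree_le_iff_coeff_eq_zero]
    intro n hn
    show (f - e').coeff n = 0
    rw [coeff_sub, he', if_pos hn, sub_self]
  have hhD : h.coeff D ∉ k := by
    have : h.coeff D = f.coeff D := by
      show (f - e').coeff D = _
      rw [coeff_sub, he', if_neg (lt_irrefl _), sub_zero]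
    rw [this]
    exact hj0'
  have hT := bound hk h D hh hhD (taylor e G) (taylor e G).natDegree (by
    rw [coeff_natDegree, leadingCoeff_taylor, Ne, leadingCoeff_eq_zero]
    exact hG)
  rw [bev_taylor, hfe, coeff_natDegree, leadingCoeff_taylor, natDegree_taylor] at hT
  refine le_trans ?_ hT
  have : M - s ≤ D := by omega
  exact Nat.add_le_add_left (Nat.mul_le_mul_right _ this) _

end

end EVS
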