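import Pool.Agent.EVS.Api

/-!
# Squad EVS (MP_3e5173_lc), module UNV: homomorphisms defined on `k(Z)(f)`
-/

set_option autoImplicit false

namespace EVS

open Polynomial EVR

namespace UNV_

/-- `k[Z][x] → k(Z)(f)` -/
noncomputable def ph (k : Subfield ℂ) (f : ℂ[X]) : Polynomial (Polynomial k) →+* fld k f :=
  ((pz : ℂ[X] →+* K).comp (bev k f)).codRestrict (fld k f) (fun G => pz_bev_mem k f G)

theorem ph_coe (k : Subfield ℂ) (f : ℂ[X]) (G : Polynomial (Polynomial k)) :
    ((ph k f G : fld k f) : K) = pz (bev k f G) := rfl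

theorem ph_inj {k : Subfield ℂ} {f : ℂ[X]} (h : Tr (kZ k) (pz f)) :
    Function.Injective (ph k f) := by
  rw [injective_iff_map_eq_zero]
  intro G hG
  by_contra h0
  have h1 := congrArg (fun x : fld k f => (x : K)) hG
  simp only [ph_coe] at h1
  exact pz_ne_zero.2 (bev_ne_zero h h0) h1

end UNV_

open UNV_ in
theorem unv_proof : Stmt_UNV := by
  intro k f σ z g hTr hG
  have h1 := ph_inj hTr
  set ψ : Polynomial (Polynomial k) →+* K :=
    Polynomial.eval₂RingHom (Polynomial.eval₂RingHom (cst.comp σ) z) g with hψ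
  have h2 : Function.Injective ψ := by
    rw [injective_iff_map_eq_zero]
    intro G h0
    by_contra h3
    exact hG G h3 h0
  set Φ : FractionRing (Polynomial (Polynomial k)) →+* fld k f := IsFractionRing.lift h1 with hΦ
  have hΦa : ∀ G, Φ (algebraMap _ _ G) = ph k f G := fun G => IsFractionRing.lift_algebraMap h1 G
  have hΦs : Function.Surjective Φ := by
    rintro ⟨y, hy⟩
    obtain ⟨P, Q, hQ, hy'⟩ := mem_fld_iff.1 hy
    refine ⟨algebraMap _ _ P / algebraMap _ _ Q, ?_⟩
    rw [map_div₀, hΦa, hΦa]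
    exact Subtype.ext hy'.symm
  have hΦb : Function.Bijective Φ := ⟨Φ.injective, hΦs⟩
  set e := RingEquiv.ofBijective Φ hΦb with he
  set Ψ : FractionRing (Polynomial (Polynomial k)) →+* K := IsFractionRing.lift h2 with hΨ
  have hΨa : ∀ G, Ψ (algebraMap _ _ G) = ψ G := fun G => IsFractionRing.lift_algebraMap h2 G
  refine ⟨Ψ.comp (e.symm : fld k f →+* FractionRing (Polynomial (Polynomial k))), ?_⟩
  intro G h
  have h3 : e (algebraMap _ _ G) = ⟨pz (bev k f G), h⟩ := hΦa G
  have h4 : e.symm ⟨pz (bev k f G), h⟩ = algebraMap _ _ G := by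
    rw [← h3, RingEquiv.symm_apply_apply]
  show Ψ (e.symm ⟨pz (bev k f G), h⟩) = _
  rw [h4, hΨa]
  rfl

end EVS
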