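import Pool.Agent.EVS.Api

/-!
# Squad EVS (MP_3e5173_lc): module ZDR, points over `ℂ(Z)`, derivations over `k'`
-/

set_option autoImplicit false

namespace EVS

open Polynomial EVR

namespace ZDR_

theorem exists_D {k' : Subfield ℂ} {f γ : ℂ[X]} (hγ : γ ≠ 0) (hG : Gc k' f γ) :
    ∃ D : Derivation ℤ ℂ ℂ, Kil k' D ∧ cd D f ≠ 0 := by
  by_contra hcon
  push Not at hcon
  have h := hG (γ * X) fun D hD => by
    rw [hcon D hD]
    exact dvd_zero _
  have h2 := natDegree_le_of_dvd h hγ
  rw [natDegree_mul_X hγ] at h2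
  omega

theorem arithA {d g x e N L t : ℕ} (he : 6 * d + 7 * g < e) (hx : 1 ≤ x)
    (hL : 4 * L ≤ 4 * g + t + x * g) (hN : t + e * x ≤ N) : 4 * (d + L) < N := by
  have a3 : (6 * d + 7 * g + 1) * x ≤ e * x := Nat.mul_le_mul_right _ he
  have a4 : 4 * (d + g) ≤ x * (4 * (d + g)) := Nat.le_mul_of_pos_left _ (by omega)
  nlinarith

theorem arithB {d g x e N L t : ℕ} (he : 6 * d + 7 * g < e) (hx : 1 ≤ x)
    (hL : 6 * L ≤ 6 * g + t + x * g) (hN : t + e * x ≤ N) : 6 * (d + L) < N := by
  have a3 : (6 * d + 7 * g + 1) * x ≤ e * x := Nat.mul_le_mul_right _ he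
  have a4 : 6 * (d + g) ≤ x * (6 * (d + g)) := Nat.le_mul_of_pos_left _ (by omega)
  nlinarith

end ZDR_

open ZDR_ in
theorem zdr_proof (hMTG : Stmt_MTG) (hZLL : Stmt_ZLL) : Stmt_ZDR := by
  intro k k' f γ d e A B u v hk hkk hTr hγ hG hd hLg he hM hdisc hAB1 heq
  obtain ⟨D1, hD1, hD1f⟩ := exists_D hγ hG
  have hAB : A ≠ 0 ∨ B ≠ 0 := by
    by_contra hcon
    push Not at hcon
    apply hdisc
    rw [hcon.1, hcon.2]
    simp
  obtain ⟨L, hL, hLd, hLA, hLB⟩ := hZLL k f γ A B hk hTr hγ (Gc.mono hkk hG) hM hAB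
  obtain ⟨E1, hE1⟩ := exists_ext D1
  have hdisc' : 4 * (bev k f A) ^ 3 + 27 * (bev k f B) ^ 2 ≠ 0 := by
    have h := bev_ne_zero hTr hdisc
    have h2 : bev k f (4 * A ^ 3 + 27 * B ^ 2) =
        4 * (bev k f A) ^ 3 + 27 * (bev k f B) ^ 2 := by
      simp only [map_add, map_mul, map_pow, map_ofNat]
    rw [← h2]
    exact h
  have hlt : (bev k f A ≠ 0 ∧ 4 * ((d : ℤ) + L.natDegree) < (bev k f A).natDegree) ∨
      (bev k f B ≠ 0 ∧ 6 * ((d : ℤ) + L.natDegree) < (bev k f B).natDegree) := by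
    rcases hAB1 with h1 | h1
    · left
      have hA : A ≠ 0 := by
        rintro rfl
        simp at h1
      refine ⟨bev_ne_zero hTr hA, ?_⟩
      have := arithA he h1 (hLA hA) (hLg A hA)
      exact_mod_cast this
    · right
      have hB : B ≠ 0 := by
        rintro rfl
        simp at h1
      refine ⟨bev_ne_zero hTr hB, ?_⟩
      have := arithB he h1 (hLB hB) (hLg B hB)
      exact_mod_cast this
  have hp1 : pz (cd D1 f) ≠ 0 := pz_ne_zero.2 hD1f
  have main : ∀ (D : Derivation ℤ ℂ ℂ) (E : Derivation ℤ K K), IsExt D E → Kil k' D →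
      pz (cd D1 f) * E u = E (pz f) * E1 u ∧ pz (cd D1 f) * E v = E (pz f) * E1 v := by
    intro D E hE hD
    have hΔ : ∀ y : K, ((pz (cd D1 f)) • E - (E (pz f)) • E1) y =
        pz (cd D1 f) * E y - E (pz f) * E1 y := by
      intro y
      rw [Derivation.sub_apply, Derivation.smul_apply, Derivation.smul_apply, smul_eq_mul,
        smul_eq_mul]
    have hΔp : ∀ p : ℂ[X], ((pz (cd D1 f)) • E - (E (pz f)) • E1) (pz p) =
        pz (cd D1 f * cd D p - cd D f * cd D1 p) := by
      intro p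
      rw [hΔ, E_pz hE, E_pz hE, E_pz hE1, map_sub, map_mul, map_mul]
    have hk0 : ∀ G : Polynomial (Polynomial k),
        ((pz (cd D1 f)) • E - (E (pz f)) • E1) (pz (bev k f G)) = 0 := by
      intro G
      rw [hΔp, cd_bev (hD.mono hkk), cd_bev (hD1.mono hkk)]
      have h0 : cd D1 f * (bev k f (derivative G) * cd D f) -
        cd D f * (bev k f (derivative G) * cd D1 f) = 0 := by ring
      rw [h0, map_zero]
    have h := hMTG ((pz (cd D1 f)) • E - (E (pz f)) • E1) d (bev k f A) (bev k f B) L u v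
      (fun p => ⟨_, hΔp p, fun _ => by
        have h1 : (cd D1 f * cd D p - cd D f * cd D1 p).natDegree ≤ p.natDegree + d := by
          refine (natDegree_sub_le _ _).trans (max_le ?_ ?_)
          · refine natDegree_mul_le.trans ?_
            have := hd D1 hD1
            have := natDegree_cd_le D p
            omega
          · refine natDegree_mul_le.trans ?_
            have := hd D hD
            have := natDegree_cd_le D1 p
            omega
        exact_mod_cast h1⟩)
      (hk0 A) (hk0 B) hdisc' hL hLd hlt heq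
    rw [hΔ, hΔ, sub_eq_zero, sub_eq_zero] at h
    exact h
  refine ⟨⟨E1 u / pz (cd D1 f), ?_⟩, ⟨E1 v / pz (cd D1 f), ?_⟩⟩
  · intro D E hE hD
    have h := (main D E hE hD).1
    rw [div_mul_eq_mul_div, eq_div_iff hp1]
    linear_combination h
  · intro D E hE hD
    have h := (main D E hE hD).2
    rw [div_mul_eq_mul_div, eq_div_iff hp1]
    linear_combination h

end EVS
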