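import Pool.Agent.EVS.Api

/-!
# Squad EVS (MP_3e5173_lc): the loss of minimality
-/

set_option autoImplicit false

namespace EVS

open Polynomial EVR

namespace ZLL_

theorem sum_rm_le (S : Finset ℂ) (p : ℂ[X]) (hp : p ≠ 0) :
    ∑ c ∈ S, p.rootMultiplicity c ≤ p.natDegree := by
  classical
  have h1 : ∑ c ∈ S, p.rootMultiplicity c ≤ ∑ c ∈ p.roots.toFinset, p.rootMultiplicity c := by
    have h2 : ∑ c ∈ S, p.rootMultiplicity c
        = ∑ c ∈ S.filter (fun c => c ∈ p.roots.toFinset), p.rootMultiplicity c := by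
      rw [Finset.sum_filter]
      refine Finset.sum_congr rfl fun c _ => ?_
      split_ifs with h
      · rfl
      · rw [Multiset.mem_toFinset, mem_roots hp] at h
        exact rootMultiplicity_eq_zero h
    rw [h2]
    exact Finset.sum_le_sum_of_subset fun c hc => (Finset.mem_filter.1 hc).2
  have h3 : ∑ c ∈ p.roots.toFinset, p.rootMultiplicity c = Multiset.card p.roots := by
    rw [← Multiset.toFinset_sum_count_eq]
    refine Finset.sum_congr rfl fun c _ => ?_
    rw [count_roots]
  calc ∑ c ∈ S, p.rootMultiplicity c ≤ Multiset.card p.roots := by rw [← h3]; exact h1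
    _ ≤ p.natDegree := card_roots' p

end ZLL_

open ZLL_ in
theorem zll_proof (hA : Stmt_DVA) (hB : Stmt_DVB) (hC : Stmt_DVC) : Stmt_ZLL := by
  classical
  intro k f γ A B hk hf hγ hG hM hAB
  -- the good exponents
  let Good : ℂ → ℕ → Prop := fun c j =>
    (X - C c) ^ (4 * j) ∣ bev k f A ∧ (X - C c) ^ (6 * j) ∣ bev k f B
  let N : ℕ := (bev k f A).natDegree + (bev k f B).natDegree
  have hbd : ∀ c j, Good c j → j ≤ N := by
    intro c j hj
    rcases hAB with h | h
    · have h1 := natDegree_le_of_dvd hj.1 (bev_ne_zero hf h)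
      rw [natDegree_pow, natDegree_X_sub_C] at h1
      show j ≤ _ + _
      omega
    · have h1 := natDegree_le_of_dvd hj.2 (bev_ne_zero hf h)
      rw [natDegree_pow, natDegree_X_sub_C] at h1
      show j ≤ _ + _
      omega
  let J : ℂ → ℕ := fun c => Nat.findGreatest (fun j => Good c j) N
  have hJ : ∀ c, Good c (J c) := by
    intro c
    have h0 : Good c 0 := ⟨by simp, by simp⟩
    exact Nat.findGreatest_spec (P := fun j => Good c j) (Nat.zero_le N) h0
  have hJle : ∀ c j, Good c j → j ≤ J c := fun c j hj =>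
    Nat.le_findGreatest (hbd c j hj) hj
  let S : Finset ℂ := γ.roots.toFinset.filter (fun c => c ∈ k)
  let P : ℂ[X] := ∏ c ∈ S, (X - C c) ^ (J c)
  have hPne : P ≠ 0 := by
    refine Finset.prod_ne_zero_iff.2 fun c _ => pow_ne_zero _ (X_sub_C_ne_zero c)
  have hPdeg : P.natDegree = ∑ c ∈ S, J c := by
    show (∏ c ∈ S, (X - C c) ^ (J c)).natDegree = _
    rw [natDegree_prod _ _ fun c _ => pow_ne_zero _ (X_sub_C_ne_zero c)]
    refine Finset.sum_congr rfl fun c _ => ?_
    rw [natDegree_pow, natDegree_X_sub_C, mul_one]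
  have hLdeg : (γ * P).natDegree = γ.natDegree + ∑ c ∈ S, J c := by
    rw [natDegree_mul hγ hPne, hPdeg]
  -- the general bound at a point
  have key : ∀ (G : Polynomial (Polynomial k)) (m : ℕ), G ≠ 0 →
      (∀ c, (X - C c) ^ (m * J c) ∣ bev k f G) →
      ∑ c ∈ S, m * J c ≤ G.leadingCoeff.natDegree + G.natDegree * γ.natDegree := by
    intro G m hG0 hdv
    have hlc : G.leadingCoeff.map k.subtype ≠ 0 := by
      rw [Ne, Polynomial.map_eq_zero]
      exact leadingCoeff_ne_zero.2 hG0
    have h1 : ∀ c ∈ S, m * J c ≤ (G.leadingCoeff.map k.subtype).rootMultiplicity c +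
        γ.rootMultiplicity c * G.natDegree := by
      intro c hc
      have hck : c ∈ k := (Finset.mem_filter.1 hc).2
      by_cases hfc : f.eval c ∈ k
      · obtain ⟨t, ht1, ht2, ht3⟩ := hC k f c hk hf hck hfc
        have h2 : (X - C c) ^ t ∣ γ := hG _ ht2
        have h3 : t ≤ γ.rootMultiplicity c := (le_rootMultiplicity_iff hγ).2 h2
        have h4 : m * J c ≤ (bev k f G).rootMultiplicity c :=
          (le_rootMultiplicity_iff (bev_ne_zero hf hG0)).2 (hdv c)
        have h5 := ht3 G hG0
        have h6 : t * G.natDegree ≤ γ.rootMultiplicity c * G.natDegree :=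
          Nat.mul_le_mul_right _ h3
        omega
      · have h2 := hB k f A B c (J c) hk hM hAB hck hfc (hJ c).1 (hJ c).2
        rw [h2, mul_zero]
        exact Nat.zero_le _
    calc ∑ c ∈ S, m * J c
        ≤ ∑ c ∈ S, ((G.leadingCoeff.map k.subtype).rootMultiplicity c +
          γ.rootMultiplicity c * G.natDegree) := Finset.sum_le_sum h1
      _ = ∑ c ∈ S, (G.leadingCoeff.map k.subtype).rootMultiplicity c +
          (∑ c ∈ S, γ.rootMultiplicity c) * G.natDegree := by
          rw [Finset.sum_add_distrib, Finset.sum_mul]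
      _ ≤ (G.leadingCoeff.map k.subtype).natDegree + γ.natDegree * G.natDegree :=
          Nat.add_le_add (sum_rm_le S _ hlc) (Nat.mul_le_mul_right _ (sum_rm_le S γ hγ))
      _ = G.leadingCoeff.natDegree + G.natDegree * γ.natDegree := by
          rw [natDegree_map_eq_of_injective k.subtype.injective, mul_comm γ.natDegree]
  refine ⟨γ * P, mul_ne_zero hγ hPne, ?_, ?_, ?_⟩
  · intro c j h4 h6
    by_cases hck : c ∈ k
    · by_cases hfc : f.eval c ∈ k
      · obtain ⟨t, ht1, ht2, -⟩ := hC k f c hk hf hck hfc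
        have h2 : (X - C c) ^ t ∣ γ := hG _ ht2
        have h3 : c ∈ S := by
          refine Finset.mem_filter.2 ⟨?_, hck⟩
          rw [Multiset.mem_toFinset, mem_roots hγ, ← dvd_iff_isRoot]
          exact (dvd_pow_self _ (by omega)).trans h2
        have h5 : (X - C c) ^ j ∣ (X - C c) ^ (J c) := pow_dvd_pow _ (hJle c j ⟨h4, h6⟩)
        exact (h5.trans (Finset.dvd_prod_of_mem (fun c => (X - C c) ^ (J c)) h3)).trans
          (dvd_mul_left _ _)
      · have h2 := hB k f A B c j hk hM hAB hck hfc h4 h6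
        rw [h2, pow_zero]
        exact one_dvd _
    · have h2 : (X - C c) ^ j ∣ γ := hG _ fun D hD =>
        hA k f A B c j D hk hf hM hAB hck h4 h6 hD
      exact h2.trans (dvd_mul_right _ _)
  · intro h0
    have h1 := key A 4 h0 fun c => (hJ c).1
    rw [← Finset.mul_sum] at h1
    rw [hLdeg]
    omega
  · intro h0
    have h1 := key B 6 h0 fun c => (hJ c).2
    rw [← Finset.mul_sum] at h1
    rw [hLdeg]
    omega

end EVS
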